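import Mathlib

/-!
The algebraic identities for the average over the rotations.
-/

set_option autoImplicit false

namespace H14NS

/-- The inner product of the sides of a triangle. -/
noncomputable def pq (P Q K : ℝ) : ℝ := (K ^ 2 - P ^ 2 - Q ^ 2) / 2

/-- The first triple product. -/
noncomputable def D1 (P Q K g z : ℝ) : ℝ :=
  z * (Q ^ 2 * (g * K ^ 2 - z) - z * pq P Q K) * ((g * K ^ 2 - z) * (P ^ 2 * (1 - g ^ 2 * K ^ 2)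
      - (g * K ^ 2 - z) * ((g * K ^ 2 - z) - g * (P ^ 2 + pq P Q K))))
    - ((g * K ^ 2 - z) - g * (P ^ 2 + pq P Q K)) * ((g * K ^ 2 - z) * z * (P ^ 2 * Q ^ 2 - P ^ 2 * z ^ 2
      - Q ^ 2 * (g * K ^ 2 - z) ^ 2 + (g * K ^ 2 - z) * z * pq P Q K))

/-- The second triple product. -/
noncomputable def D2 (P Q K g z : ℝ) : ℝ :=
  (z - g * (Q ^ 2 + pq P Q K)) * ((g * K ^ 2 - z) * z * (P ^ 2 * Q ^ 2 - P ^ 2 * z ^ 2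
      - Q ^ 2 * (g * K ^ 2 - z) ^ 2 + (g * K ^ 2 - z) * z * pq P Q K))
    - (g * K ^ 2 - z) * (P ^ 2 * z - (g * K ^ 2 - z) * pq P Q K)
      * (z * (Q ^ 2 * (1 - g ^ 2 * K ^ 2) - z * (z - g * (Q ^ 2 + pq P Q K))))

/-- The third triple product. -/
noncomputable def D3 (P Q K g z : ℝ) : ℝ :=
  (g * K ^ 2 - z) * (P ^ 2 * z - (g * K ^ 2 - z) * pq P Q K) * (z * (Q ^ 2 - z ^ 2))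
    - (g * K ^ 2 - z) * (P ^ 2 - (g * K ^ 2 - z) ^ 2) * (z * (Q ^ 2 * (g * K ^ 2 - z) - z * pq P Q K))

/-- The combination for the triads with equal signs; the other ones are obtained by the changes of the
signs of the lengths. -/
noncomputable def cmb (P Q K g z : ℝ) : ℝ := D1 P Q K g z + P / Q * D2 P Q K g z - P / K * D3 P Q K g z

/-- Sixteen times the square of the area. -/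
noncomputable def ar (P Q K : ℝ) : ℝ := (K + P + Q) * (Q + K - P) * (P + K - Q) * (P + Q - K)

/-- A polynomial. -/
noncomputable def Q4 (x y z : ℝ) : ℝ :=
  -3 * x ^ 4 + 3 * x ^ 3 * (y + z) - 7 * x ^ 2 * (y ^ 2 + z ^ 2) - 10 * x ^ 2 * y * z
    - 7 * x * (y ^ 3 + z ^ 3) + 7 * x * y * z * (y + z) + 14 * (y ^ 2 - z ^ 2) ^ 2

/-- The average of `cmb`. -/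
noncomputable def tgt (P Q K g : ℝ) : ℝ :=
  ar P Q K / (128 * K ^ 4) * g * (1 - g ^ 2 * K ^ 2) * (K + P + Q) ^ 2 * (P * (P - Q))
    * (16 / 7 * K ^ 2 * (K - P) * (K - Q) + Q4 K P Q * (3 / 7 - g ^ 2 * K ^ 2))

theorem D1_eq (P Q K g z : ℝ) : D1 P Q K g z =
      (1 / 2 * (P ^ 4 * Q ^ 2 * K ^ 2 * g ^ 2) - 1 / 2 * (P ^ 2 * Q ^ 4 * K ^ 2 * g ^ 2) - P ^ 2 * Q ^ 2 * K ^ 6 * g ^ 4 + 1 / 2 * (P ^ 2 * Q ^ 2 * K ^ 4 * g ^ 2)) * z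
      + (-1 / 2 * (P ^ 4 * Q ^ 2 * g) - 1 / 2 * (P ^ 4 * K ^ 4 * g ^ 3) + 1 / 2 * (P ^ 4 * K ^ 2 * g) + 1 / 2 * (P ^ 2 * Q ^ 4 * g) + 3 / 2 * (P ^ 2 * Q ^ 2 * K ^ 4 * g ^ 3) + 1 / 2 * (P ^ 2 * K ^ 6 * g ^ 3) - 1 / 2 * (P ^ 2 * K ^ 4 * g)) * z ^ 2
      + (-1 / 2 * (P ^ 4) - 1 / 2 * (P ^ 2 * Q ^ 2) + 1 / 2 * (P ^ 2 * K ^ 2)) * z ^ 3
      + (1 / 2 * (P ^ 4 * g) - 1 / 2 * (P ^ 2 * Q ^ 2 * g) - 3 / 2 * (P ^ 2 * K ^ 2 * g)) * z ^ 4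
      + (P ^ 2) * z ^ 5 := by
  unfold D1 pq; ring

theorem D2_eq (P Q K g z : ℝ) : D2 P Q K g z =
      (1 / 2 * (P ^ 4 * Q ^ 2 * K ^ 2 * g ^ 2) - 1 / 2 * (P ^ 2 * Q ^ 4 * K ^ 2 * g ^ 2) - P ^ 2 * Q ^ 2 * K ^ 4 * g ^ 2 + Q ^ 4 * K ^ 6 * g ^ 4 - 1 / 2 * (Q ^ 4 * K ^ 4 * g ^ 2) + 1 / 2 * (Q ^ 2 * K ^ 6 * g ^ 2)) * z
      + (-1 / 2 * (P ^ 4 * Q ^ 2 * g) + 1 / 2 * (P ^ 2 * Q ^ 4 * g) + 3 / 2 * (P ^ 2 * Q ^ 2 * K ^ 4 * g ^ 3) + 3 / 2 * (P ^ 2 * Q ^ 2 * K ^ 2 * g) - 5 / 2 * (Q ^ 4 * K ^ 4 * g ^ 3) + Q ^ 4 * K ^ 2 * g - 3 / 2 * (Q ^ 2 * K ^ 6 * g ^ 3) - Q ^ 2 * K ^ 4 * g) * z ^ 2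
      + (-2 * (P ^ 2 * Q ^ 2 * K ^ 2 * g ^ 2) - 1 / 2 * (P ^ 2 * Q ^ 2) + 2 * (Q ^ 4 * K ^ 2 * g ^ 2) - 1 / 2 * (Q ^ 4) + 4 * (Q ^ 2 * K ^ 4 * g ^ 2) + 1 / 2 * (Q ^ 2 * K ^ 2)) * z ^ 3
      + (1 / 2 * (P ^ 2 * Q ^ 2 * g) - 1 / 2 * (Q ^ 4 * g) - 7 / 2 * (Q ^ 2 * K ^ 2 * g)) * z ^ 4
      + (Q ^ 2) * z ^ 5 := by
  unfold D2 pq; ring

theorem D3_eq (P Q K g z : ℝ) : D3 P Q K g z =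
      (-1 / 2 * (P ^ 2 * Q ^ 2 * K ^ 4 * g ^ 2) + 1 / 2 * (Q ^ 4 * K ^ 4 * g ^ 2) + Q ^ 2 * K ^ 8 * g ^ 4 - 1 / 2 * (Q ^ 2 * K ^ 6 * g ^ 2)) * z
      + (-1 / 2 * (P ^ 4 * K ^ 2 * g) + 3 / 2 * (P ^ 2 * Q ^ 2 * K ^ 2 * g) + 1 / 2 * (P ^ 2 * K ^ 6 * g ^ 3) + 1 / 2 * (P ^ 2 * K ^ 4 * g) - Q ^ 4 * K ^ 2 * g - 7 / 2 * (Q ^ 2 * K ^ 6 * g ^ 3) + Q ^ 2 * K ^ 4 * g - 1 / 2 * (K ^ 8 * g ^ 3)) * z ^ 2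
      + (1 / 2 * (P ^ 4) - P ^ 2 * Q ^ 2 - 2 * (P ^ 2 * K ^ 4 * g ^ 2) - 1 / 2 * (P ^ 2 * K ^ 2) + 1 / 2 * (Q ^ 4) + 4 * (Q ^ 2 * K ^ 4 * g ^ 2) - 1 / 2 * (Q ^ 2 * K ^ 2) + 2 * (K ^ 6 * g ^ 2)) * z ^ 3
      + (3 / 2 * (P ^ 2 * K ^ 2 * g) - 3 / 2 * (Q ^ 2 * K ^ 2 * g) - 5 / 2 * (K ^ 4 * g)) * z ^ 4
      + (K ^ 2) * z ^ 5 := by
  unfold D3 pq; ring

/-- The sum over the six rotations. -/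
noncomputable def six (f : ℝ → ℝ) (T c d : ℝ) : ℝ :=
  f (T + 2 * c) + f (T + c + d) + f (T - c + d) + f (T - 2 * c) + f (T - c - d) + f (T + c - d)

theorem six_poly (a₁ a₂ a₃ a₄ a₅ T c d R : ℝ) (hR : R = 4 * c ^ 2 + 4 / 3 * d ^ 2) :
    six (fun z => a₁ * z + a₂ * z ^ 2 + a₃ * z ^ 3 + a₄ * z ^ 4 + a₅ * z ^ 5) T c d
      = 6 * (a₁ * T + a₂ * (T ^ 2 + R / 2) + a₃ * (T ^ 3 + 3 * T * R / 2)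
        + a₄ * (T ^ 4 + 3 * T ^ 2 * R + 3 * R ^ 2 / 8)
        + a₅ * (T ^ 5 + 5 * T ^ 3 * R + 15 * T * R ^ 2 / 8)) := by
  rw [hR]
  unfold six
  ring

theorem six_cmb (P Q K g T c d R : ℝ) (hR : R = 4 * c ^ 2 + 4 / 3 * d ^ 2) :
    six (cmb P Q K g) T c d = 6 * ((
      (1 / 2 * (P ^ 4 * Q ^ 2 * K ^ 2 * g ^ 2) - 1 / 2 * (P ^ 2 * Q ^ 4 * K ^ 2 * g ^ 2) - P ^ 2 * Q ^ 2 * K ^ 6 * g ^ 4 + 1 / 2 * (P ^ 2 * Q ^ 2 * K ^ 4 * g ^ 2)) * T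
      + (-1 / 2 * (P ^ 4 * Q ^ 2 * g) - 1 / 2 * (P ^ 4 * K ^ 4 * g ^ 3) + 1 / 2 * (P ^ 4 * K ^ 2 * g) + 1 / 2 * (P ^ 2 * Q ^ 4 * g) + 3 / 2 * (P ^ 2 * Q ^ 2 * K ^ 4 * g ^ 3) + 1 / 2 * (P ^ 2 * K ^ 6 * g ^ 3) - 1 / 2 * (P ^ 2 * K ^ 4 * g)) * (T ^ 2 + R / 2)
      + (-1 / 2 * (P ^ 4) - 1 / 2 * (P ^ 2 * Q ^ 2) + 1 / 2 * (P ^ 2 * K ^ 2)) * (T ^ 3 + 3 * T * R / 2)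
      + (1 / 2 * (P ^ 4 * g) - 1 / 2 * (P ^ 2 * Q ^ 2 * g) - 3 / 2 * (P ^ 2 * K ^ 2 * g)) * (T ^ 4 + 3 * T ^ 2 * R + 3 * R ^ 2 / 8)
      + (P ^ 2) * (T ^ 5 + 5 * T ^ 3 * R + 15 * T * R ^ 2 / 8))
      + P / Q * (
      (1 / 2 * (P ^ 4 * Q ^ 2 * K ^ 2 * g ^ 2) - 1 / 2 * (P ^ 2 * Q ^ 4 * K ^ 2 * g ^ 2) - P ^ 2 * Q ^ 2 * K ^ 4 * g ^ 2 + Q ^ 4 * K ^ 6 * g ^ 4 - 1 / 2 * (Q ^ 4 * K ^ 4 * g ^ 2) + 1 / 2 * (Q ^ 2 * K ^ 6 * g ^ 2)) * T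
      + (-1 / 2 * (P ^ 4 * Q ^ 2 * g) + 1 / 2 * (P ^ 2 * Q ^ 4 * g) + 3 / 2 * (P ^ 2 * Q ^ 2 * K ^ 4 * g ^ 3) + 3 / 2 * (P ^ 2 * Q ^ 2 * K ^ 2 * g) - 5 / 2 * (Q ^ 4 * K ^ 4 * g ^ 3) + Q ^ 4 * K ^ 2 * g - 3 / 2 * (Q ^ 2 * K ^ 6 * g ^ 3) - Q ^ 2 * K ^ 4 * g) * (T ^ 2 + R / 2)
      + (-2 * (P ^ 2 * Q ^ 2 * K ^ 2 * g ^ 2) - 1 / 2 * (P ^ 2 * Q ^ 2) + 2 * (Q ^ 4 * K ^ 2 * g ^ 2) - 1 / 2 * (Q ^ 4) + 4 * (Q ^ 2 * K ^ 4 * g ^ 2) + 1 / 2 * (Q ^ 2 * K ^ 2)) * (T ^ 3 + 3 * T * R / 2)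
      + (1 / 2 * (P ^ 2 * Q ^ 2 * g) - 1 / 2 * (Q ^ 4 * g) - 7 / 2 * (Q ^ 2 * K ^ 2 * g)) * (T ^ 4 + 3 * T ^ 2 * R + 3 * R ^ 2 / 8)
      + (Q ^ 2) * (T ^ 5 + 5 * T ^ 3 * R + 15 * T * R ^ 2 / 8))
      - P / K * (
      (-1 / 2 * (P ^ 2 * Q ^ 2 * K ^ 4 * g ^ 2) + 1 / 2 * (Q ^ 4 * K ^ 4 * g ^ 2) + Q ^ 2 * K ^ 8 * g ^ 4 - 1 / 2 * (Q ^ 2 * K ^ 6 * g ^ 2)) * T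
      + (-1 / 2 * (P ^ 4 * K ^ 2 * g) + 3 / 2 * (P ^ 2 * Q ^ 2 * K ^ 2 * g) + 1 / 2 * (P ^ 2 * K ^ 6 * g ^ 3) + 1 / 2 * (P ^ 2 * K ^ 4 * g) - Q ^ 4 * K ^ 2 * g - 7 / 2 * (Q ^ 2 * K ^ 6 * g ^ 3) + Q ^ 2 * K ^ 4 * g - 1 / 2 * (K ^ 8 * g ^ 3)) * (T ^ 2 + R / 2)
      + (1 / 2 * (P ^ 4) - P ^ 2 * Q ^ 2 - 2 * (P ^ 2 * K ^ 4 * g ^ 2) - 1 / 2 * (P ^ 2 * K ^ 2) + 1 / 2 * (Q ^ 4) + 4 * (Q ^ 2 * K ^ 4 * g ^ 2) - 1 / 2 * (Q ^ 2 * K ^ 2) + 2 * (K ^ 6 * g ^ 2)) * (T ^ 3 + 3 * T * R / 2)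
      + (3 / 2 * (P ^ 2 * K ^ 2 * g) - 3 / 2 * (Q ^ 2 * K ^ 2 * g) - 5 / 2 * (K ^ 4 * g)) * (T ^ 4 + 3 * T ^ 2 * R + 3 * R ^ 2 / 8)
      + (K ^ 2) * (T ^ 5 + 5 * T ^ 3 * R + 15 * T * R ^ 2 / 8))) := by
  have e : ∀ z, cmb P Q K g z = 
      ((1 / 2 * (P ^ 4 * Q ^ 2 * K ^ 2 * g ^ 2) - 1 / 2 * (P ^ 2 * Q ^ 4 * K ^ 2 * g ^ 2) - P ^ 2 * Q ^ 2 * K ^ 6 * g ^ 4 + 1 / 2 * (P ^ 2 * Q ^ 2 * K ^ 4 * g ^ 2)) + P / Q * (1 / 2 * (P ^ 4 * Q ^ 2 * K ^ 2 * g ^ 2) - 1 / 2 * (P ^ 2 * Q ^ 4 * K ^ 2 * g ^ 2) - P ^ 2 * Q ^ 2 * K ^ 4 * g ^ 2 + Q ^ 4 * K ^ 6 * g ^ 4 - 1 / 2 * (Q ^ 4 * K ^ 4 * g ^ 2) + 1 / 2 * (Q ^ 2 * K ^ 6 * g ^ 2)) - P / K * (-1 / 2 * (P ^ 2 * Q ^ 2 * K ^ 4 * g ^ 2) + 1 / 2 * (Q ^ 4 * K ^ 4 * g ^ 2) + Q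 ^ 2 * K ^ 8 * g ^ 4 - 1 / 2 * (Q ^ 2 * K ^ 6 * g ^ 2))) * z
      + ((-1 / 2 * (P ^ 4 * Q ^ 2 * g) - 1 / 2 * (P ^ 4 * K ^ 4 * g ^ 3) + 1 / 2 * (P ^ 4 * K ^ 2 * g) + 1 / 2 * (P ^ 2 * Q ^ 4 * g) + 3 / 2 * (P ^ 2 * Q ^ 2 * K ^ 4 * g ^ 3) + 1 / 2 * (P ^ 2 * K ^ 6 * g ^ 3) - 1 / 2 * (P ^ 2 * K ^ 4 * g)) + P / Q * (-1 / 2 * (P ^ 4 * Q ^ 2 * g) + 1 / 2 * (P ^ 2 * Q ^ 4 * g) + 3 / 2 * (P ^ 2 * Q ^ 2 * K ^ 4 * g ^ 3) + 3 / 2 * (P ^ 2 * Q ^ 2 * K ^ 2 * g) - 5 / 2 * (Q ^ 4 * K ^ 4 * g ^ 3) + Q ^ 4 * K ^ 2 * g - 3 / 2 * (Q ^ 2 * K ^ 6 * g ^ 3) - Q ^ 2 * K ^ 4 * g) - P / K * (-1 / 2 * (P ^ 4 * K ^ 2 * g) + 3 / 2 * (P ^ 2 * Q ^ 2 * K ^ 2 * g) + 1 / 2 * (P ^ 2 * K ^ 6 * g ^ 3) + 1 / 2 * (P ^ 2 * K ^ 4 * g) - Q ^ 4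 * K ^ 2 * g - 7 / 2 * (Q ^ 2 * K ^ 6 * g ^ 3) + Q ^ 2 * K ^ 4 * g - 1 / 2 * (K ^ 8 * g ^ 3))) * z ^ 2
      + ((-1 / 2 * (P ^ 4) - 1 / 2 * (P ^ 2 * Q ^ 2) + 1 / 2 * (P ^ 2 * K ^ 2)) + P / Q * (-2 * (P ^ 2 * Q ^ 2 * K ^ 2 * g ^ 2) - 1 / 2 * (P ^ 2 * Q ^ 2) + 2 * (Q ^ 4 * K ^ 2 * g ^ 2) - 1 / 2 * (Q ^ 4) + 4 * (Q ^ 2 * K ^ 4 * g ^ 2) + 1 / 2 * (Q ^ 2 * K ^ 2)) - P / K * (1 / 2 * (P ^ 4) - P ^ 2 * Q ^ 2 - 2 * (P ^ 2 * K ^ 4 * g ^ 2) - 1 / 2 * (P ^ 2 * K ^ 2) + 1 / 2 * (Q ^ 4) + 4 * (Q ^ 2 * K ^ 4 * g ^ 2) - 1 / 2 * (Q ^ 2 * K ^ 2) + 2 * (K ^ 6 * g ^ 2))) * z ^ 3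
      + ((1 / 2 * (P ^ 4 * g) - 1 / 2 * (P ^ 2 * Q ^ 2 * g) - 3 / 2 * (P ^ 2 * K ^ 2 * g)) + P / Q * (1 / 2 * (P ^ 2 * Q ^ 2 * g) - 1 / 2 * (Q ^ 4 * g) - 7 / 2 * (Q ^ 2 * K ^ 2 * g)) - P / K * (3 / 2 * (P ^ 2 * K ^ 2 * g) - 3 / 2 * (Q ^ 2 * K ^ 2 * g) - 5 / 2 * (K ^ 4 * g))) * z ^ 4
      + ((P ^ 2) + P / Q * (Q ^ 2) - P / K * (K ^ 2)) * z ^ 5 := by
    intro z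
    unfold cmb
    rw [D1_eq, D2_eq, D3_eq]
    ring
  have e' : cmb P Q K g = fun z => _ := funext e
  rw [e', six_poly _ _ _ _ _ T c d R hR]
  ring

theorem cmb_avg {P Q K g T c d : ℝ} (hK : K ≠ 0) (hT : T = g * (K ^ 2 + Q ^ 2 - P ^ 2) / 2)
    (hR : 4 * K ^ 2 * (4 * c ^ 2 + 4 / 3 * d ^ 2) = ar P Q K * (1 - g ^ 2 * K ^ 2)) :
    six (cmb P Q K g) T c d = 6 * tgt P Q K g := by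
  have hR' : ar P Q K * (1 - g ^ 2 * K ^ 2) / (4 * K ^ 2) = 4 * c ^ 2 + 4 / 3 * d ^ 2 := by
    rw [← hR]
    field_simp
  rw [six_cmb P Q K g T c d _ hR', hT]
  unfold tgt ar Q4
  field_simp
  ring

end H14NS
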