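import Pool.Agent.H14.NS.Prof

/-!
The average over the rotations about the frequency `k`.
-/

set_option autoImplicit false

open Set Filter Topology MeasureTheory
open scoped ComplexConjugate ContDiff

namespace H14NS

open H706N

/-- The third component of the interaction, as a function of the lengths and of the third component
of `q`. -/
noncomputable def Phi (ε K g P Q z : ℝ) : ℝ :=
  (P ^ 4 * Real.exp (-P)) * (Q ^ 4 * Real.exp (-Q)) / 4 *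
    (ε * v0 P Q K * cmb P Q K g z + ε * v1 P Q K * cmb (-P) Q K g z
      + ε * v1 Q P K * cmb P (-Q) K g z + ε * v1 K P Q * cmb P Q (-K) g z)

/-- The average of `Phi`. -/
noncomputable def FF (ε K g P Q : ℝ) : ℝ :=
  (P ^ 4 * Real.exp (-P)) * (Q ^ 4 * Real.exp (-Q)) / 4 *
    (ε * v0 P Q K * tgt P Q K g + ε * v1 P Q K * tgt (-P) Q K g
      + ε * v1 Q P K * tgt P (-Q) K g + ε * v1 K P Q * tgt P Q (-K) g)

/-- The third component of the interaction. -/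
theorem hw_Phi (ε : ℝ) {p q : E} {g : ℝ} (hg : g * ‖p + q‖ ^ 2 = p 2 + q 2) (h0 : p + q ≠ 0) :
    (hw (wt ε) p q (prV p) (prV q)) 2 = Complex.I * ((Phi ε ‖p + q‖ g ‖p‖ ‖q‖ (q 2) : ℝ) : ℂ) := by
  have e : (hw (wt ε) p q (prV p) (prV q)) 2 = dt (hw (wt ε) p q (prV p) (prV q)) (toW (ev 2)) := by
    rw [dt3]
    simp only [toW_apply, ev2_0, ev2_1, ev2_2]
    simp
  rw [e, hw_wt, hw_e3 (fun s₁ s₂ s₃ a b c => by simp only [wg_flip])]
  obtain ⟨t1, t2, t3⟩ := tpD hg h0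
  rw [t1, t2, t3]
  congr 2
  unfold Phi ek
  simp only [wg]
  unfold cmb
  have a1 : D1 (-‖p‖) ‖q‖ ‖p + q‖ g (q 2) = D1 ‖p‖ ‖q‖ ‖p + q‖ g (q 2) := by unfold D1 pq; ring
  have a2 : D2 (-‖p‖) ‖q‖ ‖p + q‖ g (q 2) = D2 ‖p‖ ‖q‖ ‖p + q‖ g (q 2) := by unfold D2 pq; ring
  have a3 : D3 (-‖p‖) ‖q‖ ‖p + q‖ g (q 2) = D3 ‖p‖ ‖q‖ ‖p + q‖ g (q 2) := by unfold D3 pq; ring
  have b1 : D1 ‖p‖ (-‖q‖) ‖p + q‖ g (q 2) = D1 ‖p‖ ‖q‖ ‖p + q‖ g (q 2) := by unfold D1 pq; ring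
  have b2 : D2 ‖p‖ (-‖q‖) ‖p + q‖ g (q 2) = D2 ‖p‖ ‖q‖ ‖p + q‖ g (q 2) := by unfold D2 pq; ring
  have b3 : D3 ‖p‖ (-‖q‖) ‖p + q‖ g (q 2) = D3 ‖p‖ ‖q‖ ‖p + q‖ g (q 2) := by unfold D3 pq; ring
  have c1 : D1 ‖p‖ ‖q‖ (-‖p + q‖) g (q 2) = D1 ‖p‖ ‖q‖ ‖p + q‖ g (q 2) := by unfold D1 pq; ring
  have c2 : D2 ‖p‖ ‖q‖ (-‖p + q‖) g (q 2) = D2 ‖p‖ ‖q‖ ‖p + q‖ g (q 2) := by unfold D2 pq; ring
  have c3 : D3 ‖p‖ ‖q‖ (-‖p + q‖) g (q 2) = D3 ‖p‖ ‖q‖ ‖p + q‖ g (q 2) := by unfold D3 pq; ring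
  rw [a1, a2, a3, b1, b2, b3, c1, c2, c3]
  ring

theorem six_Phi {ε K g P Q T c d : ℝ} (hK : K ≠ 0) (hT : T = g * (K ^ 2 + Q ^ 2 - P ^ 2) / 2)
    (hR : 4 * K ^ 2 * (4 * c ^ 2 + 4 / 3 * d ^ 2) = ar P Q K * (1 - g ^ 2 * K ^ 2)) :
    six (Phi ε K g P Q) T c d = 6 * FF ε K g P Q := by
  have h0 := cmb_avg (P := P) (Q := Q) hK hT hR
  have h1 := cmb_avg (P := -P) (Q := Q) (K := K) (g := g) (T := T) (c := c) (d := d) hK
    (by rw [hT]; ring) (by rw [hR]; unfold ar; ring)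
  have h2 := cmb_avg (P := P) (Q := -Q) (K := K) (g := g) (T := T) (c := c) (d := d) hK
    (by rw [hT]; ring) (by rw [hR]; unfold ar; ring)
  have h3 := cmb_avg (P := P) (Q := Q) (K := -K) (g := g) (T := T) (c := c) (d := d)
    (neg_ne_zero.2 hK) (by rw [hT]; ring) (by rw [neg_sq, hR]; unfold ar; ring)
  unfold six at h0 h1 h2 h3 ⊢
  unfold Phi FF
  linear_combination ((P ^ 4 * Real.exp (-P)) * (Q ^ 4 * Real.exp (-Q)) / 4 * (ε * v0 P Q K)) * h0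
    + ((P ^ 4 * Real.exp (-P)) * (Q ^ 4 * Real.exp (-Q)) / 4 * (ε * v1 P Q K)) * h1
    + ((P ^ 4 * Real.exp (-P)) * (Q ^ 4 * Real.exp (-Q)) / 4 * (ε * v1 Q P K)) * h2
    + ((P ^ 4 * Real.exp (-P)) * (Q ^ 4 * Real.exp (-Q)) / 4 * (ε * v1 K P Q)) * h3

theorem exists_iso (k : E) : ∃ U : E ≃ₗᵢ[ℝ] E, U k = ‖k‖ • ev 2 := by
  refine ⟨Submodule.reflection (ℝ ∙ (k - ‖k‖ • ev 2))ᗮ, Submodule.reflection_sub ?_⟩
  rw [norm_smul, norm_norm]
  have : ‖ev 2‖ = 1 := by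
    unfold ev
    simp
  rw [this, mul_one]

/-- The rotated third component. -/
theorem rz_comp (d q : E) (θ : ℝ) : inner ℝ d (rz θ q)
    = d 2 * q 2 + Real.cos θ * (d 0 * q 0 + d 1 * q 1) + Real.sin θ * (d 1 * q 0 - d 0 * q 1) := by
  rw [inner3]
  have e0 : rz θ q 0 = Real.cos θ * q 0 - Real.sin θ * q 1 := rfl
  have e1 : rz θ q 1 = Real.sin θ * q 0 + Real.cos θ * q 1 := rfl
  have e2 : rz θ q 2 = q 2 := rfl
  rw [e0, e1, e2]
  ring

theorem norm_rz (θ : ℝ) (q : E) : ‖rz θ q‖ = ‖q‖ := (JH5.so5_iso θ).norm_map q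

theorem norm_sub_rz (K θ : ℝ) (q : E) : ‖K • ev 2 - rz θ q‖ = ‖K • ev 2 - q‖ := by
  have h : K • ev 2 = rz θ (K • ev 2) := by
    apply extE
    · show (K • ev 2) 0 = Real.cos θ * (K • ev 2) 0 - Real.sin θ * (K • ev 2) 1
      simp only [PiLp.smul_apply, ev2_0, ev2_1]; simp
    · show (K • ev 2) 1 = Real.sin θ * (K • ev 2) 0 + Real.cos θ * (K • ev 2) 1
      simp only [PiLp.smul_apply, ev2_0, ev2_1]; simp
    · rfl
  have h2 : rz θ (K • ev 2) - rz θ q = rz θ (K • ev 2 - q) := ((JH5.so5_iso θ).map_sub _ _).symm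
  conv_lhs => rw [h, h2]
  exact norm_rz θ _

/-- The reduction to the average. -/
theorem int_Phi {ε : ℝ} {k : E} (hk : k ≠ 0) {g : ℝ} (hg : g * ‖k‖ ^ 2 = k 2)
    (hint : Integrable fun q : E => Phi ε ‖k‖ g ‖k - q‖ ‖q‖ (q 2)) :
    ∫ q : E, Phi ε ‖k‖ g ‖k - q‖ ‖q‖ (q 2)
      = ∫ q : E, FF ε ‖k‖ g ‖‖k‖ • ev 2 - q‖ ‖q‖ := by
  obtain ⟨U, hU⟩ := exists_iso k
  have hK : ‖k‖ ≠ 0 := norm_ne_zero_iff.2 hk
  set K := ‖k‖ with hKdef
  set d : E := U (ev 2) with hd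
  set f : E → ℝ := fun q => Phi ε K g ‖k - q‖ ‖q‖ (q 2) with hf
  set f' : E → ℝ := fun q => Phi ε K g ‖K • ev 2 - q‖ ‖q‖ (inner ℝ d q) with hf'
  have e1 : ∀ q, f' (U q) = f q := by
    intro q
    simp only [hf', hf, hd]
    rw [← hU, ← map_sub, LinearIsometryEquiv.norm_map, LinearIsometryEquiv.norm_map,
      LinearIsometryEquiv.inner_map_map, inner3, ev2_0, ev2_1, ev2_2]
    congr 1
    ring
  have hUm := U.measurePreserving
  have hUe := U.toHomeomorph.measurableEmbedding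
  have i1 : ∫ q, f' q = ∫ q, f q := by
    rw [← hUm.integral_comp hUe]
    exact integral_congr_ae (Eventually.of_forall e1)
  have hfi : Integrable f' := by
    rw [← hUm.integrable_comp_emb hUe]
    exact hint.congr (Eventually.of_forall fun q => (e1 q).symm)
  have hr : ∀ θ, Integrable (fun q => f' (rz θ q)) ∧ ∫ q, f' (rz θ q) = ∫ q, f q := by
    intro θ
    have m := (JH5.so5_iso θ).measurePreserving
    have me := (JH5.so5_iso θ).toHomeomorph.measurableEmbedding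
    exact ⟨(m.integrable_comp_emb me).2 hfi, (m.integral_comp me f').trans i1⟩
  have hpt : ∀ q, f' (rz 0 q) + f' (rz (Real.pi / 3) q) + f' (rz (Real.pi - Real.pi / 3) q)
      + f' (rz Real.pi q) + f' (rz (-(Real.pi - Real.pi / 3)) q) + f' (rz (-(Real.pi / 3)) q)
      = 6 * FF ε K g ‖K • ev 2 - q‖ ‖q‖ := by
    intro q
    have hd2 : d 2 = g * K := by
      have h1 : inner ℝ d (K • ev 2) = k 2 := by
        rw [hd, ← hU, LinearIsometryEquiv.inner_map_map, inner3, ev2_0, ev2_1, ev2_2]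
        ring
      rw [inner3] at h1
      simp only [PiLp.smul_apply, ev2_0, ev2_1, ev2_2, smul_eq_mul] at h1
      have h2 : K * d 2 = K * (g * K) := by
        rw [← hg] at h1
        linear_combination h1
      exact mul_left_cancel₀ hK h2
    have hdn : d 0 ^ 2 + d 1 ^ 2 = 1 - g ^ 2 * K ^ 2 := by
      have h1 : ‖d‖ ^ 2 = 1 := by
        rw [hd, LinearIsometryEquiv.norm_map]
        unfold ev
        simp
      rw [nsq, hd2] at h1
      linear_combination h1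
    have hP : ‖K • ev 2 - q‖ ^ 2 = K ^ 2 - 2 * K * q 2 + ‖q‖ ^ 2 := by
      rw [nsq (K • ev 2 - q), nsq q]
      simp only [PiLp.sub_apply, PiLp.smul_apply, ev2_0, ev2_1, ev2_2, smul_eq_mul]
      ring
    have hq2 : q 0 ^ 2 + q 1 ^ 2 = ‖q‖ ^ 2 - q 2 ^ 2 := by
      rw [nsq q]; ring
    have hs3 : Real.sqrt 3 ^ 2 = 3 := Real.sq_sqrt (by norm_num)
    have hsix := six_Phi (ε := ε) (P := ‖K • ev 2 - q‖) (Q := ‖q‖) (g := g)
      (T := d 2 * q 2) (c := (d 0 * q 0 + d 1 * q 1) / 2)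
      (d := Real.sqrt 3 / 2 * (d 1 * q 0 - d 0 * q 1)) hK (by rw [hd2, hP]; ring) (by
        have e : 4 * ((d 0 * q 0 + d 1 * q 1) / 2) ^ 2
            + 4 / 3 * (Real.sqrt 3 / 2 * (d 1 * q 0 - d 0 * q 1)) ^ 2
            = (d 0 ^ 2 + d 1 ^ 2) * (q 0 ^ 2 + q 1 ^ 2) := by
          linear_combination ((d 1 * q 0 - d 0 * q 1) ^ 2 / 3) * hs3
        rw [e, hdn, hq2]
        have e2 : ar ‖K • ev 2 - q‖ ‖q‖ K
            = 4 * K ^ 2 * ‖q‖ ^ 2 - (K ^ 2 + ‖q‖ ^ 2 - ‖K • ev 2 - q‖ ^ 2) ^ 2 := by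
          unfold ar; ring
        rw [e2, hP]
        ring)
    rw [← hsix]
    simp only [hf', norm_sub_rz, norm_rz, rz_comp, Real.cos_neg, Real.sin_neg, Real.cos_pi_sub,
      Real.sin_pi_sub, Real.cos_pi, Real.sin_pi, Real.cos_zero, Real.sin_zero, Real.cos_pi_div_three,
      Real.sin_pi_div_three]
    unfold six
    congr 1
    · congr 1
      · congr 1
        · congr 1
          · congr 1
            · congr 1; ring
            · congr 1; ring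
          · congr 1; ring
        · congr 1; ring
      · congr 1; ring
    · congr 1; ring
  have htot : ∫ q, (f' (rz 0 q) + f' (rz (Real.pi / 3) q) + f' (rz (Real.pi - Real.pi / 3) q)
      + f' (rz Real.pi q) + f' (rz (-(Real.pi - Real.pi / 3)) q) + f' (rz (-(Real.pi / 3)) q))
      = 6 * ∫ q, f q := by
    rw [integral_add ?_ (hr _).1, integral_add ?_ (hr _).1, integral_add ?_ (hr _).1,
      integral_add ?_ (hr _).1, integral_add (hr _).1 (hr _).1, (hr _).2, (hr _).2, (hr _).2,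
      (hr _).2, (hr _).2, (hr _).2]
    · ring
    · exact (hr _).1.add (hr _).1
    · exact ((hr _).1.add (hr _).1).add (hr _).1
    · exact (((hr _).1.add (hr _).1).add (hr _).1).add (hr _).1
    · exact ((((hr _).1.add (hr _).1).add (hr _).1).add (hr _).1).add (hr _).1
  rw [integral_congr_ae (Eventually.of_forall hpt), integral_const_mul] at htot
  linarith

end H14NS
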