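import Pool.Graph.R_pool_sql_team_seeded_620a6dc7.Helper706_NS.Main4

/-!
Definitions: the Navier-Stokes nonlinearity with isotropic weights on the helical triads.
-/

set_option autoImplicit false

open Set Filter Topology MeasureTheory
open scoped ComplexConjugate ContDiff

namespace H14NS

open H706N

/-- The helical components: the part of the amplitude `a` which is orthogonal to the frequency `k` and
on which `i k ×` is the multiplication by `± |k|` (`+` for `s = true`). -/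
noncomputable def hp (s : Bool) (k : E) (a : W) : W :=
  (1 / 2 : ℂ) • (lp k a + ((sg s / ‖k‖ : ℝ) : ℂ) • cu k a)

/-- The symbol of the bilinear operator `(v, w) ↦ -P (curl v × w)`, with the interaction of the helical
components with the signs `s₁`, `s₂`, `s₃` at the frequencies `p`, `q`, `p + q` multiplied by
`w s₁ s₂ s₃ |p| |q| |p + q|`. -/
noncomputable def hw (w : Bool → Bool → Bool → ℝ → ℝ → ℝ → ℝ) (p q : E) (a b : W) : W :=
  -∑ s₁ : Bool, ∑ s₂ : Bool, ∑ s₃ : Bool,
    ((w s₁ s₂ s₃ ‖p‖ ‖q‖ ‖p + q‖ * (sg s₁ * ‖p‖) : ℝ) : ℂ) •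
      hp s₃ (p + q) (crw (hp s₁ p a) (hp s₂ q b))

/-- Isotropic weights on the helical triads: functions of the lengths and of the helicity signs of the
three frequencies, symmetric with respect to the permutations of the three frequencies, invariant under
the reflections and the dilations. -/
structure Wts (w : Bool → Bool → Bool → ℝ → ℝ → ℝ → ℝ) : Prop where
  meas : ∀ s₁ s₂ s₃, Measurable fun z : ℝ × ℝ × ℝ => w s₁ s₂ s₃ z.1 z.2.1 z.2.2
  swap : ∀ s₁ s₂ s₃ a b c, w s₂ s₁ s₃ b a c = w s₁ s₂ s₃ a b c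
  swap' : ∀ s₁ s₂ s₃ a b c, w s₁ s₃ s₂ a c b = w s₁ s₂ s₃ a b c
  flip : ∀ s₁ s₂ s₃ a b c, w (!s₁) (!s₂) (!s₃) a b c = w s₁ s₂ s₃ a b c
  hom : ∀ r : ℝ, 0 < r → ∀ s₁ s₂ s₃ a b c, w s₁ s₂ s₃ (r * a) (r * b) (r * c) = w s₁ s₂ s₃ a b c

/-- Weights which are small for the triads with a small frequency. -/
def Dec (C : ℝ) (w : Bool → Bool → Bool → ℝ → ℝ → ℝ → ℝ) : Prop :=
  0 ≤ C ∧ ∀ s₁ s₂ s₃ a b c, 0 ≤ a → 0 ≤ b → 0 ≤ c → a ≤ b + c → b ≤ a + c → c ≤ a + b →
    |w s₁ s₂ s₃ a b c| * a ≤ C * min b c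

/-- The real part. -/
noncomputable def reE (c : W) : E := WithLp.toLp 2 fun j => (c j).re

/-- The imaginary part. -/
noncomputable def imE (c : W) : E := WithLp.toLp 2 fun j => (c j).im

/-- The complex linear extension of a linear isometry `Q` of `ℝ³`. -/
noncomputable def cQ (Q : E ≃ₗᵢ[ℝ] E) (c : W) : W := toW (Q (reE c)) + Complex.I • toW (Q (imE c))

/-- The Fourier transform of the field `x ↦ Q v (Q⁻¹ x)`. -/
noncomputable def act (Q : E ≃ₗᵢ[ℝ] E) (g : E → W) (k : E) : W := cQ Q (g (Q.symm k))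

end H14NS
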