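import Pool.Agent.H14.NS.Int2

/-!
The interaction of the profile with itself.
-/

set_option autoImplicit false

open Set Filter Topology MeasureTheory
open scoped ComplexConjugate ContDiff

namespace H14NS

open H706N

theorem cont_norm_pow (n : ℕ) : Continuous fun k : E => ‖k‖ ^ n := by fun_prop

theorem cont_GG : Continuous GG := by
  unfold GG
  fun_prop

theorem cont_ek : Continuous ek := by
  unfold ek
  fun_prop

theorem cont_prV : Continuous prV := by
  unfold prV
  exact (continuous_const.mul (Complex.continuous_ofReal.comp cont_ek)).smul (cont_toW.comp cont_GG)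

theorem ek_nonneg (k : E) : 0 ≤ ek k := by
  unfold ek; positivity

theorem norm_GG_le (k : E) : ‖GG k‖ ≤ 2 * ‖k‖ ^ 3 := by
  have h2 : |k 2| ≤ ‖k‖ := by
    have := PiLp.norm_apply_le k 2
    simpa using this
  have hev : ‖ev 2‖ = 1 := by
    unfold ev
    simp
  unfold GG
  rw [norm_smul, Real.norm_eq_abs]
  have h3 : ‖‖k‖ ^ 2 • ev 2 - k 2 • k‖ ≤ ‖k‖ ^ 2 + ‖k‖ ^ 2 := by
    refine (norm_sub_le _ _).trans ?_
    rw [norm_smul, norm_smul, hev, Real.norm_eq_abs, Real.norm_eq_abs, mul_one,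
      abs_of_nonneg (by positivity : (0:ℝ) ≤ ‖k‖ ^ 2)]
    have : |k 2| * ‖k‖ ≤ ‖k‖ * ‖k‖ := by gcongr
    nlinarith
  calc |k 2| * ‖‖k‖ ^ 2 • ev 2 - k 2 • k‖ ≤ ‖k‖ * (‖k‖ ^ 2 + ‖k‖ ^ 2) := by gcongr
    _ = 2 * ‖k‖ ^ 3 := by ring

theorem norm_prV_le (k : E) : ‖prV k‖ ≤ 2 * (‖k‖ ^ 7 * Real.exp (-‖k‖)) := by
  unfold prV
  rw [norm_smul, JTC.norm_toW, norm_mul, Complex.norm_I, one_mul, Complex.norm_real,
    Real.norm_eq_abs, abs_of_nonneg (ek_nonneg k)]
  calc ek k * ‖GG k‖ ≤ ek k * (2 * ‖k‖ ^ 3) := by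
        have := ek_nonneg k
        gcongr
        exact norm_GG_le k
    _ = 2 * (‖k‖ ^ 7 * Real.exp (-‖k‖)) := by unfold ek; ring

theorem GG_neg (k : E) : GG (-k) = -GG k := by
  apply extE
  · rw [PiLp.neg_apply, GG0, GG0, PiLp.neg_apply, PiLp.neg_apply]; ring
  · rw [PiLp.neg_apply, GG1, GG1, PiLp.neg_apply, PiLp.neg_apply]; ring
  · rw [PiLp.neg_apply, GG2, GG2, PiLp.neg_apply, norm_neg]; ring

theorem ek_neg (k : E) : ek (-k) = ek k := by
  unfold ek; rw [norm_neg]

theorem adm_prV : Adm prV where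
  meas := cont_prV.measurable
  dec m := by
    refine ⟨2 * ((m + 7).factorial * Real.exp 1), fun k => ?_⟩
    have hx : 0 ≤ ‖k‖ := norm_nonneg k
    have h2 : (1 + ‖k‖) ^ (m + 7) * Real.exp (-‖k‖) ≤ (m + 7).factorial * Real.exp 1 := by
      have h3 := Real.pow_div_factorial_le_exp (1 + ‖k‖) (by positivity) (m + 7)
      have hf : (0 : ℝ) < (m + 7).factorial := by exact_mod_cast Nat.factorial_pos _
      rw [div_le_iff₀ hf] at h3
      calc (1 + ‖k‖) ^ (m + 7) * Real.exp (-‖k‖)
          ≤ (Real.exp (1 + ‖k‖) * (m + 7).factorial) * Real.exp (-‖k‖) :=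
            mul_le_mul_of_nonneg_right h3 (Real.exp_pos _).le
        _ = (m + 7).factorial * (Real.exp (1 + ‖k‖) * Real.exp (-‖k‖)) := by ring
        _ = _ := by rw [← Real.exp_add]; congr 2; ring
    have h4 : ‖k‖ ^ 7 ≤ (1 + ‖k‖) ^ 7 := pow_le_pow_left₀ hx (by linarith) _
    calc (1 + ‖k‖) ^ m * ‖prV k‖ ≤ (1 + ‖k‖) ^ m * (2 * (‖k‖ ^ 7 * Real.exp (-‖k‖))) := by
          gcongr
          exact norm_prV_le k
      _ ≤ (1 + ‖k‖) ^ m * (2 * ((1 + ‖k‖) ^ 7 * Real.exp (-‖k‖))) := by gcongr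
      _ = 2 * ((1 + ‖k‖) ^ (m + 7) * Real.exp (-‖k‖)) := by
          rw [pow_add (1 + ‖k‖) m 7]; ring
      _ ≤ _ := by gcongr
  herm k j := by
    unfold prV
    rw [ek_neg, GG_neg, PiLp.smul_apply, PiLp.smul_apply, smul_eq_mul, smul_eq_mul, map_mul, map_mul,
      Complex.conj_ofReal, Complex.conj_I]
    have e1 : toW (-GG k) j = -(toW (GG k) j) := by
      unfold toW
      simp
    have e2 : conj (toW (GG k) j) = toW (GG k) j := by
      unfold toW
      simp
    rw [e1, e2]
    ring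
  divf k := by
    unfold prV
    rw [kd_smul, kd_toW', inner_GG, Complex.ofReal_zero, mul_zero]

/-- The constant. -/
noncomputable def cN (ε : ℝ) : ℝ := 1290240 / 11 * Real.pi * ε

theorem tgt_meas (K g : ℝ) (a b c : ℝ) : Measurable fun z : ℝ × ℝ => tgt (a * z.1) (b * z.2) (c * K) g := by
  unfold tgt ar Q4
  fun_prop

theorem FF_meas (ε K g : ℝ) : Measurable (Function.uncurry (FF ε K g)) := by
  unfold Function.uncurry FF
  have m0 : Measurable fun z : ℝ × ℝ => v0 z.1 z.2 K := by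
    have h : Measurable fun z : ℝ × ℝ => (z.1, z.2, K) := by fun_prop
    have h2 := v0_meas.comp h
    exact h2
  have m1 : Measurable fun z : ℝ × ℝ => v1 z.1 z.2 K := by
    have h : Measurable fun z : ℝ × ℝ => (z.1, z.2, K) := by fun_prop
    have h2 := v1_meas.comp h
    exact h2
  have m2 : Measurable fun z : ℝ × ℝ => v1 z.2 z.1 K := by
    have h : Measurable fun z : ℝ × ℝ => (z.2, z.1, K) := by fun_prop
    have h2 := v1_meas.comp h
    exact h2
  have m3 : Measurable fun z : ℝ × ℝ => v1 K z.1 z.2 := by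
    have h : Measurable fun z : ℝ × ℝ => (K, z.1, z.2) := by fun_prop
    have h2 := v1_meas.comp h
    exact h2
  have t0 := tgt_meas K g 1 1 1
  have t1 := tgt_meas K g (-1) 1 1
  have t2 := tgt_meas K g 1 (-1) 1
  have t3 := tgt_meas K g 1 1 (-1)
  simp only [one_mul, neg_one_mul] at t0 t1 t2 t3
  have e1 : Measurable fun z : ℝ × ℝ => z.1 ^ 4 * Real.exp (-z.1) * (z.2 ^ 4 * Real.exp (-z.2)) / 4 := by
    fun_prop
  exact e1.mul (((((m0.const_mul ε).mul t0).add ((m1.const_mul ε).mul t1)).add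
    ((m2.const_mul ε).mul t2)).add ((m3.const_mul ε).mul t3))

variable {ε : ℝ} (hd : Dec 1 (wt ε))

include hd in
theorem op_comp2 {k : E} (hk : k ≠ 0) : (op (hw (wt ε)) prV prV k) 2
    = Complex.I * ((cN ε * (‖k‖ ^ 2 + 153 * ‖k‖ - 1377) * (ek k * GG k 2) : ℝ) : ℂ) := by
  have hS := hw_sym (wt_wts ε)
  have hB := hw_bdd hd
  have hK : 0 < ‖k‖ := norm_pos_iff.2 hk
  have hi := op_int hS hB adm_prV adm_prV k
  set g : ℝ := k 2 / ‖k‖ ^ 2 with hgdef
  have hg : g * ‖k‖ ^ 2 = k 2 := by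
    rw [hgdef]
    field_simp
  have hc : ∀ q, (hw (wt ε) (k - q) q (prV (k - q)) (prV q)) 2
      = Complex.I * ((Phi ε ‖k‖ g ‖k - q‖ ‖q‖ (q 2) : ℝ) : ℂ) := by
    intro q
    have hg' : g * ‖k - q + q‖ ^ 2 = (k - q) 2 + q 2 := by
      rw [sub_add_cancel, hg, PiLp.sub_apply]
      ring
    have := hw_Phi ε hg' (by rwa [sub_add_cancel])
    rw [sub_add_cancel] at this
    exact this
  have hi2 : Integrable fun q => (hw (wt ε) (k - q) q (prV (k - q)) (prV q)) 2 :=
    (EuclideanSpace.proj (2 : Fin 3) : W →L[ℂ] ℂ).integrable_comp hi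
  have hi3 : Integrable fun q => Complex.I * ((Phi ε ‖k‖ g ‖k - q‖ ‖q‖ (q 2) : ℝ) : ℂ) :=
    hi2.congr (Eventually.of_forall hc)
  have hi4 : Integrable fun q : E => Phi ε ‖k‖ g ‖k - q‖ ‖q‖ (q 2) := by
    have := hi3.im
    refine this.congr (Eventually.of_forall fun q => ?_)
    simp
  unfold op
  rw [JH1.TD.int_apply hi 2]
  simp only [hc]
  rw [integral_const_mul, integral_complex_ofReal, int_Phi hk hg hi4]
  congr 2
  have hbp := bipolar_real (k := ‖k‖ • ev 2) (F := FF ε ‖k‖ g) (β := fun _ => 1)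
    (by
      have : ‖‖k‖ • ev 2‖ = ‖k‖ := by
        rw [norm_smul, norm_norm]
        unfold ev
        simp
      rw [← norm_ne_zero_iff, this]
      exact hK.ne') (FF_meas ε ‖k‖ g) measurable_const (fun _ => zero_le_one) (fun _ _ => le_rfl)
  have hn : ‖‖k‖ • ev 2‖ = ‖k‖ := by
    rw [norm_smul, norm_norm]
    unfold ev
    simp
  rw [hn] at hbp
  have hbp' := hbp (FF_int hK)
  simp only [mul_one] at hbp'
  rw [hbp', FF_val hK]
  have h2pi : ∫ _φ in Ioo (-Real.pi) Real.pi, (1 : ℝ) = 2 * Real.pi := by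
    simp [Real.volume_real_Ioo_of_le (by linarith [Real.pi_pos] : -Real.pi ≤ Real.pi)]
    ring
  rw [h2pi, GG2, ← hg]
  unfold cN ek
  ring

/-! ### The reflections -/

/-- The reflection in the plane orthogonal to `n`. -/
noncomputable def rf (n : E) : E ≃ₗᵢ[ℝ] E := Submodule.reflection (ℝ ∙ n)ᗮ

theorem rf_apply (n x : E) : rf n x = x - (2 * (inner ℝ n x / ‖n‖ ^ 2)) • n := by
  unfold rf
  rw [Submodule.reflection_orthogonal_apply, Submodule.reflection_singleton_apply]
  simp only [RCLike.ofReal_real_eq_id, id_eq]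
  rw [neg_sub, two_smul, ← add_smul, two_mul]

theorem rf_rf (n x : E) : rf n (rf n x) = x := by
  unfold rf
  exact Submodule.reflection_reflection _ x

theorem rf_symm (n x : E) : (rf n).symm x = rf n x := by
  rw [LinearIsometryEquiv.symm_apply_eq, rf_rf]

theorem rf_fix {n x : E} (h : inner ℝ n x = 0) : rf n x = x := by
  rw [rf_apply, h]
  simp

theorem rf_self {n : E} (hn : n ≠ 0) : rf n n = -n := by
  rw [rf_apply, real_inner_self_eq_norm_sq]
  have : ‖n‖ ^ 2 ≠ 0 := pow_ne_zero 2 (norm_ne_zero_iff.2 hn)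
  rw [div_self this, mul_one, two_smul]
  abel

theorem rf_comp2 {n : E} (h2 : n 2 = 0) (x : E) : rf n x 2 = x 2 := by
  rw [rf_apply, PiLp.sub_apply, PiLp.smul_apply, h2]
  simp

theorem act_prV {n : E} (h2 : n 2 = 0) : act (rf n) prV = prV := by
  funext k
  unfold act
  rw [rf_symm]
  have hev : rf n (ev 2) = ev 2 := by
    apply rf_fix
    rw [inner3, ev2_0, ev2_1, ev2_2, h2]
    ring
  have hG : GG (rf n k) = rf n (GG k) := by
    unfold GG
    rw [rf_comp2 h2, LinearIsometryEquiv.norm_map, map_smul, map_sub, map_smul, map_smul, hev]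
  have he : ek (rf n k) = ek k := by
    unfold ek
    rw [LinearIsometryEquiv.norm_map]
  unfold prV
  rw [cQ_smul, cQ_toW, hG, rf_rf, he]

theorem kd_of_fix {n : E} (hn : n ≠ 0) {B : W} (h3 : B = cQ (rf n) B) : kd n B = 0 := by
  have h4 : kd n B = kd (-n) B := by
    calc kd n B = kd (rf n (rf n n)) (cQ (rf n) B) := by rw [rf_rf, ← h3]
      _ = kd (rf n n) B := kd_cQ _ _ _
      _ = kd (-n) B := by rw [rf_self hn]
  rw [kd_neg] at h4
  have h5 : (2 : ℂ) * kd n B = 0 := by linear_combination h4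
  exact (mul_eq_zero.1 h5).resolve_left two_ne_zero

theorem kd_op {n : E} (hn : n ≠ 0) (h2 : n 2 = 0) {k : E} (hk : inner ℝ n k = 0) :
    kd n (op (hw (wt ε)) prV prV k) = 0 := by
  have h1 := op_act (rf n) (wt_wts ε) prV prV
  rw [act_prV h2] at h1
  have h3 : op (hw (wt ε)) prV prV k = act (rf n) (op (hw (wt ε)) prV prV) k := congrFun h1 k
  have h4 : act (rf n) (op (hw (wt ε)) prV prV) k = cQ (rf n) (op (hw (wt ε)) prV prV k) := by
    unfold act
    rw [rf_symm, rf_fix hk]
  exact kd_of_fix hn (h3.trans h4)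

theorem kd_prV {n : E} (h2 : n 2 = 0) {k : E} (hk : inner ℝ n k = 0) : kd n (prV k) = 0 := by
  unfold prV
  rw [kd_smul, kd_toW']
  have : inner ℝ n (GG k) = 0 := by
    rw [inner3] at hk ⊢
    rw [GG0, GG1, h2]
    rw [h2] at hk
    linear_combination (-(k 2 ^ 2)) * hk
  rw [this, Complex.ofReal_zero, mul_zero]

include hd in
/-- The interaction of the profile with itself. -/
theorem op_prV (k : E) : op (hw (wt ε)) prV prV k
    = (cN ε * (‖k‖ ^ 2 + 153 * ‖k‖ - 1377)) • prV k := by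
  have hS := hw_sym (wt_wts ε)
  have hB := hw_bdd hd
  have hsm : ∀ (r : ℝ) (v : W), r • v = (r : ℂ) • v := fun r v => by
    ext j
    simp
  by_cases hk : k = 0
  · subst hk
    have e0 : prV 0 = 0 := by
      unfold prV ek
      simp
    have e1 : ∀ q : E, hw (wt ε) (0 - q) q (prV (0 - q)) (prV q) = 0 := by
      intro q
      have h := hB.2 (0 - q) q (prV (0 - q)) (prV q) (adm_prV.divf _)
      rw [sub_add_cancel, norm_zero, min_eq_right (norm_nonneg q), mul_zero, zero_mul] at h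
      exact norm_le_zero_iff.1 h
    unfold op
    simp only [e1]
    rw [e0, smul_zero, integral_zero]
  · have h2 : (op (hw (wt ε)) prV prV k) 2
        = ((cN ε * (‖k‖ ^ 2 + 153 * ‖k‖ - 1377)) • prV k) 2 := by
      rw [op_comp2 hd hk, hsm]
      unfold prV
      rw [PiLp.smul_apply, PiLp.smul_apply, smul_eq_mul, smul_eq_mul, toW_apply]
      push_cast
      ring
    set B := op (hw (wt ε)) prV prV k with hBdef
    set c := cN ε * (‖k‖ ^ 2 + 153 * ‖k‖ - 1377) with hc
    have hn : ∀ n : E, n ≠ 0 → n 2 = 0 → inner ℝ n k = 0 → kd n (B - c • prV k) = 0 := by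
      intro n hn0 hn2 hnk
      rw [kd_sub, hsm, kd_smul, kd_prV hn2 hnk, mul_zero, sub_zero]
      exact kd_op hn0 hn2 hnk
    have hx2 : (B - c • prV k) 2 = 0 := by
      rw [PiLp.sub_apply, h2, sub_self]
    have hkx : kd k (B - c • prV k) = 0 := by
      rw [kd_sub, hsm, kd_smul, adm_prV.divf, mul_zero, sub_zero]
      have := (adm_op hS hB adm_prV adm_prV).divf k
      exact this
    have hx : B - c • prV k = 0 := by
      by_cases h0 : k 0 = 0 ∧ k 1 = 0
      · have n0 : kd (ev 0) (B - c • prV k) = 0 := by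
          apply hn
          · intro h
            have := congrArg (fun x : E => x 0) h
            simp [ev] at this
          · simp [ev]
          · rw [inner3, h0.1, h0.2]
            simp [ev]
        have n1 : kd (ev 1) (B - c • prV k) = 0 := by
          apply hn
          · intro h
            have := congrArg (fun x : E => x 1) h
            simp [ev] at this
          · simp [ev]
          · rw [inner3, h0.1, h0.2]
            simp [ev]
        rw [kd3] at n0 n1
        simp only [ev] at n0 n1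
        apply extW
        · simpa using n0
        · simpa using n1
        · exact hx2
      · have hsq : k 0 ^ 2 + k 1 ^ 2 ≠ 0 := by
          intro h
          apply h0
          constructor <;> nlinarith [sq_nonneg (k 0), sq_nonneg (k 1)]
        set n : E := !₂[-k 1, k 0, 0] with hndef
        have en0 : n 0 = -k 1 := rfl
        have en1 : n 1 = k 0 := rfl
        have en2 : n 2 = 0 := rfl
        have h1 := hn n (by
          intro h
          apply h0
          have a0 := congrArg (fun x : E => x 0) h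
          have a1 := congrArg (fun x : E => x 1) h
          simp only [en0, en1, PiLp.zero_apply] at a0 a1
          exact ⟨a1, by linarith⟩) en2 (by rw [inner3, en0, en1, en2]; ring)
        rw [kd3, en0, en1, en2, hx2] at h1
        rw [kd3, hx2] at hkx
        have hsqC : ((k 0 : ℝ) : ℂ) ^ 2 + ((k 1 : ℝ) : ℂ) ^ 2 ≠ 0 := by
          have e : ((k 0 : ℝ) : ℂ) ^ 2 + ((k 1 : ℝ) : ℂ) ^ 2 = ((k 0 ^ 2 + k 1 ^ 2 : ℝ) : ℂ) := by
            push_cast
            ring
          rw [e]
          exact Complex.ofReal_ne_zero.2 hsq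
        set X := B - c • prV k with hX
        push_cast at h1
        apply extW
        · have : (((k 0 : ℝ) : ℂ) ^ 2 + ((k 1 : ℝ) : ℂ) ^ 2) * X 0 = 0 := by
            linear_combination (k 0 : ℂ) * hkx - (k 1 : ℂ) * h1
          exact (mul_eq_zero.1 this).resolve_left hsqC
        · have : (((k 0 : ℝ) : ℂ) ^ 2 + ((k 1 : ℝ) : ℂ) ^ 2) * X 1 = 0 := by
            linear_combination (k 1 : ℂ) * hkx + (k 0 : ℂ) * h1
          exact (mul_eq_zero.1 this).resolve_left hsqC
        · exact hx2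
    exact sub_eq_zero.1 hx

end H14NS
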