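import Pool.Agent.H14.NS.Wgt

/-!
The Navier-Stokes nonlinearity is the operator with the weights one.
-/

set_option autoImplicit false

open Set Filter Topology MeasureTheory
open scoped ComplexConjugate ContDiff

namespace H14NS

open H706N

theorem cu_zero_left (a : W) : cu 0 a = 0 := by
  apply extW <;> simp only [cu0, cu1, cu2, PiLp.zero_apply] <;> simp

theorem hp_diff (p : E) (a : W) :
    ((‖p‖ : ℝ) : ℂ) • hp true p a + (-((‖p‖ : ℝ) : ℂ)) • hp false p a = cu p a := by
  by_cases hp0 : p = 0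
  · subst hp0
    rw [cu_zero_left, norm_zero]
    simp
  · have hn : ((‖p‖ : ℝ) : ℂ) ≠ 0 := by exact_mod_cast norm_ne_zero_iff.2 hp0
    unfold hp
    simp only [sg, if_true, Bool.false_eq_true, if_false]
    push_cast
    have e1 : ((‖p‖ : ℝ) : ℂ) * (1 / ((‖p‖ : ℝ) : ℂ)) = 1 := by field_simp
    have e2 : ((‖p‖ : ℝ) : ℂ) * (-1 / ((‖p‖ : ℝ) : ℂ)) = -1 := by field_simp
    simp only [smul_add, smul_smul]
    have e3 : ((‖p‖ : ℝ) : ℂ) * (1 / 2 * (1 / ((‖p‖ : ℝ) : ℂ))) = 1 / 2 := by field_simp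
    have e4 : -((‖p‖ : ℝ) : ℂ) * (1 / 2 * (-1 / ((‖p‖ : ℝ) : ℂ))) = 1 / 2 := by field_simp
    rw [e3, e4]
    module

theorem hw_one (p q : E) (a b : W) :
    hw (fun _ _ _ _ _ _ => 1) p q a b = -lp (p + q) (crw (cu p a) (lp q b)) := by
  unfold hw
  congr 1
  rw [← hp_diff, ← hp_sum q b, ← hp_sum (p + q)]
  simp only [crw_add₁, crw_add₂, crw_smul₁, hp_add, hp_smul, Fintype.sum_bool,
    sg, if_true, Bool.false_eq_true, if_false, one_mul, neg_mul]
  push_cast
  module

theorem crw_cu (p : E) (a b : W) :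
    crw (cu p a) b = (Complex.I * kd p b) • a - (Complex.I * dt a b) • toW p := by
  apply extW
  · simp only [PiLp.sub_apply, PiLp.smul_apply, smul_eq_mul, crw0, cu1, cu2, kd3, dt3, toW_apply]
    ring
  · simp only [PiLp.sub_apply, PiLp.smul_apply, smul_eq_mul, crw1, cu0, cu2, kd3, dt3, toW_apply]
    ring
  · simp only [PiLp.sub_apply, PiLp.smul_apply, smul_eq_mul, crw2, cu0, cu1, kd3, dt3, toW_apply]
    ring

theorem lp_toW_self (k : E) : lp k (toW k) = 0 := by
  unfold H706N.lp
  rw [kd_toW_self]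
  by_cases hk : k = 0
  · subst hk
    simp [toW_zero]
  · have : ((‖k‖ ^ 2 : ℝ) : ℂ) ≠ 0 := by
      exact_mod_cast pow_ne_zero 2 (norm_ne_zero_iff.2 hk)
    rw [div_self this, one_smul, sub_self]

theorem cont_dt : Continuous fun z : W × W => dt z.1 z.2 := by
  simp only [dt3]
  fun_prop

theorem NSid_int₂ {g : E → W} (hg : Adm g) (k : E) :
    Integrable fun q : E => (Complex.I * dt (g (k - q)) (g q)) • toW (k - q) := by
  obtain ⟨A, hA0, hA⟩ := JH1.TD.adm_bound hg
  obtain ⟨D, hD⟩ := hg.dec 5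
  have hD0 : 0 ≤ D := le_trans (by positivity) (hD 0)
  refine int_dec (C := A * ((1 + ‖k‖) * D)) ?_ fun q => ?_
  · have h0 : Measurable fun q : E => k - q := by fun_prop
    have h1 : Measurable fun q : E => g (k - q) := hg.meas.comp h0
    have h2 := cont_dt.measurable.comp (h1.prodMk hg.meas)
    have h3 := cont_toW.measurable.comp h0
    have h4 := (h2.const_mul Complex.I).smul h3
    exact h4.aestronglyMeasurable
  · rw [norm_smul, norm_mul, Complex.norm_I, one_mul, JTC.norm_toW]
    have h1 := JHV1.norm_dt (g (k - q)) (g q)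
    have h2 := hA (k - q)
    have h3 := hD q
    have h4 : ‖k - q‖ ≤ (1 + ‖k‖) * (1 + ‖q‖) := by
      have := norm_sub_le k q
      nlinarith [norm_nonneg k, norm_nonneg q, mul_nonneg (norm_nonneg k) (norm_nonneg q)]
    have h5 := norm_nonneg (g q)
    have h6 := norm_nonneg (g (k - q))
    have h7 := norm_nonneg q
    calc (1 + ‖q‖) ^ 4 * (‖dt (g (k - q)) (g q)‖ * ‖k - q‖)
        ≤ (1 + ‖q‖) ^ 4 * ((‖g (k - q)‖ * ‖g q‖) * ((1 + ‖k‖) * (1 + ‖q‖))) := by gcongr
      _ = ‖g (k - q)‖ * ((1 + ‖k‖) * ((1 + ‖q‖) ^ 5 * ‖g q‖)) := by ring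
      _ ≤ A * ((1 + ‖k‖) * D) := by gcongr

/-- The Navier-Stokes nonlinearity has the weights one. -/
theorem op_hw_one {g : E → W} (hg : Adm g) : op (hw fun _ _ _ _ _ _ => 1) g g = -NL g g := by
  funext k
  have e1 : ∀ q, hw (fun _ _ _ _ _ _ => 1) (k - q) q (g (k - q)) (g q)
      = -JH7.lpL k ((Complex.I * kd (k - q) (g q)) • g (k - q)
        - (Complex.I * dt (g (k - q)) (g q)) • toW (k - q)) := by
    intro q
    rw [hw_one, sub_add_cancel, lp_of_kd (hg.divf q), crw_cu, JH7.lpL_apply]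
  have i1 := adv_int hg hg k
  have i1' : Integrable fun q : E => (Complex.I * kd (k - q) (g q)) • g (k - q) := by
    have := i1.comp_sub_left k
    simpa using this
  have i2 := NSid_int₂ hg k
  have s1 : ∫ q, (Complex.I * kd (k - q) (g q)) • g (k - q) = adv g g k := by
    have := integral_sub_left_eq_self (fun η : E => (Complex.I * kd η (g (k - η))) • g η) volume k
    simp only [sub_sub_cancel] at this
    exact this
  have s2 : JH7.lpL k (∫ q, (Complex.I * dt (g (k - q)) (g q)) • toW (k - q)) = 0 := by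
    have h1 := integral_sub_left_eq_self
      (fun q : E => (Complex.I * dt (g (k - q)) (g q)) • toW (k - q)) volume k
    simp only [sub_sub_cancel] at h1
    have i3 : Integrable fun q : E => (Complex.I * dt (g q) (g (k - q))) • toW q := by
      have := i2.comp_sub_left k
      simpa using this
    have h2 : (∫ q, (Complex.I * dt (g q) (g (k - q))) • toW q)
        + ∫ q, (Complex.I * dt (g (k - q)) (g q)) • toW (k - q)
        = ∫ q, (Complex.I * dt (g (k - q)) (g q)) • toW k := by
      rw [← integral_add i3 i2]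
      congr 1
      funext q
      rw [dt_comm (g q), ← smul_add, ← toW_add]
      congr 2
      abel
    rw [h1] at h2
    have h3 : JH7.lpL k ((2 : ℂ) • ∫ q, (Complex.I * dt (g (k - q)) (g q)) • toW (k - q)) = 0 := by
      rw [two_smul, h2, integral_smul_const, map_smul, JH7.lpL_apply, lp_toW_self, smul_zero]
    rw [map_smul] at h3
    exact (smul_eq_zero.1 h3).resolve_left two_ne_zero
  unfold op
  simp only [e1]
  have i4 : Integrable fun q : E => (Complex.I * kd (k - q) (g q)) • g (k - q)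
      - (Complex.I * dt (g (k - q)) (g q)) • toW (k - q) := i1'.sub i2
  rw [integral_neg, ContinuousLinearMap.integral_comp_comm (JH7.lpL k) i4, integral_sub i1' i2,
    map_sub, s1, s2, sub_zero]
  rfl

end H14NS
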