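import Pool.Agent.H14.NS.Reg
import Pool.Agent.H14.NS.NSid

/-!
The self-similar solution.
-/

set_option autoImplicit false

open Set Filter Topology MeasureTheory
open scoped ComplexConjugate ContDiff

namespace H14NS

open H706N

/-- Solutions on `[0, T)` of the equations `∂ₜv = νΔv + B(v, v)`, in terms of Fourier transforms. -/
structure SolB (ν : ℝ) (B : (E → W) → (E → W) → E → W) (T : ℝ) (u : ℝ → E → W) : Prop where
  adm : ∀ t ∈ Ico 0 T, Adm (u t)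
  bdd : ∀ T₁ < T, ∀ n : ℕ, ∃ C : ℝ, ∀ t ∈ Icc 0 T₁, ∀ k, (1 + ‖k‖) ^ n * ‖u t k‖ ≤ C
  cont : ∀ k, ContinuousOn (fun t => u t k) (Ico 0 T)
  eqn : ∀ t ∈ Ioo 0 T, ∀ k, HasDerivAt (fun s => u s k)
    (B (u t) (u t) k - (ν * ‖k‖ ^ 2) • u t k) t

/-! ### The comparison with the perturbed Navier-Stokes equations -/

theorem one_wt : Wt fun _ _ => 1 where
  meas := measurable_const
  bd _ _ := by simp
  swap _ _ := rfl
  third _ _ := rfl
  neg _ _ := rfl

theorem op_nls_one {g : E → W} (hg : Adm g) : op (nls fun _ _ => 1) g g = NL g g := by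
  funext k
  have h1 : ∀ q : E, nls (fun _ _ => 1) (k - q) q (g (k - q)) (g q)
      = JH7.lpL k ((Complex.I * kd q (g (k - q))) • g q) := by
    intro q
    rw [JH7.lpL_apply]
    unfold nls
    rw [sub_add_cancel, Complex.ofReal_one, one_mul]
  unfold op NL adv
  rw [← JH7.lpL_apply, ← ContinuousLinearMap.integral_comp_comm _ (adv_int hg hg k)]
  exact integral_congr_ae (Eventually.of_forall h1)

section weights

variable {w : Bool → Bool → Bool → ℝ → ℝ → ℝ → ℝ} {C : ℝ}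

/-- The symbol of the perturbation. -/
noncomputable def MW (w : Bool → Bool → Bool → ℝ → ℝ → ℝ → ℝ) : E → E → W → W → W :=
  plus (nls fun _ _ => 1) (hw w) 1

theorem MW_sym (hw' : Wts w) : Sym (MW w) := sym_plus (nls_sym one_wt) (hw_sym hw') 1

theorem MW_bdd (hC : Dec C w) : Bdd (1 + 1 * (54 * C)) (MW w) :=
  bdd_plus (nls_bdd one_wt) (hw_bdd hC) zero_le_one

theorem MW_good (hw' : Wts w) (hC : Dec C w) : Good (op (MW w)) := good_op (MW_sym hw') (MW_bdd hC)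

theorem op_MW (hw' : Wts w) (hC : Dec C w) {g : E → W} (hg : Adm g) (k : E) :
    op (MW w) g g k = NL g g k + op (hw w) g g k := by
  unfold MW
  rw [op_plus (nls_sym one_wt) (hw_sym hw') (nls_bdd one_wt) (hw_bdd hC) 1 hg hg, Pi.add_apply,
    Pi.smul_apply, one_smul, op_nls_one hg]

theorem sol_iff (hw' : Wts w) (hC : Dec C w) {ν T : ℝ} {u : ℝ → E → W} :
    SolB ν (op (hw w)) T u ↔ Sol ν (op (MW w)) T u := by
  constructor
  · intro h
    refine ⟨h.adm, h.bdd, h.cont, fun t ht k => ?_⟩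
    refine (h.eqn t ht k).congr_deriv ?_
    rw [op_MW hw' hC (h.adm t ⟨ht.1.le, ht.2⟩)]
    abel
  · intro h
    refine ⟨h.adm, h.bdd, h.cont, fun t ht k => ?_⟩
    refine (h.eqn t ht k).congr_deriv ?_
    rw [op_MW hw' hC (h.adm t ⟨ht.1.le, ht.2⟩)]
    abel

/-- The classical equations. -/
theorem sol_cls' (hw' : Wts w) (hC : Dec C w) {ν T : ℝ} {u : ℝ → E → W}
    (hu : SolB ν (op (hw w)) T u) :
    ContinuousOn (fun z : ℝ × E => vel (u z.1) z.2) (Ico 0 T ×ˢ univ) ∧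
    (∀ t ∈ Ico 0 T, ContDiff ℝ ∞ (vel (u t)) ∧ ∀ x, ∑ j, pd j (fun y => vel (u t) y j) x = 0) ∧
    ∀ t ∈ Ioo 0 T, ∀ x i, HasDerivAt (fun s => vel (u s) x i)
      (ν * ∑ j, pd j (pd j fun y => vel (u t) y i) x + vel (op (hw w) (u t) (u t)) x i) t := by
  have hu' := (sol_iff hw' hC).1 hu
  refine ⟨JD4.vel_cont hu', fun t ht => ⟨vel_smooth (hu.adm t ht), vel_div (hu.adm t ht)⟩,
    fun t ht x i => ?_⟩
  have htI : t ∈ Ico 0 T := ⟨ht.1.le, ht.2⟩
  have hA := hu.adm t htI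
  have h := JD4.vel_deriv (MW_good hw' hC) hu' ht x i
  have e1 := vel_lap hA x i
  have hN : Adm (NL (u t) (u t)) := adm_NL hA hA
  have hB : Adm (op (hw w) (u t) (u t)) := adm_op (hw_sym hw') (hw_bdd hC) hA hA
  have e2 : vel (op (MW w) (u t) (u t)) x i
      = vel (NL (u t) (u t)) x i + vel (op (hw w) (u t) (u t)) x i := by
    have i1 := JD4.fl_int (by simpa using hN.icomp i 0 :
      Integrable (fun k => NL (u t) (u t) k i) volume) x
    have i2 := JD4.fl_int (by simpa using hB.icomp i 0 :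
      Integrable (fun k => op (hw w) (u t) (u t) k i) volume) x
    have e : ∀ g : E → W, vel g x i = (fl (fun k => g k i) x).re := fun _ => rfl
    rw [e, e, e]
    unfold fl
    rw [← Complex.add_re, ← integral_add i1 i2]
    congr 2
    funext k
    simp only [op_MW hw' hC hA, PiLp.add_apply]
    ring
  refine h.congr_deriv ?_
  rw [e2, e1]
  ring

theorem op_smul' {M : E → E → W → W → W} (hM : Sym M) (A : ℝ) (g h : E → W) (k : E) :
    op M (A • g) (A • h) k = A ^ 2 • op M g h k := by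
  unfold op
  rw [← integral_smul]
  congr 1
  funext q
  have h6 : ∀ (x : ℝ) (v : W), x • v = (x : ℂ) • v := fun x v => by
    ext j
    simp
  rw [Pi.smul_apply, Pi.smul_apply, h6 A, h6 A, JH5.so5_smul hM, h6 (A ^ 2)]
  congr 1
  push_cast
  ring

end weights

/-! ### The solution -/

/-- The Fourier transform of the self-similar solution. -/
noncomputable def uS (A T t : ℝ) : E → W := dil (lamT T t) (A • prV)

theorem uS_zero (A T : ℝ) : uS A T 0 = A • prV := by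
  funext k
  unfold uS dil
  rw [lamT_zero]
  simp

theorem uS_apply (A T t : ℝ) (k : E) :
    uS A T t k = (A * (lamT T t ^ 2)⁻¹) • prV ((lamT T t)⁻¹ • k) := by
  unfold uS dil
  rw [Pi.smul_apply, smul_smul, mul_comm]

theorem adm_smul' {g : E → W} (hg : Adm g) (A : ℝ) : Adm (A • g) := by
  have h := adm_scaled hg one_pos A
  simp only [inv_one, one_smul] at h
  exact h

theorem uS_adm {A T t : ℝ} (hT : 0 < T) (ht : t < T) : Adm (uS A T t) :=
  adm_scaled (adm_smul' adm_prV A) (lamT_pos hT ht) _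

theorem uS_eqn {ε : ℝ} (hd : Dec 1 (wt ε)) {A ν T t : ℝ} (hA : A * cN ε = ν) (hT : 0 < T)
    (hνT : (153 * ν) * (2 * T) = 1) (ht : t < T) (k : E) :
    HasDerivAt (fun s => uS A T s k)
      (op (hw (wt ε)) (uS A T t) (uS A T t) k - (ν * ‖k‖ ^ 2) • uS A T t k) t := by
  have hl := lamT_pos hT ht
  have hd' := lamT_deriv hT ht hνT
  set l := lamT T t with hldef
  have hc : HasDerivAt (fun s => A * (lamT T s ^ 2)⁻¹) (-2 * A * (153 * ν)) t := by
    have h1 := ((hd'.pow 2).inv (pow_pos hl 2).ne').const_mul A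
    refine h1.congr_deriv ?_
    simp only [Pi.pow_apply, ← hldef]
    have := hl.ne'
    push_cast
    field_simp
  have h2 := prV_deriv hc hd' hl k
  simp only [← uS_apply, ← hldef] at h2
  refine h2.congr_deriv ?_
  have hB : op (hw (wt ε)) (uS A T t) (uS A T t) k
      = (A ^ 2 * (cN ε * (‖l⁻¹ • k‖ ^ 2 + 153 * ‖l⁻¹ • k‖ - 1377))) • prV (l⁻¹ • k) := by
    unfold uS
    rw [op_dil (hw_sym (wt_wts ε)) (hw_inv (wt_wts ε)) _ _ hl, op_smul' (hw_sym (wt_wts ε)),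
      op_prV hd, smul_smul]
  rw [hB, uS_apply, ← hldef, smul_smul, ← sub_smul]
  congr 1
  have hk : ‖k‖ = l * ‖l⁻¹ • k‖ := by
    rw [norm_smul, norm_inv, Real.norm_eq_abs, abs_of_pos hl]
    field_simp
  set K := ‖l⁻¹ • k‖ with hK
  rw [hk]
  have hl' := hl.ne'
  have e1 : (-2 * A * (153 * ν) + A * (l ^ 2)⁻¹ * (153 * ν * l ^ 3) * l⁻¹ * (K - 7))
      = A * (153 * ν) * (K - 9) := by
    field_simp
    ring
  have e2 : ν * (l * K) ^ 2 * (A * (l ^ 2)⁻¹) = ν * K ^ 2 * A := by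
    field_simp
  rw [e1, e2]
  linear_combination (-(A * (K ^ 2 + 153 * K - 1377))) * hA

theorem uS_sol {ε : ℝ} (hd : Dec 1 (wt ε)) {A ν T : ℝ} (hA : A * cN ε = ν) (hT : 0 < T)
    (hνT : (153 * ν) * (2 * T) = 1) : SolB ν (op (hw (wt ε))) T (uS A T) := by
  refine ⟨fun t ht => uS_adm hT ht.2, fun T₁ hT₁ m => ?_, fun k => ?_, fun t ht k => ?_⟩
  · rcases lt_or_ge T₁ 0 with hneg | hpos
    · exact ⟨0, fun t ht => absurd (ht.1.trans ht.2) (not_le.2 hneg)⟩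
    have hmono : ∀ t ∈ Icc 0 T₁, 1 ≤ lamT T t ∧ lamT T t ≤ lamT T T₁ := by
      intro t ht
      have h0 := one_sub_pos hT hT₁
      have h1 := one_sub_pos hT (ht.2.trans_lt hT₁)
      have h2 : 1 - t / T ≤ 1 := by
        have : 0 ≤ t / T := div_nonneg ht.1 hT.le
        linarith
      have h3 : 1 - T₁ / T ≤ 1 - t / T := by
        have : t / T ≤ T₁ / T := div_le_div_of_nonneg_right ht.2 hT.le
        linarith
      unfold lamT
      constructor
      · rw [one_le_inv₀ (Real.sqrt_pos.2 h1)]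
        have := Real.sqrt_le_sqrt h2
        rwa [Real.sqrt_one] at this
      · exact inv_anti₀ (Real.sqrt_pos.2 h0) (Real.sqrt_le_sqrt h3)
    obtain ⟨C, hC⟩ := dil_unif (adm_smul' adm_prV A) m one_pos
      ((hmono 0 ⟨le_rfl, hpos⟩).1.trans (hmono 0 ⟨le_rfl, hpos⟩).2)
    refine ⟨C, fun t ht k => ?_⟩
    have h1 := hC _ ⟨(hmono t ht).1, (hmono t ht).2⟩ k
    have h2 : 0 < lamT T t := one_pos.trans_le (hmono t ht).1
    have h4 : (lamT T t ^ 2)⁻¹ ≤ 1 := by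
      rw [inv_le_one₀ (by positivity)]
      exact one_le_pow₀ (hmono t ht).1
    unfold uS dil
    rw [norm_smul, norm_inv, norm_pow, Real.norm_eq_abs, abs_of_pos h2]
    calc (1 + ‖k‖) ^ m * ((lamT T t ^ 2)⁻¹ * ‖(A • prV) ((lamT T t)⁻¹ • k)‖)
        = (lamT T t ^ 2)⁻¹ * ((1 + ‖k‖) ^ m * ‖(A • prV) ((lamT T t)⁻¹ • k)‖) := by ring
      _ ≤ 1 * C := mul_le_mul h4 h1 (by positivity) zero_le_one
      _ = C := one_mul C
  · intro t ht
    exact (uS_eqn hd hA hT hνT ht.2 k).continuousAt.continuousWithinAt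
  · exact uS_eqn hd hA hT hνT ht.2 k

theorem uS_vel {A T t : ℝ} (hT : 0 < T) (ht : t < T) (x : E) :
    vel (uS A T t) x
      = (Real.sqrt (1 - t / T))⁻¹ • vel (uS A T 0) ((Real.sqrt (1 - t / T))⁻¹ • x) := by
  rw [uS_zero]
  unfold uS
  rw [vel_dil _ (lamT_pos hT ht)]
  rfl

/-- The self-similar blow-up. -/
theorem exist_S {ε : ℝ} (hε : 0 < ε) (hd : Dec 1 (wt ε)) {ν : ℝ} (hν : 0 < ν) :
    ∃ (A : ℝ) (u : ℝ → E → W), 0 < A ∧ SolB ν (op (hw (wt ε))) (1 / (306 * ν)) u ∧ u 0 = A • prV ∧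
      (∃ x, vel (u 0) x ≠ 0) ∧
      (∀ r : ℕ, ∃ C, ∀ x, (1 + ‖x‖) ^ 6 * ‖iteratedFDeriv ℝ r (vel (u 0)) x‖ ≤ C) ∧
      (Integrable fun x => ‖vel (u 0) x‖ ^ 2) ∧ (Integrable fun x => ‖vel (u 0) x‖ ^ 3) ∧
      (∀ t ∈ Ico 0 (1 / (306 * ν)), (∀ x, vel (u t) x = (Real.sqrt (1 - t / (1 / (306 * ν))))⁻¹ •
        vel (u 0) ((Real.sqrt (1 - t / (1 / (306 * ν))))⁻¹ • x)) ∧
        ∫ x, ‖vel (u t) x‖ ^ 3 = ∫ x, ‖vel (u 0) x‖ ^ 3) ∧
      ∀ T' w, SolB ν (op (hw (wt ε))) T' w → w 0 = u 0 →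
        T' ≤ 1 / (306 * ν) ∧ ∀ t ∈ Ico 0 T', vel (w t) = vel (u t) := by
  have hc : 0 < cN ε := by
    unfold cN
    have := Real.pi_pos
    positivity
  set T : ℝ := 1 / (306 * ν) with hT
  have hT0 : 0 < T := by positivity
  have hνT : (153 * ν) * (2 * T) = 1 := by rw [hT]; field_simp; norm_num
  set A : ℝ := ν / cN ε with hAdef
  have hA0 : 0 < A := by positivity
  have hA : A * cN ε = ν := by rw [hAdef]; field_simp
  have hsol : SolB ν (op (hw (wt ε))) T (uS A T) := uS_sol hd hA hT0 hνT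
  have hform : ∀ t ∈ Ico (0 : ℝ) T, ∀ x, vel (uS A T t) x
      = (Real.sqrt (1 - t / T))⁻¹ • vel (uS A T 0) ((Real.sqrt (1 - t / T))⁻¹ • x) :=
    fun t ht x => uS_vel hT0 ht.2 x
  have hne : ∃ x, vel (uS A T 0) x ≠ 0 := by
    obtain ⟨x, hx⟩ := vel_prV_ne
    refine ⟨x, ?_⟩
    rw [uS_zero, vel_smul']
    exact smul_ne_zero hA0.ne' hx
  have hdec : ∀ r : ℕ, ∃ C, ∀ x,
      (1 + ‖x‖) ^ 6 * ‖iteratedFDeriv ℝ r (vel (uS A T 0)) x‖ ≤ C := by
    intro r
    rw [uS_zero]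
    exact vel_prV_decay A r
  have hcont : Continuous (vel (uS A T 0)) :=
    (vel_smooth (hsol.adm 0 ⟨le_rfl, hT0⟩)).continuous
  obtain ⟨C₀, hC₀⟩ := hdec 0
  have hints := int_of_decay' (N := 2) hcont hC₀
  have hblow : ∀ M : ℝ, ∃ t ∈ Ico (0 : ℝ) T, ∃ x, M < ‖vel (uS A T t) x‖ := by
    refine blow_form (v := fun t => vel (uS A T t)) (a := 1 / 2) (b := 1 / 2)
      (by norm_num) hT0 (fun t ht x => ?_) hne
    have h1 := one_sub_pos hT0 ht.2
    have : (1 - t / T) ^ (-(1 / 2) : ℝ) = (Real.sqrt (1 - t / T))⁻¹ := by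
      rw [Real.rpow_neg h1.le, Real.sqrt_eq_rpow]
    rw [this]
    exact hform t ht x
  refine ⟨A, uS A T, hA0, hsol, uS_zero A T, hne, hdec, hints.1, hints.2, fun t ht =>
    ⟨hform t ht, ?_⟩, fun T' w hw h0 => blow_max (MW_good (wt_wts ε) hd) hν.le
      ((sol_iff (wt_wts ε) hd).1 hsol) hblow ((sol_iff (wt_wts ε) hd).1 hw) h0⟩
  have h2 : ∀ x, ‖vel (uS A T t) x‖ ^ 3
      = ‖(Real.sqrt (1 - t / T))⁻¹ •
        vel (uS A T 0) ((Real.sqrt (1 - t / T))⁻¹ • x)‖ ^ 3 := fun x => by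
    rw [hform t ht x]
  simp only [h2]
  exact scale_three _ (lamT_pos hT0 ht.2)

end H14NS
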