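import Pool.Agent.H14.NS.Def

/-!
The helical components and the weighted symbols.
-/

set_option autoImplicit false

open Set Filter Topology MeasureTheory
open scoped ComplexConjugate ContDiff

namespace H14NS

open H706N

theorem kd3 (k : E) (c : W) : kd k c = (k 0 : ℂ) * c 0 + (k 1 : ℂ) * c 1 + (k 2 : ℂ) * c 2 := by
  simp [kd, Fin.sum_univ_three]

theorem dt3 (a b : W) : dt a b = a 0 * b 0 + a 1 * b 1 + a 2 * b 2 := by
  simp [dt, Fin.sum_univ_three]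

theorem extW {u v : W} (h0 : u 0 = v 0) (h1 : u 1 = v 1) (h2 : u 2 = v 2) : u = v := by
  ext j
  fin_cases j
  · exact h0
  · exact h1
  · exact h2

theorem extE {u v : E} (h0 : u 0 = v 0) (h1 : u 1 = v 1) (h2 : u 2 = v 2) : u = v := by
  ext j
  fin_cases j
  · exact h0
  · exact h1
  · exact h2

theorem toW_apply (k : E) (i : Fin 3) : toW k i = (k i : ℂ) := rfl

theorem cu0 (k : E) (a : W) : cu k a 0 = Complex.I * ((k 1 : ℂ) * a 2 - (k 2 : ℂ) * a 1) := by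
  simp [cu, crw, toW]

theorem cu1 (k : E) (a : W) : cu k a 1 = Complex.I * ((k 2 : ℂ) * a 0 - (k 0 : ℂ) * a 2) := by
  simp [cu, crw, toW]

theorem cu2 (k : E) (a : W) : cu k a 2 = Complex.I * ((k 0 : ℂ) * a 1 - (k 1 : ℂ) * a 0) := by
  simp [cu, crw, toW]

theorem crw0 (a b : W) : crw a b 0 = a 1 * b 2 - a 2 * b 1 := rfl
theorem crw1 (a b : W) : crw a b 1 = a 2 * b 0 - a 0 * b 2 := rfl
theorem crw2 (a b : W) : crw a b 2 = a 0 * b 1 - a 1 * b 0 := rfl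

theorem nsq (k : E) : ‖k‖ ^ 2 = k 0 ^ 2 + k 1 ^ 2 + k 2 ^ 2 := by
  rw [EuclideanSpace.real_norm_sq_eq, Fin.sum_univ_three]

theorem nsqC (k : E) : ((‖k‖ : ℝ) : ℂ) ^ 2 = (k 0 : ℂ) ^ 2 + (k 1 : ℂ) ^ 2 + (k 2 : ℂ) ^ 2 := by
  have := nsq k
  exact_mod_cast congrArg (fun x : ℝ => (x : ℂ)) this

theorem sg_sq (s : Bool) : sg s * sg s = 1 := by
  cases s <;> simp [sg]

theorem sg_not' (s : Bool) : sg (!s) = -sg s := by
  cases s <;> simp [sg]

/-! ### Bilinearity -/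

theorem kd_add (k : E) (a b : W) : kd k (a + b) = kd k a + kd k b := by
  simp only [kd3, PiLp.add_apply]; ring

theorem kd_smul (k : E) (z : ℂ) (a : W) : kd k (z • a) = z * kd k a := by
  simp only [kd3, PiLp.smul_apply, smul_eq_mul]; ring

theorem kd_sub (k : E) (a b : W) : kd k (a - b) = kd k a - kd k b := by
  simp only [kd3, PiLp.sub_apply]; ring

theorem kd_toW_self (k : E) : kd k (toW k) = ((‖k‖ ^ 2 : ℝ) : ℂ) := by
  rw [kd3, nsq]
  simp only [toW_apply]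
  push_cast
  ring

theorem lp_add (k : E) (a b : W) : lp k (a + b) = lp k a + lp k b := by
  unfold H706N.lp
  rw [kd_add, add_div, add_smul]
  abel

theorem lp_smul (k : E) (z : ℂ) (a : W) : lp k (z • a) = z • lp k a := by
  unfold H706N.lp
  rw [kd_smul, smul_sub, smul_smul, mul_div_assoc]

theorem kd_lp (k : E) (c : W) : kd k (lp k c) = 0 := by
  unfold H706N.lp
  rw [kd_sub, kd_smul, kd_toW_self]
  by_cases hk : k = 0
  · subst hk
    simp [kd3]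
  · have : ((‖k‖ ^ 2 : ℝ) : ℂ) ≠ 0 := by
      exact_mod_cast pow_ne_zero 2 (norm_ne_zero_iff.2 hk)
    field_simp
    ring

theorem lp_of_kd {k : E} {c : W} (h : kd k c = 0) : lp k c = c := by
  unfold H706N.lp
  rw [h, zero_div, zero_smul, sub_zero]

theorem cu_add (k : E) (a b : W) : cu k (a + b) = cu k a + cu k b := by
  apply extW <;> simp only [PiLp.add_apply, cu0, cu1, cu2] <;> ring

theorem cu_smul (k : E) (z : ℂ) (a : W) : cu k (z • a) = z • cu k a := by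
  apply extW <;> simp only [PiLp.smul_apply, smul_eq_mul, cu0, cu1, cu2] <;> ring

theorem cu_toW (k : E) : cu k (toW k) = 0 := by
  apply extW <;> simp only [cu0, cu1, cu2, toW_apply, PiLp.zero_apply] <;> ring

theorem cu_lp (k : E) (a : W) : cu k (lp k a) = cu k a := by
  have h : lp k a = a + (-(kd k a / ((‖k‖ ^ 2 : ℝ) : ℂ))) • toW k := by
    unfold H706N.lp
    rw [neg_smul]
    abel
  rw [h, cu_add, cu_smul, cu_toW, smul_zero, add_zero]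

theorem cu_neg (k : E) (a : W) : cu (-k) a = -cu k a := by
  apply extW <;> simp only [PiLp.neg_apply, cu0, cu1, cu2, Complex.ofReal_neg] <;> ring

theorem lp_neg (k : E) (c : W) : lp (-k) c = lp k c := by
  unfold H706N.lp
  rw [kd_neg, norm_neg]
  have : toW (-k) = -toW k := by
    ext i; simp [toW_apply]
  rw [this, neg_div, neg_smul, smul_neg, neg_neg]

theorem cu_cu {k : E} {a : W} (h : kd k a = 0) : cu k (cu k a) = ((‖k‖ ^ 2 : ℝ) : ℂ) • a := by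
  rw [kd3] at h
  have hn : ((‖k‖ ^ 2 : ℝ) : ℂ) = (k 0 : ℂ) ^ 2 + (k 1 : ℂ) ^ 2 + (k 2 : ℂ) ^ 2 := by
    have := nsqC k
    push_cast
    exact this
  rw [hn]
  have hI := Complex.I_mul_I
  apply extW <;> simp only [PiLp.smul_apply, smul_eq_mul, cu0, cu1, cu2]
  · linear_combination ((k 1 : ℂ) * ((k 0 : ℂ) * a 1 - (k 1 : ℂ) * a 0) -
      (k 2 : ℂ) * ((k 2 : ℂ) * a 0 - (k 0 : ℂ) * a 2)) * hI - (k 0 : ℂ) * h
  · linear_combination ((k 2 : ℂ) * ((k 1 : ℂ) * a 2 - (k 2 : ℂ) * a 1) -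
      (k 0 : ℂ) * ((k 0 : ℂ) * a 1 - (k 1 : ℂ) * a 0)) * hI - (k 1 : ℂ) * h
  · linear_combination ((k 0 : ℂ) * ((k 2 : ℂ) * a 0 - (k 0 : ℂ) * a 2) -
      (k 1 : ℂ) * ((k 1 : ℂ) * a 2 - (k 2 : ℂ) * a 1)) * hI - (k 2 : ℂ) * h

theorem hp_add (s : Bool) (k : E) (a b : W) : hp s k (a + b) = hp s k a + hp s k b := by
  unfold hp
  rw [lp_add, cu_add]
  module

theorem hp_smul (s : Bool) (k : E) (z : ℂ) (a : W) : hp s k (z • a) = z • hp s k a := by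
  unfold hp
  rw [lp_smul, cu_smul, smul_comm _ z (cu k a), ← smul_add, smul_comm]

theorem hp_sum (k : E) (a : W) : hp true k a + hp false k a = lp k a := by
  unfold hp
  simp only [sg, if_true, Bool.false_eq_true, if_false]
  rw [← smul_add]
  push_cast
  module

theorem kd_hp (s : Bool) (k : E) (a : W) : kd k (hp s k a) = 0 := by
  unfold hp
  rw [kd_smul, kd_add, kd_smul, kd_lp, kd_cu, mul_zero, add_zero, mul_zero]

theorem hp_cj (s : Bool) (k : E) (a : W) : hp s (-k) (cj a) = cj (hp s k a) := by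
  unfold hp
  have hl : lp k (cj a) = cj (lp k a) := by
    unfold H706N.lp
    rw [kd_cj]
    have : cj (a - (kd k a / ((‖k‖ ^ 2 : ℝ) : ℂ)) • toW k)
        = cj a - conj (kd k a / ((‖k‖ ^ 2 : ℝ) : ℂ)) • toW k := by
      rw [sub_eq_add_neg, cj_add, ← neg_smul, cj_smul, cj_toW, map_neg, neg_smul, ← sub_eq_add_neg]
    rw [this, map_div₀, Complex.conj_ofReal]
  rw [lp_neg, norm_neg, cu_herm, hl, cj_smul, cj_add, cj_smul, Complex.conj_ofReal]
  congr 1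
  rw [map_div₀, map_one, Complex.conj_ofNat]

theorem dt_add_l (a b c : W) : dt (a + b) c = dt a c + dt b c := by
  simp only [dt3, PiLp.add_apply]; ring

theorem dt_smul_l (z : ℂ) (a b : W) : dt (z • a) b = z * dt a b := by
  simp only [dt3, PiLp.smul_apply, smul_eq_mul]; ring

theorem dt_lp (k : E) (a b : W) : dt (lp k a) b = dt a (lp k b) := by
  unfold H706N.lp
  simp only [dt3, kd3, PiLp.sub_apply, PiLp.smul_apply, smul_eq_mul, toW_apply]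
  ring

theorem dt_hp (s : Bool) (k : E) (a b : W) : dt (hp s k a) b = dt a (hp s (-k) b) := by
  unfold hp
  rw [dt_smul_l, dt_smul, dt_add_l, dt_add, dt_smul_l, dt_smul, dt_lp, dt_cu, lp_neg, norm_neg, cu_neg]
  have : dt a (-cu k b) = -dt a (cu k b) := by
    simp only [dt3, PiLp.neg_apply]; ring
  rw [this]

theorem hp_cu {k : E} {c : W} (h : kd k c = 0) (s : Bool) :
    hp s k (cu k c) = ((sg s * ‖k‖ : ℝ) : ℂ) • hp s k c := by
  by_cases hk : k = 0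
  · subst hk
    rw [norm_zero, mul_zero, Complex.ofReal_zero, zero_smul]
    have : cu 0 c = 0 := by
      apply extW <;> simp only [cu0, cu1, cu2, PiLp.zero_apply] <;> simp
    rw [this]
    have h2 := hp_smul s 0 0 0
    rw [zero_smul, zero_smul] at h2
    exact h2
  · have hn : ((‖k‖ : ℝ) : ℂ) ≠ 0 := by exact_mod_cast norm_ne_zero_iff.2 hk
    have hs : ((sg s : ℝ) : ℂ) * ((sg s : ℝ) : ℂ) = 1 := by
      exact_mod_cast congrArg (fun x : ℝ => (x : ℂ)) (sg_sq s)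
    unfold hp
    rw [lp_of_kd (kd_cu k c), lp_of_kd h, cu_cu h]
    have e1 : ((sg s / ‖k‖ : ℝ) : ℂ) * ((‖k‖ ^ 2 : ℝ) : ℂ) = ((sg s * ‖k‖ : ℝ) : ℂ) := by
      push_cast
      field_simp
    have e2 : ((sg s * ‖k‖ : ℝ) : ℂ) * ((sg s / ‖k‖ : ℝ) : ℂ) = 1 := by
      push_cast
      field_simp
      linear_combination hs
    rw [smul_smul, e1, smul_comm _ (1 / 2 : ℂ), smul_add ((sg s * ‖k‖ : ℝ) : ℂ), smul_smul, e2, one_smul,
      add_comm]

theorem norm_hp (s : Bool) (k : E) (a : W) : ‖hp s k a‖ ≤ 3 / 2 * ‖a‖ := by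
  unfold hp
  rw [norm_smul]
  have h1 : ‖lp k a‖ ≤ ‖a‖ := lp_norm k a
  have h2 : ‖((sg s / ‖k‖ : ℝ) : ℂ) • cu k a‖ ≤ 2 * ‖a‖ := by
    rw [norm_smul, Complex.norm_real, norm_div, norm_norm]
    have hs : ‖sg s‖ = 1 := by cases s <;> simp [sg]
    rw [hs]
    by_cases hk : ‖k‖ = 0
    · rw [hk]
      simp
    · have hk' : 0 < ‖k‖ := lt_of_le_of_ne (norm_nonneg _) (Ne.symm hk)
      have := norm_cu k a
      rw [div_mul_eq_mul_div, div_le_iff₀ hk', one_mul]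
      linarith
  have h3 : ‖(1 / 2 : ℂ)‖ = 1 / 2 := by norm_num
  rw [h3]
  have h4 := norm_add_le (lp k a) (((sg s / ‖k‖ : ℝ) : ℂ) • cu k a)
  linarith

theorem norm_crw (a b : W) : ‖crw a b‖ ≤ 2 * ‖a‖ * ‖b‖ := by
  have key : ∀ (u v z w : ℂ), ‖u * z - v * w‖ ^ 2 ≤
      2 * ‖u‖ ^ 2 * ‖z‖ ^ 2 + 2 * ‖v‖ ^ 2 * ‖w‖ ^ 2 := by
    intro u v z w
    have h1 : ‖u * z - v * w‖ ≤ ‖u‖ * ‖z‖ + ‖v‖ * ‖w‖ := by
      refine (norm_sub_le _ _).trans ?_
      rw [norm_mul, norm_mul]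
    have h2 : ‖u * z - v * w‖ ^ 2 ≤ (‖u‖ * ‖z‖ + ‖v‖ * ‖w‖) ^ 2 :=
      pow_le_pow_left₀ (norm_nonneg _) h1 2
    nlinarith [sq_nonneg (‖u‖ * ‖z‖ - ‖v‖ * ‖w‖)]
  have hsq : ‖crw a b‖ ^ 2 ≤ (2 * ‖a‖ * ‖b‖) ^ 2 := by
    rw [EuclideanSpace.norm_sq_eq, mul_pow, mul_pow, EuclideanSpace.norm_sq_eq a,
      EuclideanSpace.norm_sq_eq b, Fin.sum_univ_three, Fin.sum_univ_three, Fin.sum_univ_three,
      crw0, crw1, crw2]
    nlinarith [key (a 1) (a 2) (b 2) (b 1), key (a 2) (a 0) (b 0) (b 2), key (a 0) (a 1) (b 1) (b 0),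
      mul_nonneg (sq_nonneg ‖a 0‖) (sq_nonneg ‖b 0‖), mul_nonneg (sq_nonneg ‖a 0‖) (sq_nonneg ‖b 1‖),
      mul_nonneg (sq_nonneg ‖a 0‖) (sq_nonneg ‖b 2‖), mul_nonneg (sq_nonneg ‖a 1‖) (sq_nonneg ‖b 0‖),
      mul_nonneg (sq_nonneg ‖a 1‖) (sq_nonneg ‖b 1‖), mul_nonneg (sq_nonneg ‖a 1‖) (sq_nonneg ‖b 2‖),
      mul_nonneg (sq_nonneg ‖a 2‖) (sq_nonneg ‖b 0‖), mul_nonneg (sq_nonneg ‖a 2‖) (sq_nonneg ‖b 1‖),
      mul_nonneg (sq_nonneg ‖a 2‖) (sq_nonneg ‖b 2‖)]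
  exact le_of_sq_le_sq hsq (by positivity)

theorem crw_add₁ (a a' b : W) : crw (a + a') b = crw a b + crw a' b := by
  apply extW <;> simp only [PiLp.add_apply, crw0, crw1, crw2] <;> ring

theorem crw_add₂ (a b b' : W) : crw a (b + b') = crw a b + crw a b' := by
  apply extW <;> simp only [PiLp.add_apply, crw0, crw1, crw2] <;> ring

theorem crw_smul₁ (z : ℂ) (a b : W) : crw (z • a) b = z • crw a b := by
  apply extW <;> simp only [PiLp.smul_apply, smul_eq_mul, crw0, crw1, crw2] <;> ring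

theorem crw_smul₂ (z : ℂ) (a b : W) : crw a (z • b) = z • crw a b := by
  apply extW <;> simp only [PiLp.smul_apply, smul_eq_mul, crw0, crw1, crw2] <;> ring

theorem crw_cj (a b : W) : crw (cj a) (cj b) = cj (crw a b) := by
  have h : ∀ (a : W) (i : Fin 3), cj a i = conj (a i) := fun _ _ => rfl
  apply extW <;> simp only [h, crw0, crw1, crw2, map_sub, map_mul]

theorem dt_crw (a b c : W) : dt (crw a b) c =
    (a 1 * b 2 - a 2 * b 1) * c 0 + (a 2 * b 0 - a 0 * b 2) * c 1 + (a 0 * b 1 - a 1 * b 0) * c 2 := by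
  rw [dt3, crw0, crw1, crw2]

/-! ### The symbols -/

variable {w : Bool → Bool → Bool → ℝ → ℝ → ℝ → ℝ}

theorem hw_lin₁ (w : Bool → Bool → Bool → ℝ → ℝ → ℝ → ℝ) (p q : E) (c : ℂ) (a a' b : W) :
    hw w p q (a + c • a') b = hw w p q a b + c • hw w p q a' b := by
  unfold hw
  simp only [Fintype.sum_bool, hp_add, hp_smul, crw_add₁, crw_smul₁]
  module

theorem hw_lin₂ (w : Bool → Bool → Bool → ℝ → ℝ → ℝ → ℝ) (p q : E) (c : ℂ) (a b b' : W) :
    hw w p q a (b + c • b') = hw w p q a b + c • hw w p q a b' := by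
  unfold hw
  simp only [Fintype.sum_bool, hp_add, hp_smul, crw_add₂, crw_smul₂]
  module

theorem cj_sum (f : Bool → W) : cj (∑ s, f s) = ∑ s, cj (f s) := by
  simp only [Fintype.sum_bool, cj_add]

theorem cj_neg (a : W) : cj (-a) = -cj a := by
  have h := cj_smul (-1) a
  rw [neg_one_smul, map_neg, map_one, neg_one_smul] at h
  exact h

theorem hw_herm (w : Bool → Bool → Bool → ℝ → ℝ → ℝ → ℝ) (p q : E) (a b : W) :
    hw w (-p) (-q) (cj a) (cj b) = cj (hw w p q a b) := by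
  unfold hw
  rw [← neg_add]
  simp only [norm_neg, hp_cj, crw_cj]
  rw [cj_neg]
  simp only [Fintype.sum_bool, cj_add, cj_smul, Complex.conj_ofReal]

theorem hw_divf (w : Bool → Bool → Bool → ℝ → ℝ → ℝ → ℝ) (p q : E) (a b : W) :
    kd (p + q) (hw w p q a b) = 0 := by
  unfold hw
  have h : ∀ c, kd (p + q) (-c) = -kd (p + q) c := fun c => by
    simp only [kd3, PiLp.neg_apply]; ring
  rw [h]
  simp only [Fintype.sum_bool, kd_add, kd_smul, kd_hp, mul_zero, add_zero, neg_zero]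

theorem hw_dt (w : Bool → Bool → Bool → ℝ → ℝ → ℝ → ℝ) (p q : E) (a b c : W) :
    dt (hw w p q a b) c = -∑ s₁ : Bool, ∑ s₂ : Bool, ∑ s₃ : Bool,
      ((w s₁ s₂ s₃ ‖p‖ ‖q‖ ‖p + q‖ * (sg s₁ * ‖p‖) : ℝ) : ℂ) *
        dt (crw (hp s₁ p a) (hp s₂ q b)) (hp s₃ (-(p + q)) c) := by
  unfold hw
  have h : ∀ x, dt (-x) c = -dt x c := fun x => by
    simp only [dt3, PiLp.neg_apply]; ring
  rw [h]
  simp only [Fintype.sum_bool, dt_add_l, dt_smul_l, dt_hp]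

theorem hw_skew (hw' : Wts w) (p q : E) (a b c : W) :
    dt (hw w (-p) (p + q) (cj a) c) (cj b) = -conj (dt (hw w p q a b) (cj c)) := by
  rw [hw_dt, hw_dt]
  have e : -p + (p + q) = q := by abel
  have k : ∀ s₁ s₂ s₃ : Bool, w s₁ s₃ s₂ ‖p‖ ‖p + q‖ ‖q‖ = w s₁ s₂ s₃ ‖p‖ ‖q‖ ‖p + q‖ :=
    fun s₁ s₂ s₃ => hw'.swap' s₁ s₂ s₃ _ _ _
  have t : ∀ x y z : W, dt (crw (cj x) y) (cj z) = -conj (dt (crw x z) (cj y)) := by
    intro x y z
    have h1 : conj (dt (crw x z) (cj y)) = dt (crw (cj x) (cj z)) y := by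
      rw [← dt_cj, cj_cj, crw_cj]
    rw [h1, dt_crw, dt_crw]
    ring
  simp only [e, norm_neg, hp_cj, t]
  simp only [Fintype.sum_bool, map_neg, map_add, map_mul, Complex.conj_ofReal]
  rw [k true true false, k true false true, k false true false, k false false true,
    k true true true, k true false false, k false true true, k false false false]
  ring

theorem hw_hel (hw' : Wts w) (p q : E) (a b c : W) (ha : kd p a = 0) (hb : kd q b = 0)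
    (hc : kd (p + q) c = 0) :
    dt (hw w p q a b + hw w q p b a) (cu (-(p + q)) c)
      + dt (hw w q (-(p + q)) b c + hw w (-(p + q)) q c b) (cu p a)
      + dt (hw w (-(p + q)) p c a + hw w p (-(p + q)) a c) (cu q b) = 0 := by
  have hc' : kd (-(p + q)) c = 0 := by rw [kd_neg, hc, neg_zero]
  set r : E := -(p + q) with hr
  have e1 : p + q = -r := by rw [hr, neg_neg]
  have e2 : q + p = -r := by rw [hr]; abel
  have e3 : q + r = -p := by rw [hr]; abel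
  have e4 : r + q = -p := by rw [hr]; abel
  have e5 : r + p = -q := by rw [hr]; abel
  have e6 : p + r = -q := by rw [hr]; abel
  rw [dt_add_l, dt_add_l, dt_add_l, hw_dt, hw_dt, hw_dt, hw_dt, hw_dt, hw_dt]
  simp only [e1, e2, e3, e4, e5, e6, neg_neg, norm_neg, hp_cu ha, hp_cu hb, hp_cu hc', dt_smul]
  set A := ‖p‖
  set B := ‖q‖
  set C := ‖r‖
  have w1 : ∀ s₁ s₂ s₃, w s₂ s₁ s₃ B A C = w s₁ s₂ s₃ A B C := fun s₁ s₂ s₃ => hw'.swap _ _ _ _ _ _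
  have w2 : ∀ s₁ s₂ s₃, w s₂ s₃ s₁ B C A = w s₁ s₂ s₃ A B C := fun s₁ s₂ s₃ => by
    rw [hw'.swap' s₂ s₁ s₃ B A C, w1]
  have w3 : ∀ s₁ s₂ s₃, w s₁ s₃ s₂ A C B = w s₁ s₂ s₃ A B C := fun s₁ s₂ s₃ => hw'.swap' _ _ _ _ _ _
  have w4 : ∀ s₁ s₂ s₃, w s₃ s₁ s₂ C A B = w s₁ s₂ s₃ A B C := fun s₁ s₂ s₃ => by
    rw [hw'.swap s₁ s₃ s₂ A C B, w3]
  have w5 : ∀ s₁ s₂ s₃, w s₃ s₂ s₁ C B A = w s₁ s₂ s₃ A B C := fun s₁ s₂ s₃ => by
    rw [hw'.swap s₂ s₃ s₁ B C A, w2]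
  have t1 : ∀ x y z : W, dt (crw y x) z = -dt (crw x y) z := by
    intro x y z; rw [dt_crw, dt_crw]; ring
  have t2 : ∀ x y z : W, dt (crw y z) x = dt (crw x y) z := by
    intro x y z; rw [dt_crw, dt_crw]; ring
  have t3 : ∀ x y z : W, dt (crw z y) x = -dt (crw x y) z := by
    intro x y z; rw [dt_crw, dt_crw]; ring
  have t4 : ∀ x y z : W, dt (crw z x) y = dt (crw x y) z := by
    intro x y z; rw [dt_crw, dt_crw]; ring
  have t5 : ∀ x y z : W, dt (crw x z) y = -dt (crw x y) z := by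
    intro x y z; rw [dt_crw, dt_crw]; ring
  simp only [Fintype.sum_bool, fun s₁ s₂ => t1 (hp s₁ p a) (hp s₂ q b),
    fun s₁ s₂ s₃ => t2 (hp s₁ p a) (hp s₂ q b) (hp s₃ r c),
    fun s₁ s₂ s₃ => t3 (hp s₁ p a) (hp s₂ q b) (hp s₃ r c),
    fun s₁ s₂ s₃ => t4 (hp s₁ p a) (hp s₂ q b) (hp s₃ r c),
    fun s₁ s₂ s₃ => t5 (hp s₁ p a) (hp s₂ q b) (hp s₃ r c)]
  have v1 : ∀ s₁ s₂ s₃, w s₁ s₂ s₃ B A C = w s₂ s₁ s₃ A B C := fun s₁ s₂ s₃ => w1 _ _ _
  have v2 : ∀ s₁ s₂ s₃, w s₁ s₂ s₃ B C A = w s₃ s₁ s₂ A B C := fun s₁ s₂ s₃ => w2 _ _ _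
  have v3 : ∀ s₁ s₂ s₃, w s₁ s₂ s₃ A C B = w s₁ s₃ s₂ A B C := fun s₁ s₂ s₃ => w3 _ _ _
  have v4 : ∀ s₁ s₂ s₃, w s₁ s₂ s₃ C A B = w s₂ s₃ s₁ A B C := fun s₁ s₂ s₃ => w4 _ _ _
  have v5 : ∀ s₁ s₂ s₃, w s₁ s₂ s₃ C B A = w s₃ s₂ s₁ A B C := fun s₁ s₂ s₃ => w5 _ _ _
  simp only [v1, v2, v3, v4, v5]
  push_cast
  ring


end H14NS
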