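import Pool.Agent.H14.NS.Hel

/-!
The weighted symbols: measurability and bounds.
-/

set_option autoImplicit false

open Set Filter Topology MeasureTheory
open scoped ComplexConjugate ContDiff

namespace H14NS

open H706N

variable {w : Bool → Bool → Bool → ℝ → ℝ → ℝ → ℝ}

theorem cont_kd : Continuous fun z : E × W => kd z.1 z.2 := by
  simp only [kd3]
  fun_prop

theorem cont_toW : Continuous toW := by
  unfold toW
  fun_prop

theorem cont_cu : Continuous (fun z : E × W => cu z.1 z.2) := by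
  have h1 : ∀ i : Fin 3, Continuous fun z : E × W => z.1 i := fun i => by fun_prop
  have h2 : ∀ i : Fin 3, Continuous fun z : E × W => z.2 i := fun i => by fun_prop
  have h3 : ∀ i : Fin 3, Continuous fun z : E × W => ((z.1 i : ℝ) : ℂ) := fun i =>
    Complex.continuous_ofReal.comp (h1 i)
  have h : Continuous fun z : E × W => crw (toW z.1) z.2 := by
    unfold crw toW
    refine (PiLp.continuous_toLp 2 (fun _ : Fin 3 => ℂ)).comp (continuous_pi fun i => ?_)
    fin_cases i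
    · exact ((h3 1).mul (h2 2)).sub ((h3 2).mul (h2 1))
    · exact ((h3 2).mul (h2 0)).sub ((h3 0).mul (h2 2))
    · exact ((h3 0).mul (h2 1)).sub ((h3 1).mul (h2 0))
  exact h.const_smul Complex.I

theorem meas_lp {X : Type*} [MeasurableSpace X] {f : X → E} {g : X → W}
    (hf : Measurable f) (hg : Measurable g) : Measurable fun x => lp (f x) (g x) := by
  unfold H706N.lp
  have h4 := cont_kd.measurable.comp (hf.prodMk hg)
  have h5 : Measurable fun x => ((‖f x‖ ^ 2 : ℝ) : ℂ) :=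
    Complex.measurable_ofReal.comp (hf.norm.pow_const 2)
  have h6 := cont_toW.measurable.comp hf
  exact hg.sub ((h4.div h5).smul h6)

theorem meas_hp (s : Bool) {X : Type*} [MeasurableSpace X] {f : X → E} {g : X → W}
    (hf : Measurable f) (hg : Measurable g) : Measurable fun x => hp s (f x) (g x) := by
  have h7 := meas_lp hf hg
  have h8 := cont_cu.measurable.comp (hf.prodMk hg)
  have h9 : Measurable fun x => ((sg s / ‖f x‖ : ℝ) : ℂ) :=
    Complex.measurable_ofReal.comp (measurable_const.div hf.norm)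
  have h10 := h9.smul h8
  have h11 :=
    (h7.add h10).const_smul (1 / 2 : ℂ)
  exact h11

theorem meas_crw {X : Type*} [MeasurableSpace X] {f g : X → W}
    (hf : Measurable f) (hg : Measurable g) : Measurable fun x => crw (f x) (g x) := by
  have h : Continuous fun z : W × W => crw z.1 z.2 := by
    have h1 : ∀ i : Fin 3, Continuous fun z : W × W => z.1 i := fun i => by fun_prop
    have h2 : ∀ i : Fin 3, Continuous fun z : W × W => z.2 i := fun i => by fun_prop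
    unfold crw
    refine (PiLp.continuous_toLp 2 (fun _ : Fin 3 => ℂ)).comp (continuous_pi fun i => ?_)
    fin_cases i
    · exact ((h1 1).mul (h2 2)).sub ((h1 2).mul (h2 1))
    · exact ((h1 2).mul (h2 0)).sub ((h1 0).mul (h2 2))
    · exact ((h1 0).mul (h2 1)).sub ((h1 1).mul (h2 0))
  exact h.measurable.comp (hf.prodMk hg)

theorem hw_meas (hw' : Wts w) (g h : E → W) (hg : Measurable g) (hh : Measurable h) :
    Measurable fun z : E × E => hw w z.1 z.2 (g z.1) (h z.2) := by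
  unfold hw
  refine (Finset.measurable_sum _ fun s₁ _ => Finset.measurable_sum _ fun s₂ _ =>
    Finset.measurable_sum _ fun s₃ _ => ?_).neg
  have h0 : Measurable fun z : E × E => (‖z.1‖, ‖z.2‖, ‖z.1 + z.2‖) := by fun_prop
  have h1 : Measurable fun z : E × E => w s₁ s₂ s₃ ‖z.1‖ ‖z.2‖ ‖z.1 + z.2‖ :=
    (hw'.meas s₁ s₂ s₃).comp h0
  have h2 : Measurable fun z : E × E =>
      w s₁ s₂ s₃ ‖z.1‖ ‖z.2‖ ‖z.1 + z.2‖ * (sg s₁ * ‖z.1‖) :=
    h1.mul (measurable_const.mul measurable_fst.norm)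
  exact (Complex.measurable_ofReal.comp h2).smul (meas_hp s₃ (measurable_fst.add measurable_snd)
    (meas_crw (meas_hp s₁ measurable_fst (hg.comp measurable_fst))
      (meas_hp s₂ measurable_snd (hh.comp measurable_snd))))

theorem hw_sym (hw' : Wts w) : Sym (hw w) where
  lin₁ := hw_lin₁ w
  lin₂ := hw_lin₂ w
  meas g h hg hh := hw_meas hw' g h hg hh
  herm := hw_herm w
  divf := hw_divf w
  skew p q a b c _ _ _ := hw_skew hw' p q a b c
  hel p q a b c ha hb hc := hw_hel hw' p q a b c ha hb hc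

theorem hw_bdd {C : ℝ} (hC : Dec C w) : Bdd (54 * C) (hw w) := by
  obtain ⟨hC0, hC⟩ := hC
  refine ⟨by positivity, fun p q a b _ => ?_⟩
  unfold hw
  rw [norm_neg]
  have t1 : ‖p‖ ≤ ‖q‖ + ‖p + q‖ := by
    have := norm_sub_le (p + q) q
    rw [add_sub_cancel_right] at this
    linarith
  have t2 : ‖q‖ ≤ ‖p‖ + ‖p + q‖ := by
    have := norm_sub_le (p + q) p
    rw [add_sub_cancel_left] at this
    linarith
  have t3 : ‖p + q‖ ≤ ‖p‖ + ‖q‖ := norm_add_le _ _
  have hm : 0 ≤ min ‖q‖ ‖p + q‖ := le_min (norm_nonneg _) (norm_nonneg _)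
  have key : ∀ s₁ s₂ s₃ : Bool, ‖((w s₁ s₂ s₃ ‖p‖ ‖q‖ ‖p + q‖ * (sg s₁ * ‖p‖) : ℝ) : ℂ) •
      hp s₃ (p + q) (crw (hp s₁ p a) (hp s₂ q b))‖ ≤ 27 / 4 * C * min ‖q‖ ‖p + q‖ * (‖a‖ * ‖b‖) := by
    intro s₁ s₂ s₃
    rw [norm_smul, Complex.norm_real, norm_mul, norm_mul]
    have hs : ‖sg s₁‖ = 1 := by cases s₁ <;> simp [sg]
    rw [hs, one_mul, norm_norm]
    have h1 := hC s₁ s₂ s₃ ‖p‖ ‖q‖ ‖p + q‖ (norm_nonneg _) (norm_nonneg _) (norm_nonneg _) t1 t2 t3
    have h2 : ‖hp s₃ (p + q) (crw (hp s₁ p a) (hp s₂ q b))‖ ≤ 27 / 4 * (‖a‖ * ‖b‖) := by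
      refine (norm_hp _ _ _).trans ?_
      have h3 := norm_crw (hp s₁ p a) (hp s₂ q b)
      have h4 := norm_hp s₁ p a
      have h5 := norm_hp s₂ q b
      have h6 : ‖hp s₁ p a‖ * ‖hp s₂ q b‖ ≤ (3 / 2 * ‖a‖) * (3 / 2 * ‖b‖) :=
        mul_le_mul h4 h5 (norm_nonneg _) (by positivity)
      nlinarith
    calc ‖w s₁ s₂ s₃ ‖p‖ ‖q‖ ‖p + q‖‖ * ‖p‖ * ‖hp s₃ (p + q) (crw (hp s₁ p a) (hp s₂ q b))‖
        ≤ (C * min ‖q‖ ‖p + q‖) * (27 / 4 * (‖a‖ * ‖b‖)) :=
          mul_le_mul h1 h2 (norm_nonneg _) (by positivity)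
      _ = 27 / 4 * C * min ‖q‖ ‖p + q‖ * (‖a‖ * ‖b‖) := by ring
  have hsum : ‖∑ s₁ : Bool, ∑ s₂ : Bool, ∑ s₃ : Bool,
      ((w s₁ s₂ s₃ ‖p‖ ‖q‖ ‖p + q‖ * (sg s₁ * ‖p‖) : ℝ) : ℂ) •
        hp s₃ (p + q) (crw (hp s₁ p a) (hp s₂ q b))‖ ≤ ∑ _s₁ : Bool, ∑ _s₂ : Bool, ∑ _s₃ : Bool,
        27 / 4 * C * min ‖q‖ ‖p + q‖ * (‖a‖ * ‖b‖) := by
    refine (norm_sum_le _ _).trans (Finset.sum_le_sum fun s₁ _ => ?_)
    refine (norm_sum_le _ _).trans (Finset.sum_le_sum fun s₂ _ => ?_)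
    exact (norm_sum_le _ _).trans (Finset.sum_le_sum fun s₃ _ => key s₁ s₂ s₃)
  refine hsum.trans (le_of_eq ?_)
  simp only [Fintype.sum_bool]
  ring

end H14NS
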