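import Pool.Agent.H14.NS.Avg

/-!
The integrals over the lengths.
-/

set_option autoImplicit false

open Set Filter Topology MeasureTheory
open scoped ComplexConjugate ContDiff

namespace H14NS

open H706N

/-- The first sum over the helicity classes. -/
noncomputable def Tu (P Q K : ℝ) : ℝ :=
  phi0 P Q K * (P * (P - Q)) * ((K - P) * (K - Q))
    + phi1 P Q K * (P * (P + Q)) * ((K + P) * (K - Q))
    + phi1 Q P K * (P * (P + Q)) * ((K - P) * (K + Q))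
    + phi1 K P Q * (P * (P - Q)) * ((K + P) * (K + Q))

/-- The second sum over the helicity classes. -/
noncomputable def Fu (P Q K : ℝ) : ℝ :=
  phi0 P Q K * (P * (P - Q)) * Q4 K P Q
    + phi1 P Q K * (P * (P + Q)) * Q4 K (-P) Q
    + phi1 Q P K * (P * (P + Q)) * Q4 K P (-Q)
    + phi1 K P Q * (P * (P - Q)) * Q4 (-K) P Q

theorem ar_eq (P Q K : ℝ) : ar P Q K = (P + Q + K) * dd P Q K := by
  unfold ar dd; ring

theorem v0_tgt {P Q K g : ℝ} (hS : P + Q + K ≠ 0) :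
    v0 P Q K * tgt P Q K g = dd P Q K ^ 5 / ((P * Q * K) ^ 5 * (128 * K ^ 4)) * (g * (1 - g ^ 2 * K ^ 2))
      * (phi0 P Q K * (P * (P - Q)) * (16 / 7 * K ^ 2 * ((K - P) * (K - Q))
        + Q4 K P Q * (3 / 7 - g ^ 2 * K ^ 2))) := by
  unfold v0 tgt
  rw [ar_eq, show K + P + Q = P + Q + K by ring]
  have e : dd P Q K ^ 4 * phi0 P Q K / ((P + Q + K) ^ 3 * (P * Q * K) ^ 5)
      = (dd P Q K ^ 4 * phi0 P Q K / (P * Q * K) ^ 5) / (P + Q + K) ^ 3 := by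
    rw [div_div, mul_comm ((P * Q * K) ^ 5)]
  rw [e]
  generalize dd P Q K = D
  generalize phi0 P Q K = φ
  generalize Q4 K P Q = q
  rw [show ∀ A B : ℝ, A / (P + Q + K) ^ 3 * (((P + Q + K) * D) / (128 * K ^ 4) * g * (1 - g ^ 2 * K ^ 2)
      * (P + Q + K) ^ 2 * (P * (P - Q)) * B)
      = ((P + Q + K) ^ 3 / (P + Q + K) ^ 3) * (A * (D / (128 * K ^ 4) * g * (1 - g ^ 2 * K ^ 2)
        * (P * (P - Q)) * B)) by intros; ring, div_self (pow_ne_zero 3 hS)]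
  ring

theorem v1_tgt₁ {P Q K g : ℝ} (hS : P + Q + K ≠ 0) :
    v1 P Q K * tgt (-P) Q K g = dd P Q K ^ 5 / ((P * Q * K) ^ 5 * (128 * K ^ 4)) * (g * (1 - g ^ 2 * K ^ 2))
      * (phi1 P Q K * (P * (P + Q)) * (16 / 7 * K ^ 2 * ((K + P) * (K - Q))
        + Q4 K (-P) Q * (3 / 7 - g ^ 2 * K ^ 2))) := by
  unfold v1 tgt
  have h1 : ar (-P) Q K = (P + Q + K) * dd P Q K := by unfold ar dd; ring
  rw [h1]
  have e : (Q + K - P) ^ 2 * ((P + K - Q) * (P + Q - K)) ^ 4 * phi1 P Q K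
        / ((P + Q + K) * (P * Q * K) ^ 5)
      = ((Q + K - P) ^ 2 * ((P + K - Q) * (P + Q - K)) ^ 4 * phi1 P Q K / (P * Q * K) ^ 5)
        / (P + Q + K) := by
    rw [div_div, mul_comm ((P * Q * K) ^ 5)]
  rw [e]
  generalize phi1 P Q K = φ
  generalize Q4 K (-P) Q = q
  rw [show ∀ A D B : ℝ, A / (P + Q + K) * (((P + Q + K) * D) / (128 * K ^ 4) * g * (1 - g ^ 2 * K ^ 2)
      * (K + -P + Q) ^ 2 * (-P * (-P - Q)) * B)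
      = ((P + Q + K) / (P + Q + K)) * (A * (D / (128 * K ^ 4) * g * (1 - g ^ 2 * K ^ 2)
        * (K + -P + Q) ^ 2 * (-P * (-P - Q)) * B)) by intros; ring, div_self hS]
  unfold dd
  ring

theorem v1_tgt₂ {P Q K g : ℝ} (hS : P + Q + K ≠ 0) :
    v1 Q P K * tgt P (-Q) K g = dd P Q K ^ 5 / ((P * Q * K) ^ 5 * (128 * K ^ 4)) * (g * (1 - g ^ 2 * K ^ 2))
      * (phi1 Q P K * (P * (P + Q)) * (16 / 7 * K ^ 2 * ((K - P) * (K + Q))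
        + Q4 K P (-Q) * (3 / 7 - g ^ 2 * K ^ 2))) := by
  unfold v1 tgt
  have h1 : ar P (-Q) K = (P + Q + K) * dd P Q K := by unfold ar dd; ring
  rw [h1]
  have e : (P + K - Q) ^ 2 * ((Q + K - P) * (Q + P - K)) ^ 4 * phi1 Q P K
        / ((Q + P + K) * (Q * P * K) ^ 5)
      = ((P + K - Q) ^ 2 * ((Q + K - P) * (Q + P - K)) ^ 4 * phi1 Q P K / (P * Q * K) ^ 5)
        / (P + Q + K) := by
    rw [div_div, mul_comm ((P * Q * K) ^ 5), add_comm Q P, mul_comm Q P]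
  rw [e]
  generalize phi1 Q P K = φ
  generalize Q4 K P (-Q) = q
  rw [show ∀ A D B : ℝ, A / (P + Q + K) * (((P + Q + K) * D) / (128 * K ^ 4) * g * (1 - g ^ 2 * K ^ 2)
      * (K + P + -Q) ^ 2 * (P * (P - -Q)) * B)
      = ((P + Q + K) / (P + Q + K)) * (A * (D / (128 * K ^ 4) * g * (1 - g ^ 2 * K ^ 2)
        * (K + P + -Q) ^ 2 * (P * (P - -Q)) * B)) by intros; ring, div_self hS]
  unfold dd
  ring

theorem v1_tgt₃ {P Q K g : ℝ} (hS : P + Q + K ≠ 0) :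
    v1 K P Q * tgt P Q (-K) g = dd P Q K ^ 5 / ((P * Q * K) ^ 5 * (128 * K ^ 4)) * (g * (1 - g ^ 2 * K ^ 2))
      * (phi1 K P Q * (P * (P - Q)) * (16 / 7 * K ^ 2 * ((K + P) * (K + Q))
        + Q4 (-K) P Q * (3 / 7 - g ^ 2 * K ^ 2))) := by
  unfold v1 tgt
  have h1 : ar P Q (-K) = (P + Q + K) * dd P Q K := by unfold ar dd; ring
  rw [h1]
  have e : (P + Q - K) ^ 2 * ((K + Q - P) * (K + P - Q)) ^ 4 * phi1 K P Q
        / ((K + P + Q) * (K * P * Q) ^ 5)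
      = ((P + Q - K) ^ 2 * ((K + Q - P) * (K + P - Q)) ^ 4 * phi1 K P Q / (P * Q * K) ^ 5)
        / (P + Q + K) := by
    rw [div_div, mul_comm ((P * Q * K) ^ 5), show K + P + Q = P + Q + K by ring,
      show K * P * Q = P * Q * K by ring]
  rw [e]
  generalize phi1 K P Q = φ
  generalize Q4 (-K) P Q = q
  rw [show ∀ A D B : ℝ, A / (P + Q + K) * (((P + Q + K) * D) / (128 * (-K) ^ 4) * g
      * (1 - g ^ 2 * (-K) ^ 2) * (-K + P + Q) ^ 2 * (P * (P - Q)) * B)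
      = ((P + Q + K) / (P + Q + K)) * (A * (D / (128 * (-K) ^ 4) * g * (1 - g ^ 2 * (-K) ^ 2)
        * (-K + P + Q) ^ 2 * (P * (P - Q)) * B)) by intros; ring, div_self hS]
  have h4 : (-K) ^ 4 = K ^ 4 := by ring
  have h2 : (-K) ^ 2 = K ^ 2 := by ring
  rw [h4, h2]
  unfold dd
  ring

/-- The integrand. -/
theorem FF_eq {ε K g P Q : ℝ} (hS : P + Q + K ≠ 0) (hP : P ≠ 0) (hQ : Q ≠ 0) (hK : K ≠ 0) :
    FF ε K g P Q * (P * Q / 2) = ε * (g * (1 - g ^ 2 * K ^ 2)) / (1024 * K ^ 9)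
      * (Real.exp (-P) * Real.exp (-Q)) * dd P Q K ^ 5
      * (16 / 7 * K ^ 2 * Tu P Q K + (3 / 7 - g ^ 2 * K ^ 2) * Fu P Q K) := by
  have e : FF ε K g P Q = (P ^ 4 * Real.exp (-P)) * (Q ^ 4 * Real.exp (-Q)) / 4 * (ε *
    (v0 P Q K * tgt P Q K g + v1 P Q K * tgt (-P) Q K g
      + v1 Q P K * tgt P (-Q) K g + v1 K P Q * tgt P Q (-K) g)) := by
    unfold FF; ring
  rw [e, v0_tgt hS, v1_tgt₁ hS, v1_tgt₂ hS, v1_tgt₃ hS]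
  have e2 : P ^ 5 * Q ^ 5 * (dd P Q K ^ 5 / ((P * Q * K) ^ 5 * (128 * K ^ 4)))
      = dd P Q K ^ 5 / (128 * K ^ 9) := by
    field_simp
  unfold Tu Fu
  linear_combination (ε * (g * (1 - g ^ 2 * K ^ 2)) / 8 * (Real.exp (-P) * Real.exp (-Q)) *
    (16 / 7 * K ^ 2 * (phi0 P Q K * (P * (P - Q)) * ((K - P) * (K - Q))
    + phi1 P Q K * (P * (P + Q)) * ((K + P) * (K - Q))
    + phi1 Q P K * (P * (P + Q)) * ((K - P) * (K + Q))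
    + phi1 K P Q * (P * (P - Q)) * ((K + P) * (K + Q))) + (3 / 7 - g ^ 2 * K ^ 2) *
    (phi0 P Q K * (P * (P - Q)) * Q4 K P Q
    + phi1 P Q K * (P * (P + Q)) * Q4 K (-P) Q
    + phi1 Q P K * (P * (P + Q)) * Q4 K P (-Q)
    + phi1 K P Q * (P * (P - Q)) * Q4 (-K) P Q))) * e2

/-- The coefficients of `Tu`. -/
noncomputable def tc (K X : ℝ) : ℕ → ℝ
  | 0 => 4848681 / 32 * (K ^ 10) - 39240053 / 32 * (K ^ 9 * X) - 26844551 / 32 * (K ^ 8 * X ^ 2) + 73090583 / 32 * (K ^ 7 * X ^ 3) + 37148751 / 32 * (K ^ 6 * X ^ 4) - 29247471 / 32 * (K ^ 5 * X ^ 5) - 13945037 / 32 * (K ^ 4 * X ^ 6) - 4603059 / 32 * (K ^ 3 * X ^ 7) - 301961 / 8 * (K ^ 2 * X ^ 8)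
  | 1 => 115911 / 2 * (K ^ 10) - 37916749 / 16 * (K ^ 9 * X) + 349727053 / 32 * (K ^ 8 * X ^ 2) + 247281363 / 32 * (K ^ 7 * X ^ 3) - 128362145 / 8 * (K ^ 6 * X ^ 4) - 127889511 / 16 * (K ^ 5 * X ^ 5) + 170771657 / 32 * (K ^ 4 * X ^ 6) + 90174883 / 32 * (K ^ 3 * X ^ 7) - 5238817 / 16 * (K ^ 2 * X ^ 8) - 3708327 / 16 * (K * X ^ 9)
  | 2 => 19934059 / 32 * (K ^ 10) + 198156733 / 16 * (K ^ 9 * X) + 616690955 / 32 * (K ^ 8 * X ^ 2) - 626100893 / 32 * (K ^ 7 * X ^ 3) - 380525675 / 32 * (K ^ 6 * X ^ 4) + 97056271 / 8 * (K ^ 5 * X ^ 5) + 188677265 / 32 * (K ^ 4 * X ^ 6) + 59839767 / 32 * (K ^ 3 * X ^ 7) + 3925493 / 8 * (K ^ 2 * X ^ 8)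
  | 3 => -38158739 / 2 * (K ^ 10) + 403397551 / 16 * (K ^ 9 * X) + 735860505 / 32 * (K ^ 8 * X ^ 2) - 1280471405 / 32 * (K ^ 7 * X ^ 3) - 22780410 * (K ^ 6 * X ^ 4) + 42529619 / 16 * (K ^ 5 * X ^ 5) + 295402187 / 32 * (K ^ 4 * X ^ 6) + 80366813 / 32 * (K ^ 3 * X ^ 7)
  | 4 => -298252535 / 16 * (K ^ 10) + 34539345 / 2 * (K ^ 9 * X) - 1317906295 / 32 * (K ^ 8 * X ^ 2) - 1613617675 / 32 * (K ^ 7 * X ^ 3) - 498537895 / 32 * (K ^ 6 * X ^ 4) - 68108573 / 32 * (K ^ 5 * X ^ 5) - 4619865 / 4 * (K ^ 4 * X ^ 6)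
  | 5 => 45867421 / 2 * (K ^ 10) + 167358857 / 16 * (K ^ 9 * X) - 577770073 / 32 * (K ^ 8 * X ^ 2) - 450040799 / 32 * (K ^ 7 * X ^ 3) - 97895251 / 8 * (K ^ 6 * X ^ 4) - 15018657 / 4 * (K ^ 5 * X ^ 5)
  | 6 => 323579319 / 16 * (K ^ 10) + 32602691 / 16 * (K ^ 9 * X) - 52946295 / 32 * (K ^ 8 * X ^ 2) - 16766063 / 32 * (K ^ 7 * X ^ 3) + 60128915 / 32 * (K ^ 6 * X ^ 4)
  | 7 => -7388885 / 2 * (K ^ 10) - 54688139 / 16 * (K ^ 9 * X) + 63016307 / 32 * (K ^ 8 * X ^ 2) + 54170425 / 32 * (K ^ 7 * X ^ 3)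
  | 8 => -83447563 / 32 * (K ^ 10) - 25576603 / 32 * (K ^ 9 * X) - 23441611 / 16 * (K ^ 8 * X ^ 2)
  | 9 => -217854 * (K ^ 10) - 217854 * (K ^ 9 * X)
  | 10 => 8011255 / 32 * (K ^ 10)
  | _ => 0

/-- The coefficients of `Fu`. -/
noncomputable def fc (K X : ℝ) : ℕ → ℝ
  | 0 => -1616227 / 2 * (K ^ 12) + 22388839 / 4 * (K ^ 11 * X) + 88033359 / 8 * (K ^ 10 * X ^ 2) + 7137073 / 8 * (K ^ 9 * X ^ 3) - 27604019 / 4 * (K ^ 8 * X ^ 4) - 11139767 / 2 * (K ^ 7 * X ^ 5) - 22399945 / 8 * (K ^ 6 * X ^ 6) - 4603059 / 8 * (K ^ 5 * X ^ 7) - 301961 / 2 * (K ^ 4 * X ^ 8)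
  | 1 => -24322463 * (K ^ 12) - 293893977 / 8 * (K ^ 11 * X) - 237438801 / 4 * (K ^ 10 * X ^ 2) - 1238351513 / 8 * (K ^ 9 * X ^ 3) - 274669753 * (K ^ 8 * X ^ 4) - 995866845 / 4 * (K ^ 7 * X ^ 5) - 442214143 / 8 * (K ^ 6 * X ^ 6) + 115698403 / 2 * (K ^ 5 * X ^ 7) + 292343829 / 8 * (K ^ 4 * X ^ 8) + 11124981 / 2 * (K ^ 3 * X ^ 9)
  | 2 => -58847882 * (K ^ 12) - 1845594349 / 8 * (K ^ 11 * X) - 2700979555 / 8 * (K ^ 10 * X ^ 2) - 113118757 / 2 * (K ^ 9 * X ^ 3) + 955864211 / 4 * (K ^ 8 * X ^ 4) + 247578648 * (K ^ 7 * X ^ 5) + 1040838771 / 8 * (K ^ 6 * X ^ 6) + 381096395 / 8 * (K ^ 5 * X ^ 7) + 25300189 / 2 * (K ^ 4 * X ^ 8)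
  | 3 => 457196944 * (K ^ 12) + 1445056824 * (K ^ 11 * X) + 15815679287 / 8 * (K ^ 10 * X ^ 2) + 9451772187 / 8 * (K ^ 9 * X ^ 3) + 207760913 / 4 * (K ^ 8 * X ^ 4) - 922590537 / 4 * (K ^ 7 * X ^ 5) - 1409053713 / 8 * (K ^ 6 * X ^ 6) - 632812599 / 4 * (K ^ 5 * X ^ 7) - 682135601 / 8 * (K ^ 4 * X ^ 8) - 25958289 / 2 * (K ^ 3 * X ^ 9)
  | 4 => 466378395 * (K ^ 12) + 2578424755 / 2 * (K ^ 11 * X) + 12955769905 / 8 * (K ^ 10 * X ^ 2) + 1309179145 / 4 * (K ^ 9 * X ^ 3) - 2318143615 / 2 * (K ^ 8 * X ^ 4) - 1183724305 * (K ^ 7 * X ^ 5) - 2123051685 / 4 * (K ^ 6 * X ^ 6) - 401570785 / 2 * (K ^ 5 * X ^ 7) - 53436740 * (K ^ 4 * X ^ 8)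
  | 5 => -514919374 * (K ^ 12) - 9040242133 / 4 * (K ^ 11 * X) - 30465772777 / 8 * (K ^ 10 * X ^ 2) - 21437634279 / 8 * (K ^ 9 * X ^ 3) + 823168291 / 2 * (K ^ 8 * X ^ 4) + 6868758535 / 4 * (K ^ 7 * X ^ 5) + 1471458457 / 2 * (K ^ 6 * X ^ 6) + 186990349 / 4 * (K ^ 5 * X ^ 7)
  | 6 => -411490982 * (K ^ 12) - 6651763697 / 4 * (K ^ 11 * X) - 17092931831 / 8 * (K ^ 10 * X ^ 2) - 669285713 / 2 * (K ^ 9 * X ^ 3) + 5591203023 / 4 * (K ^ 8 * X ^ 4) + 2093539749 / 2 * (K ^ 7 * X ^ 5) + 423220049 / 2 * (K ^ 6 * X ^ 6)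
  | 7 => 111537160 * (K ^ 12) + 251203767 * (K ^ 11 * X) - 448566667 / 8 * (K ^ 10 * X ^ 2) - 535615191 / 8 * (K ^ 9 * X ^ 3) + 1179987221 / 4 * (K ^ 8 * X ^ 4) + 664845055 / 4 * (K ^ 7 * X ^ 5)
  | 8 => 38556533 / 2 * (K ^ 12) - 334549465 / 4 * (K ^ 11 * X) - 324151305 / 2 * (K ^ 10 * X ^ 2) - 299909547 / 8 * (K ^ 9 * X ^ 3) + 62347607 / 4 * (K ^ 8 * X ^ 4)
  | 9 => -29492267 * (K ^ 12) - 891696757 / 8 * (K ^ 11 * X) - 977672353 / 8 * (K ^ 10 * X ^ 2) - 80478433 / 2 * (K ^ 9 * X ^ 3)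
  | 10 => -14509684 * (K ^ 12) - 236246297 / 8 * (K ^ 11 * X) - 56078785 / 4 * (K ^ 10 * X ^ 2)
  | _ => 0

theorem Tu_eq (K X s : ℝ) : Tu ((K + X + K * s) / 2) ((K + X - K * s) / 2) K
    = ∑ j ∈ Finset.range 11, tc K X j * s ^ j := by
  simp only [Finset.sum_range_succ, Finset.sum_range_zero, tc]
  unfold Tu phi0 phi1
  ring

theorem Fu_eq (K X s : ℝ) : Fu ((K + X + K * s) / 2) ((K + X - K * s) / 2) K
    = ∑ j ∈ Finset.range 11, fc K X j * s ^ j := by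
  simp only [Finset.sum_range_succ, Finset.sum_range_zero, fc]
  unfold Fu phi0 phi1 Q4
  ring

end H14NS
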