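import Pool.Agent.H14.NS.Int

/-!
The integrals over the lengths: evaluation.
-/

set_option autoImplicit false

open Set Filter Topology MeasureTheory
open scoped ComplexConjugate ContDiff

namespace H14NS

open H706N

/-! ### Integrability -/

/-- Functions on `[0, ∞) × [-1, 1]` of polynomial growth. -/
def Tame (f : ℝ × ℝ → ℝ) : Prop :=
  Continuous f ∧ ∃ (C : ℝ) (N : ℕ), 0 ≤ C ∧ ∀ z : ℝ × ℝ, 0 ≤ z.1 → |z.2| ≤ 1 → |f z| ≤ C * (1 + z.1) ^ N

theorem tame_const (c : ℝ) : Tame fun _ => c :=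
  ⟨continuous_const, |c|, 0, abs_nonneg _, fun z _ _ => by simp⟩

theorem tame_fst : Tame fun z => z.1 :=
  ⟨continuous_fst, 1, 1, zero_le_one, fun z h _ => by rw [abs_of_nonneg h, pow_one]; linarith⟩

theorem tame_snd : Tame fun z => z.2 :=
  ⟨continuous_snd, 1, 0, zero_le_one, fun z _ h => by simpa using h⟩

theorem tame_add {f g : ℝ × ℝ → ℝ} (hf : Tame f) (hg : Tame g) : Tame fun z => f z + g z := by
  obtain ⟨c1, C, N, h0, h⟩ := hf
  obtain ⟨c2, D, M, k0, k⟩ := hg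
  refine ⟨c1.add c2, C + D, N + M, by positivity, fun z hz1 hz2 => ?_⟩
  have e1 := h z hz1 hz2
  have e2 := k z hz1 hz2
  have b : 1 ≤ 1 + z.1 := by linarith
  have e3 : (1 + z.1) ^ N ≤ (1 + z.1) ^ (N + M) := pow_le_pow_right₀ b (by omega)
  have e4 : (1 + z.1) ^ M ≤ (1 + z.1) ^ (N + M) := pow_le_pow_right₀ b (by omega)
  calc |f z + g z| ≤ |f z| + |g z| := abs_add_le _ _
    _ ≤ C * (1 + z.1) ^ N + D * (1 + z.1) ^ M := by gcongr
    _ ≤ C * (1 + z.1) ^ (N + M) + D * (1 + z.1) ^ (N + M) := by gcongr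
    _ = _ := by ring

theorem tame_mul {f g : ℝ × ℝ → ℝ} (hf : Tame f) (hg : Tame g) : Tame fun z => f z * g z := by
  obtain ⟨c1, C, N, h0, h⟩ := hf
  obtain ⟨c2, D, M, k0, k⟩ := hg
  refine ⟨c1.mul c2, C * D, N + M, by positivity, fun z hz1 hz2 => ?_⟩
  have e1 := h z hz1 hz2
  have e2 := k z hz1 hz2
  rw [abs_mul, pow_add]
  calc |f z| * |g z| ≤ (C * (1 + z.1) ^ N) * (D * (1 + z.1) ^ M) := by gcongr
    _ = _ := by ring

theorem tame_neg {f : ℝ × ℝ → ℝ} (hf : Tame f) : Tame fun z => -f z := by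
  have := tame_mul (tame_const (-1)) hf
  simpa using this

theorem tame_sub {f g : ℝ × ℝ → ℝ} (hf : Tame f) (hg : Tame g) : Tame fun z => f z - g z := by
  have := tame_add hf (tame_neg hg)
  simpa [sub_eq_add_neg] using this

theorem tame_pow {f : ℝ × ℝ → ℝ} (hf : Tame f) (n : ℕ) : Tame fun z => f z ^ n := by
  induction n with
  | zero => simpa using tame_const 1
  | succ n ih => simpa [pow_succ] using tame_mul ih hf

theorem tame_div {f : ℝ × ℝ → ℝ} (hf : Tame f) (c : ℝ) : Tame fun z => f z / c := by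
  have := tame_mul hf (tame_const c⁻¹)
  simpa [div_eq_mul_inv] using this

theorem exp_int (N : ℕ) : IntegrableOn (fun x : ℝ => Real.exp (-x) * (1 + x) ^ N) (Ioi 0) := by
  have e : (fun x : ℝ => Real.exp (-x) * (1 + x) ^ N)
      = fun x => ∑ m ∈ Finset.range (N + 1), (N.choose m : ℝ) * (Real.exp (-x) * x ^ m) := by
    funext x
    rw [add_comm, add_pow, Finset.mul_sum]
    refine Finset.sum_congr rfl fun m _ => ?_
    rw [one_pow]
    ring
  rw [e]
  exact integrable_finsetSum _ fun m _ => (JH14.r14_exp m).1.const_mul _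

theorem tame_int {f : ℝ × ℝ → ℝ} (hf : Tame f) : Integrable (fun z : ℝ × ℝ => Real.exp (-z.1) * f z)
    ((volume.restrict (Ioi 0)).prod (volume.restrict (Ioo (-1) 1))) := by
  obtain ⟨hc, C, N, hC0, hC⟩ := hf
  have hg2 : Integrable (fun _ : ℝ => (1 : ℝ)) (volume.restrict (Ioo (-1 : ℝ) 1)) :=
    integrable_const _
  refine Integrable.mono' (((exp_int N).const_mul C).mul_prod hg2) ?_ ?_
  · have : Continuous fun z : ℝ × ℝ => Real.exp (-z.1) * f z := by fun_prop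
    exact this.aestronglyMeasurable
  · rw [Measure.prod_restrict]
    refine (ae_restrict_iff' (measurableSet_Ioi.prod measurableSet_Ioo)).2
      (Filter.Eventually.of_forall ?_)
    rintro ⟨x, s⟩ ⟨hx, hs1, hs2⟩
    simp only [mem_Ioi] at hx hs1 hs2
    have h := hC (x, s) hx.le (abs_le.2 ⟨hs1.le, hs2.le⟩)
    simp only at h ⊢
    rw [norm_mul, Real.norm_eq_abs, Real.norm_eq_abs, abs_of_pos (Real.exp_pos _)]
    calc Real.exp (-x) * |f (x, s)| ≤ Real.exp (-x) * (C * (1 + x) ^ N) := by gcongr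
      _ = _ := by ring

/-! ### The moments -/

/-- The values of the moments. -/
noncomputable def mv : ℕ → ℝ
  | 0 => 512 / 693
  | 2 => 512 / 9009
  | 4 => 512 / 45045
  | 6 => 512 / 153153
  | 8 => 512 / 415701
  | 10 => 512 / 969969
  | _ => 0

theorem mom_gen (j : ℕ) : ∫ s in Ioo (-1 : ℝ) 1, (1 - s ^ 2) ^ 5 * s ^ j
    = (1 - (-1 : ℝ) ^ (j + 1)) / (j + 1 : ℝ) - 5 * ((1 - (-1 : ℝ) ^ (j + 3)) / (j + 3 : ℝ))
      + 10 * ((1 - (-1 : ℝ) ^ (j + 5)) / (j + 5 : ℝ)) - 10 * ((1 - (-1 : ℝ) ^ (j + 7)) / (j + 7 : ℝ))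
      + 5 * ((1 - (-1 : ℝ) ^ (j + 9)) / (j + 9 : ℝ)) - (1 - (-1 : ℝ) ^ (j + 11)) / (j + 11 : ℝ) := by
  rw [← integral_Ioc_eq_integral_Ioo, ← intervalIntegral.integral_of_le (by norm_num)]
  rw [intervalIntegral.integral_eq_sub_of_hasDerivAt (f := fun s : ℝ => s ^ (j + 1) / (j + 1 : ℝ)
    - 5 * (s ^ (j + 3) / (j + 3 : ℝ)) + 10 * (s ^ (j + 5) / (j + 5 : ℝ))
    - 10 * (s ^ (j + 7) / (j + 7 : ℝ)) + 5 * (s ^ (j + 9) / (j + 9 : ℝ)) - s ^ (j + 11) / (j + 11 : ℝ))]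
  · simp only [one_pow]
    ring
  · intro s _
    have hd : ∀ n : ℕ, HasDerivAt (fun s : ℝ => s ^ (n + 1) / (n + 1 : ℝ)) (s ^ n) s := by
      intro n
      have h := (hasDerivAt_pow (n + 1) s).div_const (n + 1 : ℝ)
      refine h.congr_deriv ?_
      push_cast
      have : (n : ℝ) + 1 ≠ 0 := by positivity
      field_simp
    have h1 := hd j
    have h3 := hd (j + 2)
    have h5 := hd (j + 4)
    have h7 := hd (j + 6)
    have h9 := hd (j + 8)
    have h11 := hd (j + 10)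
    push_cast at h3 h5 h7 h9 h11
    have h := ((((h1.sub (h3.const_mul 5)).add (h5.const_mul 10)).sub (h7.const_mul 10)).add
      (h9.const_mul 5)).sub h11
    have e : (1 - s ^ 2) ^ 5 * s ^ j
        = s ^ j - 5 * s ^ (j + 2) + 10 * s ^ (j + 4) - 10 * s ^ (j + 6) + 5 * s ^ (j + 8)
          - s ^ (j + 10) := by ring
    rw [e]
    refine HasDerivAt.congr_of_eventuallyEq h (Eventually.of_forall fun t => ?_)
    simp only [Pi.sub_apply, Pi.add_apply]
    ring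
  · apply Continuous.intervalIntegrable
    fun_prop

theorem mom (j : ℕ) (hj : j < 11) : ∫ s in Ioo (-1 : ℝ) 1, (1 - s ^ 2) ^ 5 * s ^ j = mv j := by
  rw [mom_gen]
  interval_cases j <;> norm_num [mv]

theorem int_sum (t : ℕ → ℝ) : ∫ s in Ioo (-1 : ℝ) 1, (1 - s ^ 2) ^ 5 * ∑ j ∈ Finset.range 11, t j * s ^ j
    = ∑ j ∈ Finset.range 11, t j * mv j := by
  have e : ∀ s : ℝ, (1 - s ^ 2) ^ 5 * ∑ j ∈ Finset.range 11, t j * s ^ j
      = ∑ j ∈ Finset.range 11, t j * ((1 - s ^ 2) ^ 5 * s ^ j) := by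
    intro s
    rw [Finset.mul_sum]
    refine Finset.sum_congr rfl fun j _ => ?_
    ring
  simp only [e]
  rw [integral_finsetSum]
  · refine Finset.sum_congr rfl fun j hj => ?_
    rw [integral_const_mul, mom j (Finset.mem_range.1 hj)]
  · intro j _
    have hc : Continuous fun s : ℝ => t j * ((1 - s ^ 2) ^ 5 * s ^ j) := by fun_prop
    exact (hc.integrableOn_Icc).mono_set Ioo_subset_Icc_self

theorem int_Tu (K X : ℝ) : ∫ s in Ioo (-1 : ℝ) 1,
    (1 - s ^ 2) ^ 5 * Tu ((K + X + K * s) / 2) ((K + X - K * s) / 2) K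
      = 512 / 693 * (882 * K ^ 7 * X ^ 3 + 14994 * K ^ 6 * X ^ 4 - 67473 / 5 * K ^ 5 * X ^ 5) := by
  simp only [Tu_eq]
  rw [int_sum]
  simp only [Finset.sum_range_succ, Finset.sum_range_zero, tc, mv]
  ring

theorem int_Fu (K X : ℝ) : ∫ s in Ioo (-1 : ℝ) 1,
    (1 - s ^ 2) ^ 5 * Fu ((K + X + K * s) / 2) ((K + X - K * s) / 2) K = 0 := by
  simp only [Fu_eq]
  rw [int_sum]
  simp only [Finset.sum_range_succ, Finset.sum_range_zero, fc, mv]
  ring

/-! ### The double integral -/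

/-- The factor before the integral. -/
noncomputable def cf (ε K g : ℝ) : ℝ := ε * (g * (1 - g ^ 2 * K ^ 2)) * K * Real.exp (-K) / 1024

/-- The polynomial under the integral. -/
noncomputable def GP (K g x s : ℝ) : ℝ :=
  x ^ 5 * (1 - s ^ 2) ^ 5 * (16 / 7 * K ^ 2 * Tu ((K + x + K * s) / 2) ((K + x - K * s) / 2) K
    + (3 / 7 - g ^ 2 * K ^ 2) * Fu ((K + x + K * s) / 2) ((K + x - K * s) / 2) K)

theorem FF_GP {ε K g x s : ℝ} (hK : 0 < K) (hx : 0 < x) (hs : s ∈ Ioo (-1 : ℝ) 1) :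
    FF ε K g ((K + x + K * s) / 2) ((K + x - K * s) / 2) * (((K + x) ^ 2 - (K * s) ^ 2) / 8)
      = cf ε K g * (Real.exp (-x) * GP K g x s) := by
  have h1 : 0 < 1 + s := by linarith [hs.1]
  have h2 : 0 < 1 - s := by linarith [hs.2]
  have hP : 0 < (K + x + K * s) / 2 := by
    have : 0 < K * (1 + s) := mul_pos hK h1
    linarith
  have hQ : 0 < (K + x - K * s) / 2 := by
    have : 0 < K * (1 - s) := mul_pos hK h2
    linarith
  have e1 : ((K + x) ^ 2 - (K * s) ^ 2) / 8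
      = (K + x + K * s) / 2 * ((K + x - K * s) / 2) / 2 := by ring
  rw [e1, FF_eq (by positivity) hP.ne' hQ.ne' hK.ne']
  have e2 : dd ((K + x + K * s) / 2) ((K + x - K * s) / 2) K ^ 5
      = K ^ 10 * ((1 - s ^ 2) ^ 5 * x ^ 5) := by
    unfold dd
    ring
  have e3 : Real.exp (-((K + x + K * s) / 2)) * Real.exp (-((K + x - K * s) / 2))
      = Real.exp (-K) * Real.exp (-x) := by
    rw [← Real.exp_add, ← Real.exp_add]
    congr 1
    ring
  rw [e2, e3]
  have e4 : ε * (g * (1 - g ^ 2 * K ^ 2)) / (1024 * K ^ 9) * K ^ 10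
      = ε * (g * (1 - g ^ 2 * K ^ 2)) * K / 1024 := by
    field_simp
  unfold cf GP
  linear_combination (Real.exp (-K) * Real.exp (-x) * ((1 - s ^ 2) ^ 5 * x ^ 5) *
    (16 / 7 * K ^ 2 * Tu ((K + x + K * s) / 2) ((K + x - K * s) / 2) K
    + (3 / 7 - g ^ 2 * K ^ 2) * Fu ((K + x + K * s) / 2) ((K + x - K * s) / 2) K)) * e4

theorem GP_tame (K g : ℝ) : Tame fun z => GP K g z.1 z.2 := by
  unfold GP Tu Fu phi0 phi1 Q4
  repeat' first
    | exact tame_const _
    | exact tame_fst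
    | exact tame_snd
    | apply tame_add
    | apply tame_sub
    | apply tame_neg
    | apply tame_mul
    | apply tame_pow
    | apply tame_div

theorem FF_int {ε K g : ℝ} (hK : 0 < K) : Integrable (fun z : ℝ × ℝ =>
    FF ε K g ((K + z.1 + K * z.2) / 2) ((K + z.1 - K * z.2) / 2)
      * (((K + z.1) ^ 2 - (K * z.2) ^ 2) / 8))
      ((volume.restrict (Ioi 0)).prod (volume.restrict (Ioo (-1) 1))) := by
  have h := (tame_int (GP_tame K g)).const_mul (cf ε K g)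
  refine h.congr ?_
  rw [Measure.prod_restrict]
  refine (ae_restrict_iff' (measurableSet_Ioi.prod measurableSet_Ioo)).2
    (Filter.Eventually.of_forall ?_)
  rintro ⟨x, s⟩ ⟨hx, hs⟩
  exact (FF_GP hK hx hs).symm

theorem int_GP (K g x : ℝ) : ∫ s in Ioo (-1 : ℝ) 1, GP K g x s
    = x ^ 5 * (16 / 7 * K ^ 2) *
      (512 / 693 * (882 * K ^ 7 * x ^ 3 + 14994 * K ^ 6 * x ^ 4 - 67473 / 5 * K ^ 5 * x ^ 5)) := by
  have e : (fun s => GP K g x s) = fun s => (x ^ 5 * (16 / 7 * K ^ 2)) *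
      ((1 - s ^ 2) ^ 5 * Tu ((K + x + K * s) / 2) ((K + x - K * s) / 2) K)
      + (x ^ 5 * (3 / 7 - g ^ 2 * K ^ 2)) *
      ((1 - s ^ 2) ^ 5 * Fu ((K + x + K * s) / 2) ((K + x - K * s) / 2) K) := by
    funext s
    unfold GP
    ring
  have hi : ∀ f : ℝ → ℝ, Continuous f → IntegrableOn f (Ioo (-1 : ℝ) 1) := fun f hf =>
    (hf.integrableOn_Icc).mono_set Ioo_subset_Icc_self
  have c1 : Continuous fun s : ℝ => Tu ((K + x + K * s) / 2) ((K + x - K * s) / 2) K := by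
    simp only [Tu_eq]
    fun_prop
  have c2 : Continuous fun s : ℝ => Fu ((K + x + K * s) / 2) ((K + x - K * s) / 2) K := by
    simp only [Fu_eq]
    fun_prop
  rw [e, integral_add (hi _ (by fun_prop)) (hi _ (by fun_prop)), integral_const_mul,
    integral_const_mul, int_Tu, int_Fu]
  ring

/-- The value of the double integral. -/
theorem FF_val {ε K g : ℝ} (hK : 0 < K) :
    ∫ x in Ioi (0 : ℝ), ∫ s in Ioo (-1 : ℝ) 1,
      FF ε K g ((K + x + K * s) / 2) ((K + x - K * s) / 2) * (((K + x) ^ 2 - (K * s) ^ 2) / 8)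
      = 645120 / 11 * ε * (g * (1 - g ^ 2 * K ^ 2)) * K ^ 8 * Real.exp (-K)
        * (K ^ 2 + 153 * K - 1377) := by
  have e : ∀ x ∈ Ioi (0 : ℝ), (∫ s in Ioo (-1 : ℝ) 1,
      FF ε K g ((K + x + K * s) / 2) ((K + x - K * s) / 2) * (((K + x) ^ 2 - (K * s) ^ 2) / 8))
      = (cf ε K g * (16 / 7 * K ^ 2) * (512 / 693)) * (Real.exp (-x) *
        ((882 * K ^ 7) * x ^ (7 + 1) + (14994 * K ^ 6) * x ^ (7 + 2)
          + (-(67473 / 5 * K ^ 5)) * x ^ (7 + 3))) := by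
    intro x hx
    rw [setIntegral_congr_fun measurableSet_Ioo fun s hs => FF_GP hK hx hs]
    rw [integral_const_mul, integral_const_mul, int_GP]
    ring
  rw [setIntegral_congr_fun measurableSet_Ioi e, integral_const_mul, JH14.r14_out]
  unfold cf
  norm_num [Nat.factorial]
  ring

end H14NS
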