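import Pool.Agent.H14.NS.Hel2

/-!
The invariance of the weighted operators under the isometries.
-/

set_option autoImplicit false

open Set Filter Topology MeasureTheory
open scoped ComplexConjugate ContDiff

namespace H14NS

open H706N

theorem reE_apply (c : W) (i : Fin 3) : reE c i = (c i).re := rfl
theorem imE_apply (c : W) (i : Fin 3) : imE c i = (c i).im := rfl

theorem re_im (c : W) : toW (reE c) + Complex.I • toW (imE c) = c := by
  ext i
  simp only [PiLp.add_apply, PiLp.smul_apply, smul_eq_mul, toW_apply, reE_apply, imE_apply]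
  rw [mul_comm]
  exact Complex.re_add_im (c i)

theorem reE_add (a b : W) : reE (a + b) = reE a + reE b := by
  ext i; simp [reE_apply]

theorem imE_add (a b : W) : imE (a + b) = imE a + imE b := by
  ext i; simp [imE_apply]

theorem reE_smul (z : ℂ) (a : W) : reE (z • a) = z.re • reE a - z.im • imE a := by
  ext i; simp [reE_apply, imE_apply]

theorem imE_smul (z : ℂ) (a : W) : imE (z • a) = z.re • imE a + z.im • reE a := by
  ext i; simp [reE_apply, imE_apply]

theorem reE_toW (x : E) : reE (toW x) = x := by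
  ext i; simp [reE_apply, toW_apply]

theorem imE_toW (x : E) : imE (toW x) = 0 := by
  ext i; simp [imE_apply, toW_apply]

theorem toW_add (x y : E) : toW (x + y) = toW x + toW y := by
  ext i; simp [toW_apply]

theorem toW_smul' (r : ℝ) (x : E) : toW (r • x) = (r : ℂ) • toW x := by
  ext i; simp [toW_apply]

theorem toW_sub (x y : E) : toW (x - y) = toW x - toW y := by
  ext i; simp [toW_apply]

theorem toW_zero : toW 0 = 0 := by
  ext i; simp [toW_apply]

variable (Q : E ≃ₗᵢ[ℝ] E)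

theorem cQ_add (a b : W) : cQ Q (a + b) = cQ Q a + cQ Q b := by
  unfold cQ
  rw [reE_add, imE_add, map_add, map_add, toW_add, toW_add]
  module

theorem cQ_smul (z : ℂ) (a : W) : cQ Q (z • a) = z • cQ Q a := by
  unfold cQ
  rw [reE_smul, imE_smul, map_sub, map_add, map_smul, map_smul, map_smul, map_smul, toW_sub, toW_add,
    toW_smul', toW_smul', toW_smul', toW_smul']
  have hz : z = z.re + z.im * Complex.I := (Complex.re_add_im z).symm
  have hI : Complex.I * Complex.I = -1 := Complex.I_mul_I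
  apply extW <;>
  · simp only [PiLp.add_apply, PiLp.sub_apply, PiLp.smul_apply, smul_eq_mul]
    conv_rhs => rw [hz]
    ring_nf
    rw [Complex.I_sq]
    ring

theorem cQ_toW (x : E) : cQ Q (toW x) = toW (Q x) := by
  unfold cQ
  rw [reE_toW, imE_toW, map_zero, toW_zero, smul_zero, add_zero]

theorem cQ_neg (a : W) : cQ Q (-a) = -cQ Q a := by
  have := cQ_smul Q (-1) a
  rwa [neg_one_smul, neg_one_smul] at this

theorem cQ_zero : cQ Q 0 = 0 := by
  have := cQ_smul Q 0 0
  rwa [zero_smul, zero_smul] at this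

theorem kd_toW' (k x : E) : kd k (toW x) = ((inner ℝ k x : ℝ) : ℂ) := by
  rw [kd3, PiLp.inner_apply, Fin.sum_univ_three]
  simp only [toW_apply]
  simp
  ring

theorem kd_cQ (k : E) (a : W) : kd (Q k) (cQ Q a) = kd k a := by
  conv_rhs => rw [← re_im a]
  unfold cQ
  rw [kd_add, kd_add, kd_smul, kd_smul, kd_toW', kd_toW', kd_toW', kd_toW',
    LinearIsometryEquiv.inner_map_map, LinearIsometryEquiv.inner_map_map]

theorem lp_cQ (k : E) (a : W) : lp (Q k) (cQ Q a) = cQ Q (lp k a) := by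
  have h : lp k a = a + (-(kd k a / ((‖k‖ ^ 2 : ℝ) : ℂ))) • toW k := by
    unfold H706N.lp
    rw [neg_smul]
    abel
  rw [h, cQ_add, cQ_smul, cQ_toW]
  unfold H706N.lp
  rw [kd_cQ, LinearIsometryEquiv.norm_map, neg_smul]
  abel

theorem cr0 (p q : E) : cr p q 0 = p 1 * q 2 - p 2 * q 1 := rfl
theorem cr1 (p q : E) : cr p q 1 = p 2 * q 0 - p 0 * q 2 := rfl
theorem cr2 (p q : E) : cr p q 2 = p 0 * q 1 - p 1 * q 0 := rfl

theorem inner3 (x y : E) : inner ℝ x y = x 0 * y 0 + x 1 * y 1 + x 2 * y 2 := by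
  rw [PiLp.inner_apply, Fin.sum_univ_three]
  simp
  ring

/-- The triple product. -/
noncomputable def tp (x y z : E) : ℝ := inner ℝ (cr x y) z

theorem tp_eq (x y z : E) : tp x y z = (x 1 * y 2 - x 2 * y 1) * z 0 + (x 2 * y 0 - x 0 * y 2) * z 1
    + (x 0 * y 1 - x 1 * y 0) * z 2 := by
  rw [tp, inner3, cr0, cr1, cr2]

/-- The standard unit vectors. -/
noncomputable def ev (i : Fin 3) : E := EuclideanSpace.single i 1

theorem exp_ev (x : E) : x = x 0 • ev 0 + x 1 • ev 1 + x 2 • ev 2 := by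
  apply extE <;> simp [ev]

theorem Q_exp (x : E) : Q x = x 0 • Q (ev 0) + x 1 • Q (ev 1) + x 2 • Q (ev 2) := by
  conv_lhs => rw [exp_ev x]
  rw [map_add, map_add, map_smul, map_smul, map_smul]

theorem tp_Q (x y z : E) : tp (Q x) (Q y) (Q z) = tp (Q (ev 0)) (Q (ev 1)) (Q (ev 2)) * tp x y z := by
  rw [Q_exp Q x, Q_exp Q y, Q_exp Q z, tp_eq, tp_eq, tp_eq]
  simp only [PiLp.add_apply, PiLp.smul_apply, smul_eq_mul]
  ring

theorem tp_sq (x y z : E) : tp x y z ^ 2 = inner ℝ x x * (inner ℝ y y * inner ℝ z z - inner ℝ y z ^ 2)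
    - inner ℝ x y * (inner ℝ x y * inner ℝ z z - inner ℝ y z * inner ℝ x z)
    + inner ℝ x z * (inner ℝ x y * inner ℝ y z - inner ℝ y y * inner ℝ x z) := by
  rw [tp_eq]
  simp only [inner3]
  ring

theorem eps_sq : tp (Q (ev 0)) (Q (ev 1)) (Q (ev 2)) ^ 2 = 1 := by
  rw [tp_sq]
  simp only [LinearIsometryEquiv.inner_map_map]
  simp only [inner3, ev]
  simp

theorem exists_eps : ∃ ε : ℝ, (ε = 1 ∨ ε = -1) ∧ ∀ x y, cr (Q x) (Q y) = ε • Q (cr x y) := by
  refine ⟨tp (Q (ev 0)) (Q (ev 1)) (Q (ev 2)), ?_, fun x y => ?_⟩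
  · have h := eps_sq Q
    have h2 : (tp (Q (ev 0)) (Q (ev 1)) (Q (ev 2)) - 1) * (tp (Q (ev 0)) (Q (ev 1)) (Q (ev 2)) + 1) = 0 := by
      linear_combination h
    rcases mul_eq_zero.1 h2 with h | h
    · exact Or.inl (by linarith)
    · exact Or.inr (by linarith)
  · have h1 : ∀ z, inner ℝ (cr (Q x) (Q y) - tp (Q (ev 0)) (Q (ev 1)) (Q (ev 2)) • Q (cr x y)) z = 0 := by
      intro z
      obtain ⟨z', rfl⟩ := Q.surjective z
      rw [inner_sub_left, inner_smul_left, LinearIsometryEquiv.inner_map_map]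
      have := tp_Q Q x y z'
      unfold tp at this ⊢
      rw [this]
      simp
    have h2 := h1 (cr (Q x) (Q y) - tp (Q (ev 0)) (Q (ev 1)) (Q (ev 2)) • Q (cr x y))
    rw [inner_self_eq_zero, sub_eq_zero] at h2
    exact h2

theorem crw_toW' (x y : E) : crw (toW x) (toW y) = toW (cr x y) := by
  apply extW
  · rw [crw0, toW_apply, toW_apply, toW_apply, toW_apply, toW_apply, cr0]; push_cast; ring
  · rw [crw1, toW_apply, toW_apply, toW_apply, toW_apply, toW_apply, cr1]; push_cast; ring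
  · rw [crw2, toW_apply, toW_apply, toW_apply, toW_apply, toW_apply, cr2]; push_cast; ring

theorem crw_cQ {ε : ℝ} (hε : ∀ x y, cr (Q x) (Q y) = ε • Q (cr x y)) (a b : W) :
    crw (cQ Q a) (cQ Q b) = (ε : ℂ) • cQ Q (crw a b) := by
  have h1 : crw a b = crw (toW (reE a) + Complex.I • toW (imE a)) (toW (reE b) + Complex.I • toW (imE b)) := by
    rw [re_im, re_im]
  rw [h1]
  have h2 : ∀ c, cQ Q c = toW (Q (reE c)) + Complex.I • toW (Q (imE c)) := fun _ => rfl
  rw [h2 a, h2 b]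
  simp only [crw_add₁, crw_add₂, crw_smul₁, crw_smul₂, crw_toW', cQ_add, cQ_smul, cQ_toW, hε, toW_smul']
  module

theorem cu_cQ {ε : ℝ} (hε : ∀ x y, cr (Q x) (Q y) = ε • Q (cr x y)) (k : E) (a : W) :
    cu (Q k) (cQ Q a) = (ε : ℂ) • cQ Q (cu k a) := by
  unfold cu
  rw [← cQ_toW, crw_cQ Q hε, cQ_smul, smul_comm]

theorem hp_neg (s : Bool) (k : E) (a : W) : hp s (-k) a = hp (!s) k a := by
  unfold hp
  rw [lp_neg, norm_neg, cu_neg, sg_not']
  congr 2
  push_cast
  module

/-- The change of the helicity signs. -/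
theorem hp_cQ {ε : ℝ} (hε : ∀ x y, cr (Q x) (Q y) = ε • Q (cr x y)) (h : ε = 1) (s : Bool) (k : E) (a : W) :
    hp s (Q k) (cQ Q a) = cQ Q (hp s k a) := by
  unfold hp
  rw [lp_cQ, cu_cQ Q hε, LinearIsometryEquiv.norm_map, cQ_smul, cQ_add, cQ_smul, h, Complex.ofReal_one,
    one_smul]

theorem hp_cQ' {ε : ℝ} (hε : ∀ x y, cr (Q x) (Q y) = ε • Q (cr x y)) (h : ε = -1) (s : Bool) (k : E)
    (a : W) : hp s (Q k) (cQ Q a) = cQ Q (hp (!s) k a) := by
  unfold hp
  rw [lp_cQ, cu_cQ Q hε, LinearIsometryEquiv.norm_map, cQ_smul, cQ_add, cQ_smul, h, sg_not']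
  congr 2
  push_cast
  module

variable {w : Bool → Bool → Bool → ℝ → ℝ → ℝ → ℝ}

theorem hw_cQ (hw' : Wts w) (p q : E) (a b : W) :
    hw w (Q p) (Q q) (cQ Q a) (cQ Q b) = cQ Q (hw w p q a b) := by
  obtain ⟨ε, h, hε⟩ := exists_eps Q
  unfold hw
  rw [← map_add, cQ_neg]
  simp only [LinearIsometryEquiv.norm_map]
  rcases h with h | h
  · simp only [hp_cQ Q hε h, crw_cQ Q hε, Fintype.sum_bool, cQ_add, cQ_smul, h,
      Complex.ofReal_one, one_smul]
  · simp only [hp_cQ' Q hε h, crw_cQ Q hε, hp_smul, Fintype.sum_bool, cQ_add, cQ_smul, h]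
    have k : ∀ s₁ s₂ s₃, w s₁ s₂ s₃ ‖p‖ ‖q‖ ‖p + q‖ = w (!s₁) (!s₂) (!s₃) ‖p‖ ‖q‖ ‖p + q‖ :=
      fun s₁ s₂ s₃ => (hw'.flip _ _ _ _ _ _).symm
    rw [k true true true, k true true false, k true false true, k true false false]
    simp only [Bool.not_true, Bool.not_false, sg, if_true, Bool.false_eq_true, if_false]
    push_cast
    module

theorem cQ_cont : Continuous (cQ Q) := by
  unfold cQ
  have h1 : Continuous reE := by
    unfold reE
    fun_prop
  have h2 : Continuous imE := by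
    unfold imE
    fun_prop
  exact (cont_toW.comp (Q.continuous.comp h1)).add
    ((cont_toW.comp (Q.continuous.comp h2)).const_smul Complex.I)

theorem cQ_symm (a : W) : cQ Q (cQ Q.symm a) = a := by
  conv_rhs => rw [← re_im a]
  have h2 : cQ Q.symm a = toW (Q.symm (reE a)) + Complex.I • toW (Q.symm (imE a)) := rfl
  rw [h2, cQ_add, cQ_smul, cQ_toW, cQ_toW, LinearIsometryEquiv.apply_symm_apply,
    LinearIsometryEquiv.apply_symm_apply]

theorem cQ_symm' (a : W) : cQ Q.symm (cQ Q a) = a := by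
  have := cQ_symm Q.symm a
  rwa [LinearIsometryEquiv.symm_symm] at this

/-- `cQ Q` as a linear equivalence. -/
noncomputable def cQe : W ≃ₗ[ℂ] W where
  toFun := cQ Q
  invFun := cQ Q.symm
  left_inv := cQ_symm' Q
  right_inv := cQ_symm Q
  map_add' := cQ_add Q
  map_smul' := cQ_smul Q

theorem cQ_int (f : E → W) : ∫ q, cQ Q (f q) = cQ Q (∫ q, f q) :=
  (cQe Q).toContinuousLinearEquiv.integral_comp_comm f

theorem op_act (hw' : Wts w) (g h : E → W) :
    op (hw w) (act Q g) (act Q h) = act Q (op (hw w) g h) := by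
  funext k
  unfold op act
  rw [← cQ_int]
  have h1 := Q.measurePreserving.integral_comp Q.toHomeomorph.measurableEmbedding
    (fun q => hw w (k - q) q (cQ Q (g (Q.symm (k - q)))) (cQ Q (h (Q.symm q))))
  rw [← h1]
  congr 1
  funext q
  have h3 : k - Q q = Q (Q.symm k - q) := by
    rw [map_sub, LinearIsometryEquiv.apply_symm_apply]
  rw [h3, hw_cQ Q hw', LinearIsometryEquiv.symm_apply_apply, LinearIsometryEquiv.symm_apply_apply]

theorem hw_hom (hw' : Wts w) {r : ℝ} (hr : 0 < r) (p q : E) (a b : W) :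
    hw w (r • p) (r • q) a b = r • hw w p q a b := by
  have hhp : ∀ s k c, hp s (r • k) c = hp s k c := by
    intro s k c
    unfold hp
    have h1 : lp (r • k) c = lp k c := by
      unfold H706N.lp
      have hk : kd (r • k) c = (r : ℂ) * kd k c := by
        simp only [kd3, PiLp.smul_apply, smul_eq_mul, Complex.ofReal_mul]; ring
      rw [hk, norm_smul, toW_smul', smul_smul]
      congr 2
      have hr' : (r : ℂ) ≠ 0 := by exact_mod_cast hr.ne'
      rw [Real.norm_eq_abs, mul_pow, sq_abs]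
      push_cast
      by_cases hk : ((‖k‖ : ℝ) : ℂ) = 0
      · simp [hk]
      · field_simp
    have h2 : cu (r • k) c = (r : ℂ) • cu k c := by
      apply extW <;>
        simp only [PiLp.smul_apply, smul_eq_mul, cu0, cu1, cu2, Complex.ofReal_mul] <;> ring
    rw [h1, h2, norm_smul, Real.norm_of_nonneg hr.le, smul_smul]
    congr 3
    have hr' : (r : ℂ) ≠ 0 := by exact_mod_cast hr.ne'
    push_cast
    by_cases hk : ((‖k‖ : ℝ) : ℂ) = 0
    · simp [hk]
    · field_simp
  unfold hw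
  rw [← smul_add]
  simp only [hhp, norm_smul, Real.norm_of_nonneg hr.le, hw'.hom r hr]
  rw [smul_neg]
  congr 1
  have h6 : ∀ (x : ℝ) (v : W), x • v = (x : ℂ) • v := fun x v => by
    ext j
    simp
  rw [h6]
  simp only [Fintype.sum_bool, smul_add, smul_smul]
  push_cast
  simp only [← mul_assoc, mul_comm]

theorem hw_par (hw' : Wts w) (p q : E) (a b : W) : hw w (-p) (-q) a b = -hw w p q a b := by
  unfold hw
  rw [← neg_add]
  simp only [norm_neg, hp_neg, Fintype.sum_bool]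
  have k : ∀ s₁ s₂ s₃, w s₁ s₂ s₃ ‖p‖ ‖q‖ ‖p + q‖ = w (!s₁) (!s₂) (!s₃) ‖p‖ ‖q‖ ‖p + q‖ :=
    fun s₁ s₂ s₃ => (hw'.flip _ _ _ _ _ _).symm
  rw [k true true true, k true true false, k true false true, k true false false]
  simp only [Bool.not_true, Bool.not_false, sg, if_true, Bool.false_eq_true, if_false]
  push_cast
  module

theorem cQ_rz (θ : ℝ) (c : W) : cQ (JH5.so5_iso θ) c = rzW θ c := by
  have h : ∀ x, (JH5.so5_iso θ) x = rz θ x := fun _ => rfl
  unfold cQ
  rw [h, h]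
  have hc : ∀ i, c i = ((c i).re : ℂ) + Complex.I * ((c i).im : ℂ) := fun i => by
    rw [mul_comm]
    exact (Complex.re_add_im _).symm
  apply extW
  · simp only [PiLp.add_apply, PiLp.smul_apply, smul_eq_mul, toW_apply]
    show ((Real.cos θ * reE c 0 - Real.sin θ * reE c 1 : ℝ) : ℂ)
      + Complex.I * ((Real.cos θ * imE c 0 - Real.sin θ * imE c 1 : ℝ) : ℂ)
      = (Real.cos θ : ℂ) * c 0 - (Real.sin θ : ℂ) * c 1
    rw [reE_apply, reE_apply, imE_apply, imE_apply, hc 0, hc 1]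
    simp
    ring
  · simp only [PiLp.add_apply, PiLp.smul_apply, smul_eq_mul, toW_apply]
    show ((Real.sin θ * reE c 0 + Real.cos θ * reE c 1 : ℝ) : ℂ)
      + Complex.I * ((Real.sin θ * imE c 0 + Real.cos θ * imE c 1 : ℝ) : ℂ)
      = (Real.sin θ : ℂ) * c 0 + (Real.cos θ : ℂ) * c 1
    rw [reE_apply, reE_apply, imE_apply, imE_apply, hc 0, hc 1]
    simp
    ring
  · simp only [PiLp.add_apply, PiLp.smul_apply, smul_eq_mul, toW_apply]
    show ((reE c 2 : ℝ) : ℂ) + Complex.I * ((imE c 2 : ℝ) : ℂ) = c 2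
    rw [reE_apply, imE_apply]
    exact (hc 2).symm

theorem hw_inv (hw' : Wts w) : Inv (hw w) where
  hom r hr p q a b := hw_hom hw' hr p q a b
  rot θ p q a b := by
    have h := hw_cQ (JH5.so5_iso θ) hw' p q a b
    rw [cQ_rz, cQ_rz, cQ_rz] at h
    exact h
  par p q a b := hw_par hw' p q a b

end H14NS
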