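import Pool.Agent.H14.NS.Wgt
import Pool.Agent.H14.NS.Alg

/-!
The profile, and the third component of the interaction of two frequencies.
-/

set_option autoImplicit false

open Set Filter Topology MeasureTheory
open scoped ComplexConjugate ContDiff

namespace H14NS

open H706N

/-- The direction of the profile, without the normalization. -/
noncomputable def GG (k : E) : E := k 2 • (‖k‖ ^ 2 • ev 2 - k 2 • k)

/-- The radial part of the profile. -/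
noncomputable def ek (k : E) : ℝ := ‖k‖ ^ 4 * Real.exp (-‖k‖)

/-- The Fourier transform of the profile. -/
noncomputable def prV (k : E) : W := (Complex.I * (ek k : ℂ)) • toW (GG k)

/-- The projection of the third unit vector. -/
noncomputable def gm (k : E) : E := ev 2 - (k 2 / ‖k‖ ^ 2) • k

theorem ev2_0 : ev 2 0 = 0 := by simp [ev]
theorem ev2_1 : ev 2 1 = 0 := by simp [ev]
theorem ev2_2 : ev 2 2 = 1 := by simp [ev]

theorem GG0 (k : E) : GG k 0 = -(k 2 ^ 2 * k 0) := by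
  simp only [GG, PiLp.smul_apply, PiLp.sub_apply, smul_eq_mul, ev2_0]; ring

theorem GG1 (k : E) : GG k 1 = -(k 2 ^ 2 * k 1) := by
  simp only [GG, PiLp.smul_apply, PiLp.sub_apply, smul_eq_mul, ev2_1]; ring

theorem GG2 (k : E) : GG k 2 = k 2 * (‖k‖ ^ 2 - k 2 ^ 2) := by
  simp only [GG, PiLp.smul_apply, PiLp.sub_apply, smul_eq_mul, ev2_2]; ring

theorem gm0 (k : E) : gm k 0 = -(k 2 / ‖k‖ ^ 2 * k 0) := by
  simp only [gm, PiLp.smul_apply, PiLp.sub_apply, smul_eq_mul, ev2_0]; ring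

theorem gm1 (k : E) : gm k 1 = -(k 2 / ‖k‖ ^ 2 * k 1) := by
  simp only [gm, PiLp.smul_apply, PiLp.sub_apply, smul_eq_mul, ev2_1]; ring

theorem gm2 (k : E) : gm k 2 = 1 - k 2 / ‖k‖ ^ 2 * k 2 := by
  simp only [gm, PiLp.smul_apply, PiLp.sub_apply, smul_eq_mul, ev2_2]

theorem cu_toW' (k x : E) : cu k (toW x) = Complex.I • toW (cr k x) := by
  unfold cu
  rw [crw_toW']

theorem inner_GG (k : E) : inner ℝ k (GG k) = 0 := by
  rw [inner3, GG0, GG1, GG2, nsq]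
  ring

theorem hp_toW {k x : E} (h : inner ℝ k x = 0) (s : Bool) :
    hp s k (toW x) = (1 / 2 : ℂ) • (toW x + ((sg s / ‖k‖ : ℝ) * Complex.I : ℂ) • toW (cr k x)) := by
  unfold hp
  rw [lp_of_kd, cu_toW', smul_smul]
  rw [kd_toW', h, Complex.ofReal_zero]

theorem lp_ev2 (k : E) : lp k (toW (ev 2)) = toW (gm k) := by
  have h : kd k (toW (ev 2)) = ((k 2 : ℝ) : ℂ) := by
    rw [kd_toW', inner3, ev2_0, ev2_1, ev2_2]
    congr 1
    ring
  unfold H706N.lp gm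
  rw [h, toW_sub, toW_smul']
  congr 2
  push_cast
  rfl

theorem hp_neg_ev2 (s : Bool) (k : E) : hp s (-k) (toW (ev 2))
    = (1 / 2 : ℂ) • (toW (gm k) + (-((sg s / ‖k‖ : ℝ) * Complex.I) : ℂ) • toW (cr k (ev 2))) := by
  unfold hp
  rw [lp_neg, norm_neg, cu_neg, lp_ev2, cu_toW']
  congr 2
  rw [smul_neg, smul_smul, neg_smul]

theorem dt_exp (α α' β β' γ γ' : E) (z₁ z₂ z₃ : ℂ) :
    dt (crw (toW α + z₁ • toW α') (toW β + z₂ • toW β')) (toW γ + z₃ • toW γ')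
      = tp α β γ + z₁ * tp α' β γ + z₂ * tp α β' γ + z₃ * tp α β γ' + z₁ * z₂ * tp α' β' γ
        + z₁ * z₃ * tp α' β γ' + z₂ * z₃ * tp α β' γ' + z₁ * z₂ * z₃ * tp α' β' γ' := by
  rw [dt_crw]
  simp only [tp_eq, PiLp.add_apply, PiLp.smul_apply, smul_eq_mul, toW_apply]
  push_cast
  ring

theorem tp_zero (p q : E) : tp (cr p (GG p)) (cr q (GG q)) (cr (p + q) (ev 2)) = 0 := by
  rw [tp_eq]
  simp only [cr0, cr1, cr2, GG0, GG1, GG2, nsq, PiLp.add_apply, ev2_0, ev2_1, ev2_2]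
  ring

/-- The contribution of one triple of helicity signs. -/
theorem dt_term (p q : E) (s₁ s₂ s₃ : Bool) :
    dt (crw (hp s₁ p (prV p)) (hp s₂ q (prV q))) (hp s₃ (-(p + q)) (toW (ev 2)))
      = -((ek p * ek q / 8 : ℝ) : ℂ) * ((tp (GG p) (GG q) (gm (p + q)) : ℂ)
        + Complex.I * ((sg s₁ / ‖p‖ * tp (cr p (GG p)) (GG q) (gm (p + q))
          + sg s₂ / ‖q‖ * tp (GG p) (cr q (GG q)) (gm (p + q))
          - sg s₃ / ‖p + q‖ * tp (GG p) (GG q) (cr (p + q) (ev 2)) : ℝ) : ℂ)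
        - ((sg s₁ / ‖p‖ * (sg s₂ / ‖q‖) * tp (cr p (GG p)) (cr q (GG q)) (gm (p + q))
          - sg s₁ / ‖p‖ * (sg s₃ / ‖p + q‖) * tp (cr p (GG p)) (GG q) (cr (p + q) (ev 2))
          - sg s₂ / ‖q‖ * (sg s₃ / ‖p + q‖) * tp (GG p) (cr q (GG q)) (cr (p + q) (ev 2)) : ℝ) : ℂ)) := by
  unfold prV
  rw [hp_smul, hp_smul, hp_toW (inner_GG p), hp_toW (inner_GG q), hp_neg_ev2, crw_smul₁, crw_smul₂,
    crw_smul₁, crw_smul₂, dt_smul_l, dt_smul_l, dt_smul_l, dt_smul_l, dt_smul, dt_exp, tp_zero]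
  push_cast
  have hI : Complex.I * Complex.I = -1 := Complex.I_mul_I
  linear_combination ((ek p * ek q / 8 : ℂ) * ((tp (GG p) (GG q) (gm (p + q)) : ℂ)
        + Complex.I * ((sg s₁ / ‖p‖ * tp (cr p (GG p)) (GG q) (gm (p + q))
          + sg s₂ / ‖q‖ * tp (GG p) (cr q (GG q)) (gm (p + q))
          - sg s₃ / ‖p + q‖ * tp (GG p) (GG q) (cr (p + q) (ev 2)) : ℂ))
        + (Complex.I * Complex.I - 1) *
          ((sg s₁ / ‖p‖ * (sg s₂ / ‖q‖) * tp (cr p (GG p)) (cr q (GG q)) (gm (p + q))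
          - sg s₁ / ‖p‖ * (sg s₃ / ‖p + q‖) * tp (cr p (GG p)) (GG q) (cr (p + q) (ev 2))
          - sg s₂ / ‖q‖ * (sg s₃ / ‖p + q‖) * tp (GG p) (cr q (GG q)) (cr (p + q) (ev 2)) : ℂ)))) * hI

/-- The third component of the interaction of two frequencies. -/
theorem hw_e3 {w : Bool → Bool → Bool → ℝ → ℝ → ℝ → ℝ}
    (hf : ∀ s₁ s₂ s₃ a b c, w (!s₁) (!s₂) (!s₃) a b c = w s₁ s₂ s₃ a b c) (p q : E) :
    dt (hw w p q (prV p) (prV q)) (toW (ev 2)) = Complex.I * ((ek p * ek q / 4 *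
      ((w true true true ‖p‖ ‖q‖ ‖p + q‖ + w false true true ‖p‖ ‖q‖ ‖p + q‖
          + w true false true ‖p‖ ‖q‖ ‖p + q‖ + w true true false ‖p‖ ‖q‖ ‖p + q‖)
          * tp (cr p (GG p)) (GG q) (gm (p + q))
        + ‖p‖ / ‖q‖ * (w true true true ‖p‖ ‖q‖ ‖p + q‖ - w false true true ‖p‖ ‖q‖ ‖p + q‖
          - w true false true ‖p‖ ‖q‖ ‖p + q‖ + w true true false ‖p‖ ‖q‖ ‖p + q‖)
          * tp (GG p) (cr q (GG q)) (gm (p + q))
        - ‖p‖ / ‖p + q‖ * (w true true true ‖p‖ ‖q‖ ‖p + q‖ - w false true true ‖p‖ ‖q‖ ‖p + q‖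
          + w true false true ‖p‖ ‖q‖ ‖p + q‖ - w true true false ‖p‖ ‖q‖ ‖p + q‖)
          * tp (GG p) (GG q) (cr (p + q) (ev 2))) : ℝ) : ℂ) := by
  have k : ∀ s₁ s₂ s₃, w s₁ s₂ s₃ ‖p‖ ‖q‖ ‖p + q‖ = w (!s₁) (!s₂) (!s₃) ‖p‖ ‖q‖ ‖p + q‖ :=
    fun s₁ s₂ s₃ => (hf _ _ _ _ _ _).symm
  rw [hw_dt]
  simp only [dt_term, Fintype.sum_bool]
  rw [k false false false, k false false true, k false true false, k true false false]
  simp only [Bool.not_true, Bool.not_false, sg, if_true, Bool.false_eq_true, if_false]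
  by_cases hp : ‖p‖ = 0
  · have e : ek p = 0 := by unfold ek; rw [hp]; simp
    rw [e]
    push_cast
    ring
  · have hpC : ((‖p‖ : ℝ) : ℂ) ≠ 0 := by exact_mod_cast hp
    have e1 : ((‖p‖ : ℝ) : ℂ) * ((‖p‖ : ℝ) : ℂ)⁻¹ = 1 := mul_inv_cancel₀ hpC
    push_cast
    simp only [div_eq_mul_inv]
    linear_combination (Complex.I * (((ek p : ℂ) * ek q * 4⁻¹ *
      (((w true true true ‖p‖ ‖q‖ ‖p + q‖ : ℂ) + w false true true ‖p‖ ‖q‖ ‖p + q‖
          + w true false true ‖p‖ ‖q‖ ‖p + q‖ + w true true false ‖p‖ ‖q‖ ‖p + q‖)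
          * tp (cr p (GG p)) (GG q) (gm (p + q)))))) * e1

/-! ### The triple products -/

theorem tpD {p q : E} {g : ℝ} (hg : g * ‖p + q‖ ^ 2 = p 2 + q 2) (h0 : p + q ≠ 0) :
    tp (cr p (GG p)) (GG q) (gm (p + q)) = D1 ‖p‖ ‖q‖ ‖p + q‖ g (q 2) ∧
    tp (GG p) (cr q (GG q)) (gm (p + q)) = D2 ‖p‖ ‖q‖ ‖p + q‖ g (q 2) ∧
    tp (GG p) (GG q) (cr (p + q) (ev 2)) = D3 ‖p‖ ‖q‖ ‖p + q‖ g (q 2) := by
  have hK : ‖p + q‖ ≠ 0 := norm_ne_zero_iff.2 h0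
  have h1 : g * ‖p + q‖ ^ 2 - q 2 = p 2 := by linarith
  have h2 : 1 - g ^ 2 * ‖p + q‖ ^ 2 = 1 - g * (p 2 + q 2) := by rw [← hg]; ring
  have h3 : pq ‖p‖ ‖q‖ ‖p + q‖ = p 0 * q 0 + p 1 * q 1 + p 2 * q 2 := by
    unfold pq
    rw [nsq, nsq, nsq]
    simp only [PiLp.add_apply]
    ring
  have h4 : (p + q) 2 / ‖p + q‖ ^ 2 = g := by
    rw [PiLp.add_apply, ← hg]
    field_simp
  refine ⟨?_, ?_, ?_⟩
  · unfold D1
    rw [h1, h2, h3, nsq p, nsq q, tp_eq]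
    simp only [cr0, cr1, cr2, GG0, GG1, GG2, gm0, gm1, gm2, h4, nsq p, nsq q]
    simp only [PiLp.add_apply]
    ring
  · unfold D2
    rw [h1, h2, h3, nsq p, nsq q, tp_eq]
    simp only [cr0, cr1, cr2, GG0, GG1, GG2, gm0, gm1, gm2, h4, nsq p, nsq q]
    simp only [PiLp.add_apply]
    ring
  · unfold D3
    rw [h1, h3, nsq p, nsq q, tp_eq]
    simp only [cr0, cr1, cr2, GG0, GG1, GG2, nsq p, nsq q, ev2_0, ev2_1, ev2_2]
    simp only [PiLp.add_apply]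
    ring

end H14NS
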