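import Pool.Agent.H14.NS.Eig

/-!
The regularity of the profile.
-/

set_option autoImplicit false

open Set Filter Topology MeasureTheory
open scoped ComplexConjugate ContDiff

namespace H14NS

open H706N

/-- The homogeneous part of the profile. -/
noncomputable def HH7 (k : E) : W := (‖k‖ ^ 4) • (Complex.I • toW (GG k))

theorem prV_eq (k : E) : prV k = Real.exp (-‖k‖) • HH7 k := by
  unfold prV HH7 ek
  ext j
  simp only [PiLp.smul_apply, smul_eq_mul, Complex.real_smul]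
  push_cast
  ring

theorem prV_T : prV = JH19.s9T HH7 := by
  funext k
  unfold JH19.s9T
  split_ifs with h
  · rw [prV_eq, h]
    unfold HH7
    simp
  · exact prV_eq k

theorem GG_smul (r : ℝ) (k : E) : GG (r • k) = r ^ 3 • GG k := by
  apply extE
  · simp only [PiLp.smul_apply, smul_eq_mul, GG0]; ring
  · simp only [PiLp.smul_apply, smul_eq_mul, GG1]; ring
  · simp only [PiLp.smul_apply, smul_eq_mul, GG2, norm_smul, Real.norm_eq_abs, mul_pow, sq_abs]; ring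

theorem HH7_smul {r : ℝ} (hr : 0 < r) (k : E) : HH7 (r • k) = r ^ 7 • HH7 k := by
  unfold HH7
  rw [GG_smul, norm_smul, Real.norm_of_nonneg hr.le, toW_smul']
  ext j
  simp only [PiLp.smul_apply, smul_eq_mul, Complex.real_smul]
  push_cast
  ring

theorem HH7_hom : JH19.s9H 6 7 HH7 where
  smooth := by
    intro k _
    refine ContDiffAt.contDiffWithinAt ?_
    have h1 : ContDiff ℝ (6 : ℕ) GG := by
      unfold GG
      exact (JH19.s9_coord 2).smul (((contDiff_norm_sq ℝ).smul contDiff_const).sub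
        ((JH19.s9_coord 2).smul contDiff_id))
    have h2 : ContDiff ℝ (6 : ℕ) fun k : E => ‖k‖ ^ 4 := by
      have h3 : ContDiff ℝ (6 : ℕ) fun k : E => (‖k‖ ^ 2) ^ 2 := (contDiff_norm_sq ℝ).pow 2
      have e : (fun k : E => ‖k‖ ^ 4) = fun k : E => (‖k‖ ^ 2) ^ 2 := by
        funext k
        ring
      rw [e]
      exact h3
    have h4 : ContDiff ℝ (6 : ℕ) fun k : E => Complex.I • JH19.s9L (GG k) :=
      (JH19.s9L.contDiff.comp h1).const_smul Complex.I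
    exact (h2.smul h4).contDiffAt
  hom := by
    intro r hr k _
    rw [HH7_smul hr]
    congr 1
    have : (7 : ℝ) = ((7 : ℕ) : ℝ) := by norm_num
    rw [this, Real.rpow_natCast]

theorem prV_reg : ContDiff ℝ (6 : ℕ) prV ∧ ∀ i ≤ 6, ∀ r : ℕ, ∃ C : ℝ, ∀ k : E,
    ‖k‖ ^ r * ‖iteratedFDeriv ℝ i prV k‖ ≤ C := by
  rw [prV_T]
  refine ⟨(JH19.s9_main 6 W _ _ (by norm_num) HH7_hom).1, fun i hi r => ?_⟩
  have hi' : (i : ℝ) ≤ 6 := by exact_mod_cast hi
  exact (JH19.s9_main i W 7 _ (by linarith) (JH19.s9_mono hi HH7_hom)).2 r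

/-- The decay of the velocity. -/
theorem vel_prV_decay (A : ℝ) (r : ℕ) :
    ∃ C : ℝ, ∀ x : E, (1 + ‖x‖) ^ 6 * ‖iteratedFDeriv ℝ r (vel (A • prV)) x‖ ≤ C := by
  obtain ⟨h1, h2⟩ := prV_reg
  obtain ⟨C, hC⟩ := vel_decay 6 h1 h2 r
  have hsm : ContDiff ℝ ∞ (vel prV) := vel_smooth adm_prV
  refine ⟨|A| * C, fun x => ?_⟩
  have e : vel (A • prV) = A • vel prV := by
    funext y
    rw [vel_smul', Pi.smul_apply]
  rw [e, iteratedFDeriv_const_smul_apply ((hsm.of_le (by exact_mod_cast le_top)).contDiffAt),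
    norm_smul, Real.norm_eq_abs]
  calc (1 + ‖x‖) ^ 6 * (|A| * ‖iteratedFDeriv ℝ r (vel prV) x‖)
      = |A| * ((1 + ‖x‖) ^ 6 * ‖iteratedFDeriv ℝ r (vel prV) x‖) := by ring
    _ ≤ |A| * C := by
      gcongr
      exact hC x

theorem vel_prV_ne : ∃ x, vel prV x ≠ 0 := by
  by_contra hcon
  push Not at hcon
  have hW : Wi fun k => prV k 2 := adm_prV.wi 2
  have hzero : (fun y => (fl (fun k => prV k 2) y).re) = fun _ => (0 : ℝ) := by
    funext y
    have h := congrArg (fun v : E => v 2) (hcon y)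
    simpa [vel] using h
  have hpd := fl_pd_re hW 2 0
  rw [hzero] at hpd
  have hpd0 : pd 2 (fun _ : E => (0 : ℝ)) 0 = 0 := by
    simp [pd]
  rw [hpd0] at hpd
  have hF : ∀ k : E, Complex.exp (((inner ℝ k (0 : E) : ℝ) : ℂ) * Complex.I) *
      (Complex.I * (k 2 : ℂ) * prV k 2) = ((-(ek k * k 2 ^ 2 * (‖k‖ ^ 2 - k 2 ^ 2)) : ℝ) : ℂ) := by
    intro k
    have h1 : prV k 2 = Complex.I * (ek k : ℂ) * ((GG k 2 : ℝ) : ℂ) := by
      unfold prV
      rw [PiLp.smul_apply, smul_eq_mul, toW_apply]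
    rw [h1, GG2, inner_zero_right]
    push_cast
    rw [zero_mul, Complex.exp_zero, one_mul]
    have hI : Complex.I * Complex.I = -1 := Complex.I_mul_I
    linear_combination ((ek k : ℂ) * (k 2 : ℂ) ^ 2 * (((‖k‖ : ℝ) : ℂ) ^ 2 - (k 2 : ℂ) ^ 2)) * hI
  have hfl : fl (fun k => Complex.I * (k 2 : ℂ) * prV k 2) 0 =
      ((∫ k : E, -(ek k * k 2 ^ 2 * (‖k‖ ^ 2 - k 2 ^ 2)) : ℝ) : ℂ) := by
    unfold fl
    refine (integral_congr_ae (Filter.Eventually.of_forall hF)).trans ?_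
    exact integral_ofReal
  rw [hfl, Complex.ofReal_re, integral_neg] at hpd
  have hk2 : ∀ k : E, ‖k‖ ^ 2 - k 2 ^ 2 = k 0 ^ 2 + k 1 ^ 2 := fun k => by rw [nsq]; ring
  have hnn : ∀ k : E, 0 ≤ ek k * k 2 ^ 2 * (‖k‖ ^ 2 - k 2 ^ 2) := by
    intro k
    rw [hk2]
    have := ek_nonneg k
    positivity
  have hint : Integrable fun k : E => ek k * k 2 ^ 2 * (‖k‖ ^ 2 - k 2 ^ 2) := by
    have h1 : Integrable fun k : E => Complex.I * (k 2 : ℂ) * prV k 2 := by
      refine (hW.2 1).mono' ?_ ?_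
      · refine AEStronglyMeasurable.mul ?_ hW.1
        have hc : Continuous fun k : E => Complex.I * ((k 2 : ℝ) : ℂ) := by fun_prop
        exact hc.aestronglyMeasurable
      · refine Filter.Eventually.of_forall fun k => ?_
        rw [norm_mul, norm_mul, Complex.norm_I, one_mul, pow_one, Complex.norm_real]
        exact mul_le_mul_of_nonneg_right (PiLp.norm_apply_le k 2) (norm_nonneg _)
    have h2 := h1.re.neg
    refine h2.congr (Filter.Eventually.of_forall fun k => ?_)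
    have h3 := hF k
    rw [inner_zero_right, Complex.ofReal_zero, zero_mul, Complex.exp_zero, one_mul] at h3
    show -(RCLike.re (Complex.I * (k 2 : ℂ) * prV k 2)) = _
    rw [h3]
    rw [RCLike.re_eq_complex_re, Complex.ofReal_re, neg_neg]
  have hpos : 0 < ∫ k : E, ek k * k 2 ^ 2 * (‖k‖ ^ 2 - k 2 ^ 2) := by
    rw [integral_pos_iff_support_of_nonneg hnn hint]
    have hopen : IsOpen {k : E | 0 < k 0 ∧ 0 < k 2} := by
      have c1 : Continuous fun k : E => k 0 := by fun_prop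
      have c2 : Continuous fun k : E => k 2 := by fun_prop
      exact (isOpen_lt continuous_const c1).inter (isOpen_lt continuous_const c2)
    have hne : ({k : E | 0 < k 0 ∧ 0 < k 2}).Nonempty := by
      refine ⟨ev 0 + ev 2, ?_⟩
      simp [ev]
    refine lt_of_lt_of_le (hopen.measure_pos volume hne) (measure_mono ?_)
    rintro k ⟨hk0, hk⟩
    have hk3 : 0 < ‖k‖ := by
      rw [norm_pos_iff]
      rintro rfl
      simp at hk0
    rw [Function.mem_support]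
    apply ne_of_gt
    rw [hk2]
    unfold ek
    have h1 : 0 < k 0 ^ 2 + k 1 ^ 2 := by positivity
    positivity
  linarith

theorem prV_smul_eq {l : ℝ} (hl : 0 < l) (c : ℝ) (k : E) : c • prV (l⁻¹ • k) =
    (c * ((l⁻¹) ^ 7 * Real.exp (-(l⁻¹ * ‖k‖)))) • HH7 k := by
  have hl' : 0 < l⁻¹ := inv_pos.2 hl
  rw [prV_eq, HH7_smul hl', norm_smul, Real.norm_eq_abs, abs_of_pos hl', smul_smul, smul_smul]
  congr 1
  ring

/-- The derivative in time. -/
theorem prV_deriv {c l : ℝ → ℝ} {c' l' t : ℝ} (hc : HasDerivAt c c' t)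
    (hl : HasDerivAt l l' t) (hl0 : 0 < l t) (k : E) :
    HasDerivAt (fun s => c s • prV ((l s)⁻¹ • k))
      ((c' + c t * l' * (l t)⁻¹ * (‖(l t)⁻¹ • k‖ - 7)) • prV ((l t)⁻¹ • k)) t := by
  have hne : l t ≠ 0 := hl0.ne'
  have hi : HasDerivAt (fun s => (l s)⁻¹) (-l' / (l t) ^ 2) t := hl.inv hne
  have h1 : HasDerivAt (fun s => c s * (((l s)⁻¹) ^ 7 * Real.exp (-((l s)⁻¹ * ‖k‖))))
      ((c' + c t * l' * (l t)⁻¹ * ((l t)⁻¹ * ‖k‖ - 7)) *
        (((l t)⁻¹) ^ 7 * Real.exp (-((l t)⁻¹ * ‖k‖)))) t := by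
    have hE : HasDerivAt (fun s => Real.exp (-((l s)⁻¹ * ‖k‖)))
        (Real.exp (-((l t)⁻¹ * ‖k‖)) * -(-l' / (l t) ^ 2 * ‖k‖)) t := (hi.mul_const ‖k‖).neg.exp
    have hP : HasDerivAt (fun s => ((l s)⁻¹) ^ 7) (((7 : ℕ) : ℝ) *
        ((l t)⁻¹) ^ (7 - 1) * (-l' / (l t) ^ 2)) t := hi.pow 7
    have h2 : HasDerivAt (fun s => c s * (((l s)⁻¹) ^ 7 * Real.exp (-((l s)⁻¹ * ‖k‖))))
        (c' * (((l t)⁻¹) ^ 7 * Real.exp (-((l t)⁻¹ * ‖k‖))) +
          c t * ((((7 : ℕ) : ℝ) * ((l t)⁻¹) ^ (7 - 1) * (-l' / (l t) ^ 2)) *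
            Real.exp (-((l t)⁻¹ * ‖k‖)) +
            ((l t)⁻¹) ^ 7 * (Real.exp (-((l t)⁻¹ * ‖k‖)) * -(-l' / (l t) ^ 2 * ‖k‖)))) t :=
      hc.mul (hP.mul hE)
    refine h2.congr_deriv ?_
    generalize Real.exp (-((l t)⁻¹ * ‖k‖)) = X
    norm_num
    field_simp
    ring
  have h3 := h1.smul_const (HH7 k)
  have hl1 : 0 < (l t)⁻¹ := inv_pos.2 hl0
  have e1 : (c' + c t * l' * (l t)⁻¹ * (‖(l t)⁻¹ • k‖ - 7)) • prV ((l t)⁻¹ • k) =
      ((c' + c t * l' * (l t)⁻¹ * ((l t)⁻¹ * ‖k‖ - 7)) *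
        (((l t)⁻¹) ^ 7 * Real.exp (-((l t)⁻¹ * ‖k‖)))) • HH7 k := by
    rw [prV_smul_eq hl0, norm_smul, Real.norm_eq_abs, abs_of_pos hl1]
  rw [e1]
  refine h3.congr_of_eventuallyEq ?_
  have hev : ∀ᶠ s in 𝓝 t, 0 < l s := hl.continuousAt.eventually (lt_mem_nhds hl0)
  filter_upwards [hev] with s hs
  exact prV_smul_eq hs (c s) k

end H14NS
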