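import Pool.Agent.H14.NS.Iso

/-!
The weights.
-/

set_option autoImplicit false

open Set Filter Topology MeasureTheory
open scoped ComplexConjugate ContDiff

namespace H14NS

open H706N

/-- A symmetric polynomial. -/
noncomputable def phi0 (a b c : ℝ) : ℝ :=
    209361612 * (a ^ 2 * b ^ 2 * c ^ 2)
    + 35577820 * (a ^ 3 * b ^ 2 * c + a ^ 3 * b * c ^ 2 + a ^ 2 * b ^ 3 * c + a ^ 2 * b * c ^ 3 + a * b ^ 3 * c ^ 2 + a * b ^ 2 * c ^ 3)
    - 97374218 * (a ^ 3 * b ^ 3 + a ^ 3 * c ^ 3 + b ^ 3 * c ^ 3)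
    + 28531901 * (a ^ 4 * b * c + a * b ^ 4 * c + a * b * c ^ 4)
    - 60033969 * (a ^ 4 * b ^ 2 + a ^ 4 * c ^ 2 + a ^ 2 * b ^ 4 + a ^ 2 * c ^ 4 + b ^ 4 * c ^ 2 + b ^ 2 * c ^ 4)
    + 24612359 * (a ^ 5 * b + a ^ 5 * c + a * b ^ 5 + a * c ^ 5 + b ^ 5 * c + b * c ^ 5)
    + 10732003 * (a ^ 6 + b ^ 6 + c ^ 6)

/-- A polynomial symmetric in the last two variables. -/
noncomputable def phi1 (a b c : ℝ) : ℝ :=
    74405074 * (b ^ 3 * c ^ 3)
    - 16250919 * (b ^ 4 * c ^ 2 + b ^ 2 * c ^ 4)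
    - 10749383 * (b ^ 5 * c + b * c ^ 5)
    + 3841249 * (b ^ 6 + c ^ 6)
    - 120804219 * (a * b ^ 3 * c ^ 2 + a * b ^ 2 * c ^ 3)
    + 82990501 * (a * b ^ 4 * c + a * b * c ^ 4)
    - 659754 * (a * b ^ 5 + a * c ^ 5)
    + 299362028 * (a ^ 2 * b ^ 2 * c ^ 2)
    - 43220559 * (a ^ 2 * b ^ 3 * c + a ^ 2 * b * c ^ 3)
    - 56552266 * (a ^ 2 * b ^ 4 + a ^ 2 * c ^ 4)
    - 148266318 * (a ^ 3 * b ^ 2 * c + a ^ 3 * b * c ^ 2)
    + 84560011 * (a ^ 3 * b ^ 3 + a ^ 3 * c ^ 3)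
    + 143215684 * (a ^ 4 * b * c)
    - 11624884 * (a ^ 4 * b ^ 2 + a ^ 4 * c ^ 2)
    - 23969925 * (a ^ 5 * b + a ^ 5 * c)
    + 4405569 * (a ^ 6)

/-- The weight of the triads with three equal helicity signs. -/
noncomputable def v0 (a b c : ℝ) : ℝ :=
  dd a b c ^ 4 * phi0 a b c / ((a + b + c) ^ 3 * (a * b * c) ^ 5)

/-- The weight of the triads where the helicity sign of the first frequency differs from the others. -/
noncomputable def v1 (a b c : ℝ) : ℝ :=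
  (b + c - a) ^ 2 * ((a + c - b) * (a + b - c)) ^ 4 * phi1 a b c / ((a + b + c) * (a * b * c) ^ 5)

/-- The weights without the normalization. -/
noncomputable def wg : Bool → Bool → Bool → ℝ → ℝ → ℝ → ℝ
  | true, true, true, a, b, c => v0 a b c
  | false, false, false, a, b, c => v0 a b c
  | false, true, true, a, b, c => v1 a b c
  | true, false, false, a, b, c => v1 a b c
  | true, false, true, a, b, c => v1 b a c
  | false, true, false, a, b, c => v1 b a c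
  | true, true, false, a, b, c => v1 c a b
  | false, false, true, a, b, c => v1 c a b

/-- The lengths of the sides of a triangle. -/
def tri (a b c : ℝ) : Prop := 0 ≤ a ∧ 0 ≤ b ∧ 0 ≤ c ∧ a ≤ b + c ∧ b ≤ a + c ∧ c ≤ a + b

open Classical in
/-- The weights, for triangles only. -/
noncomputable def wt (ε : ℝ) (s₁ s₂ s₃ : Bool) (a b c : ℝ) : ℝ :=
  if tri a b c then ε * wg s₁ s₂ s₃ a b c else 0

theorem tri_swap (a b c : ℝ) : tri b a c ↔ tri a b c := by
  unfold tri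
  rw [add_comm b a]
  tauto

theorem tri_swap' (a b c : ℝ) : tri a c b ↔ tri a b c := by
  unfold tri
  rw [add_comm c b]
  tauto

theorem tri_smul {r : ℝ} (hr : 0 < r) (a b c : ℝ) : tri (r * a) (r * b) (r * c) ↔ tri a b c := by
  unfold tri
  rw [← mul_add, ← mul_add, ← mul_add, mul_le_mul_iff_right₀ hr, mul_le_mul_iff_right₀ hr,
    mul_le_mul_iff_right₀ hr, mul_nonneg_iff_of_pos_left hr, mul_nonneg_iff_of_pos_left hr,
    mul_nonneg_iff_of_pos_left hr]

theorem dd_swap (a b c : ℝ) : dd b a c = dd a b c := by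
  unfold dd; ring

theorem dd_swap' (a b c : ℝ) : dd a c b = dd a b c := by
  unfold dd; ring

theorem v0_swap (a b c : ℝ) : v0 b a c = v0 a b c := by
  have h : phi0 b a c = phi0 a b c := by unfold phi0; ring
  unfold v0
  rw [h, dd_swap, add_comm b a, mul_comm b a]

theorem v0_swap' (a b c : ℝ) : v0 a c b = v0 a b c := by
  have h : phi0 a c b = phi0 a b c := by unfold phi0; ring
  unfold v0
  rw [h, dd_swap', add_right_comm, mul_right_comm]

theorem v1_swap' (a b c : ℝ) : v1 a c b = v1 a b c := by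
  have h : phi1 a c b = phi1 a b c := by unfold phi1; ring
  unfold v1
  rw [h, add_right_comm a c b, mul_right_comm a c b, add_comm c b, mul_comm (a + b - c)]

theorem wg_swap (s₁ s₂ s₃ : Bool) (a b c : ℝ) : wg s₂ s₁ s₃ b a c = wg s₁ s₂ s₃ a b c := by
  cases s₁ <;> cases s₂ <;> cases s₃ <;> simp only [wg, v0_swap, v1_swap']

theorem wg_swap' (s₁ s₂ s₃ : Bool) (a b c : ℝ) : wg s₁ s₃ s₂ a c b = wg s₁ s₂ s₃ a b c := by
  cases s₁ <;> cases s₂ <;> cases s₃ <;> simp only [wg, v0_swap', v1_swap']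

theorem wg_flip (s₁ s₂ s₃ : Bool) (a b c : ℝ) :
    wg (!s₁) (!s₂) (!s₃) a b c = wg s₁ s₂ s₃ a b c := by
  cases s₁ <;> cases s₂ <;> cases s₃ <;> simp only [wg, Bool.not_true, Bool.not_false]

theorem v0_hom {r : ℝ} (hr : 0 < r) (a b c : ℝ) : v0 (r * a) (r * b) (r * c) = v0 a b c := by
  have h1 : phi0 (r * a) (r * b) (r * c) = r ^ 6 * phi0 a b c := by unfold phi0; ring
  have h2 : dd (r * a) (r * b) (r * c) = r ^ 3 * dd a b c := by unfold dd; ring
  unfold v0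
  rw [h1, h2]
  have h3 : (r ^ 3 * dd a b c) ^ 4 * (r ^ 6 * phi0 a b c) = r ^ 18 * (dd a b c ^ 4 * phi0 a b c) := by
    ring
  have h4 : (r * a + r * b + r * c) ^ 3 * (r * a * (r * b) * (r * c)) ^ 5
      = r ^ 18 * ((a + b + c) ^ 3 * (a * b * c) ^ 5) := by ring
  rw [h3, h4, mul_div_mul_left _ _ (pow_pos hr 18).ne']

theorem v1_hom {r : ℝ} (hr : 0 < r) (a b c : ℝ) : v1 (r * a) (r * b) (r * c) = v1 a b c := by
  have h1 : phi1 (r * a) (r * b) (r * c) = r ^ 6 * phi1 a b c := by unfold phi1; ring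
  unfold v1
  rw [h1]
  have h3 : (r * b + r * c - r * a) ^ 2 * ((r * a + r * c - r * b) * (r * a + r * b - r * c)) ^ 4
        * (r ^ 6 * phi1 a b c)
      = r ^ 16 * ((b + c - a) ^ 2 * ((a + c - b) * (a + b - c)) ^ 4 * phi1 a b c) := by
    ring
  have h4 : (r * a + r * b + r * c) * (r * a * (r * b) * (r * c)) ^ 5
      = r ^ 16 * ((a + b + c) * (a * b * c) ^ 5) := by ring
  rw [h3, h4, mul_div_mul_left _ _ (pow_pos hr 16).ne']

theorem wg_hom {r : ℝ} (hr : 0 < r) (s₁ s₂ s₃ : Bool) (a b c : ℝ) :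
    wg s₁ s₂ s₃ (r * a) (r * b) (r * c) = wg s₁ s₂ s₃ a b c := by
  cases s₁ <;> cases s₂ <;> cases s₃ <;> simp only [wg, v0_hom hr, v1_hom hr]

theorem v0_meas : Measurable fun z : ℝ × ℝ × ℝ => v0 z.1 z.2.1 z.2.2 := by
  unfold v0 phi0 dd
  fun_prop

theorem v1_meas : Measurable fun z : ℝ × ℝ × ℝ => v1 z.1 z.2.1 z.2.2 := by
  unfold v1 phi1
  fun_prop

theorem wg_meas (s₁ s₂ s₃ : Bool) : Measurable fun z : ℝ × ℝ × ℝ => wg s₁ s₂ s₃ z.1 z.2.1 z.2.2 := by
  have h2 : Measurable fun z : ℝ × ℝ × ℝ => (z.2.1, z.1, z.2.2) := by fun_prop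
  have h3 : Measurable fun z : ℝ × ℝ × ℝ => (z.2.2, z.1, z.2.1) := by fun_prop
  have e2 := v1_meas.comp h2
  have e3 := v1_meas.comp h3
  cases s₁ <;> cases s₂ <;> cases s₃ <;> simp only [wg]
  · exact v0_meas
  · exact e3
  · exact e2
  · exact v1_meas
  · exact v1_meas
  · exact e2
  · exact e3
  · exact v0_meas

theorem tri_meas : MeasurableSet {z : ℝ × ℝ × ℝ | tri z.1 z.2.1 z.2.2} := by
  unfold tri
  have h1 : Measurable fun z : ℝ × ℝ × ℝ => z.1 := by fun_prop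
  have h2 : Measurable fun z : ℝ × ℝ × ℝ => z.2.1 := by fun_prop
  have h3 : Measurable fun z : ℝ × ℝ × ℝ => z.2.2 := by fun_prop
  exact (measurableSet_le measurable_const h1).inter ((measurableSet_le measurable_const h2).inter
    ((measurableSet_le measurable_const h3).inter ((measurableSet_le h1 (h2.add h3)).inter
      ((measurableSet_le h2 (h1.add h3)).inter (measurableSet_le h3 (h1.add h2))))))

/-- The weights are isotropic weights. -/
theorem wt_wts (ε : ℝ) : Wts (wt ε) where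
  meas s₁ s₂ s₃ := by
    unfold wt
    exact Measurable.ite tri_meas ((wg_meas s₁ s₂ s₃).const_mul ε) measurable_const
  swap s₁ s₂ s₃ a b c := by
    unfold wt
    rw [wg_swap]
    classical exact if_congr (tri_swap a b c) rfl rfl
  swap' s₁ s₂ s₃ a b c := by
    unfold wt
    rw [wg_swap']
    classical exact if_congr (tri_swap' a b c) rfl rfl
  flip s₁ s₂ s₃ a b c := by
    unfold wt
    rw [wg_flip]
  hom r hr s₁ s₂ s₃ a b c := by
    unfold wt
    rw [wg_hom hr]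
    classical exact if_congr (tri_smul hr a b c) rfl rfl

/-! ### The bounds -/

theorem hom_bd {P : ℝ → ℝ → ℝ → ℝ} (n : ℕ) (hn : n ≠ 0)
    (hc : Continuous fun z : ℝ × ℝ × ℝ => P z.1 z.2.1 z.2.2)
    (hom : ∀ r a b c, P (r * a) (r * b) (r * c) = r ^ n * P a b c) :
    ∃ C : ℝ, 0 ≤ C ∧ ∀ a b c, 0 ≤ a → 0 ≤ b → 0 ≤ c → |P a b c| ≤ C * (a + b + c) ^ n := by
  obtain ⟨C, hC⟩ := (isCompact_Icc (a := ((0 : ℝ), (0 : ℝ), (0 : ℝ)))
    (b := ((1 : ℝ), (1 : ℝ), (1 : ℝ)))).exists_bound_of_continuousOn hc.continuousOn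
  have h1 : ∀ a b c : ℝ, 0 ≤ a → 0 ≤ b → 0 ≤ c → a ≤ 1 → b ≤ 1 → c ≤ 1 → |P a b c| ≤ C := by
    intro a b c ha hb hc' ha1 hb1 hc1
    have := hC (a, b, c) ⟨⟨ha, hb, hc'⟩, ⟨ha1, hb1, hc1⟩⟩
    simpa using this
  have hC0 : 0 ≤ C := le_trans (abs_nonneg _) (h1 0 0 0 le_rfl le_rfl le_rfl zero_le_one zero_le_one
    zero_le_one)
  refine ⟨C, hC0, fun a b c ha hb hc' => ?_⟩
  rcases (show 0 ≤ a + b + c by positivity).eq_or_lt with h0 | h0
  · have ha0 : a = 0 := by linarith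
    have hb0 : b = 0 := by linarith
    have hc0 : c = 0 := by linarith
    have := hom 0 0 0 0
    simp only [mul_zero, ne_eq, hn, not_false_eq_true, zero_pow, zero_mul] at this
    rw [ha0, hb0, hc0, this]
    simp [hn]
  · have e : P a b c = (a + b + c) ^ n *
        P (a / (a + b + c)) (b / (a + b + c)) (c / (a + b + c)) := by
      rw [← hom]
      congr 1 <;> field_simp
    have h := h1 (a / (a + b + c)) (b / (a + b + c)) (c / (a + b + c)) (by positivity)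
      (by positivity) (by positivity) (by rw [div_le_one h0]; linarith)
      (by rw [div_le_one h0]; linarith) (by rw [div_le_one h0]; linarith)
    rw [e, abs_mul, abs_of_nonneg (by positivity : (0:ℝ) ≤ (a + b + c) ^ n), mul_comm C]
    gcongr

/-- The elementary estimate: `m` is the smallest side, `y`, `z` the other ones. -/
theorem quot_bd {N K s m y z : ℝ} (j : ℕ) (hm : 0 < m) (hs : 0 < s) (hy : s ≤ 4 * y) (hz : s ≤ 4 * z)
    (hK : 0 ≤ K) (hN : |N| * s ≤ K * m ^ 6 * s ^ (10 + j)) :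
    |N / (s ^ j * (m * y * z) ^ 5)| * s ≤ 4 ^ 10 * K * m := by
  have hy0 : 0 < y := by linarith
  have hz0 : 0 < z := by linarith
  have h1 : s ^ 10 ≤ 4 ^ 10 * (y * z) ^ 5 := by
    calc s ^ 10 = s ^ 5 * s ^ 5 := by ring
      _ ≤ (4 * y) ^ 5 * (4 * z) ^ 5 := by gcongr
      _ = 4 ^ 10 * (y * z) ^ 5 := by ring
  have h2 : 0 < s ^ j * (m * y * z) ^ 5 := by positivity
  rw [abs_div, abs_of_pos h2, div_mul_eq_mul_div, div_le_iff₀ h2]
  calc |N| * s ≤ K * m ^ 6 * s ^ (10 + j) := hN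
    _ = K * m ^ 6 * s ^ j * s ^ 10 := by rw [pow_add]; ring
    _ ≤ K * m ^ 6 * s ^ j * (4 ^ 10 * (y * z) ^ 5) := by gcongr
    _ = 4 ^ 10 * K * m * (s ^ j * (m * y * z) ^ 5) := by ring

theorem v0_small {C : ℝ} (hC0 : 0 ≤ C)
    (hC : ∀ a b c, 0 ≤ a → 0 ≤ b → 0 ≤ c → |phi0 a b c| ≤ C * (a + b + c) ^ 6)
    {a b c : ℝ} (h : tri a b c) (hab : a ≤ b) (hac : a ≤ c) (ha0 : 0 < a) :
    |v0 a b c| * (a + b + c) ≤ 4 ^ 10 * (64 * C) * a := by
  obtain ⟨ha, hb, hc, h1, h2, h3⟩ := h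
  have hs : 0 < a + b + c := by linarith
  unfold v0
  refine quot_bd 3 ha0 hs (by linarith) (by linarith) (by positivity) ?_
  rw [abs_mul, abs_pow]
  have hx : 0 ≤ b + c - a := by linarith
  have hy : 0 ≤ a + c - b := by linarith
  have hz : 0 ≤ a + b - c := by linarith
  have hd : dd a b c ^ 4 = (b + c - a) ^ 4 * ((a + c - b) ^ 3 * (a + b - c) ^ 3)
      * ((a + c - b) * (a + b - c)) := by
    unfold dd; ring
  rw [← abs_pow, hd, abs_of_nonneg (by positivity)]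
  have e1 : (b + c - a) ^ 4 ≤ (a + b + c) ^ 4 := by gcongr; linarith
  have e2 : (a + c - b) ^ 3 ≤ (2 * a) ^ 3 := by gcongr; linarith
  have e3 : (a + b - c) ^ 3 ≤ (2 * a) ^ 3 := by gcongr; linarith
  have e4 : a + c - b ≤ a + b + c := by linarith
  have e5 : a + b - c ≤ a + b + c := by linarith
  calc (b + c - a) ^ 4 * ((a + c - b) ^ 3 * (a + b - c) ^ 3) * ((a + c - b) * (a + b - c))
        * |phi0 a b c| * (a + b + c)
      ≤ (a + b + c) ^ 4 * ((2 * a) ^ 3 * (2 * a) ^ 3) * ((a + b + c) * (a + b + c))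
        * (C * (a + b + c) ^ 6) * (a + b + c) := by
        gcongr
        exact hC a b c ha hb hc
    _ = 64 * C * a ^ 6 * (a + b + c) ^ (10 + 3) := by ring

/-- The numerator of `v1`. -/
theorem v1_small₁ {C : ℝ} (hC0 : 0 ≤ C)
    (hC : ∀ a b c, 0 ≤ a → 0 ≤ b → 0 ≤ c → |phi1 a b c| ≤ C * (a + b + c) ^ 6)
    {a b c : ℝ} (h : tri a b c) (hab : a ≤ b) (hac : a ≤ c) (ha0 : 0 < a) :
    |v1 a b c| * (a + b + c) ≤ 4 ^ 10 * (64 * C) * a := by
  obtain ⟨ha, hb, hc, h1, h2, h3⟩ := h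
  have hs : 0 < a + b + c := by linarith
  have e : v1 a b c = ((b + c - a) ^ 2 * ((a + c - b) * (a + b - c)) ^ 4 * phi1 a b c)
      / ((a + b + c) ^ 1 * (a * b * c) ^ 5) := by
    unfold v1; rw [pow_one]
  rw [e]
  refine quot_bd 1 ha0 hs (by linarith) (by linarith) (by positivity) ?_
  have hx : 0 ≤ b + c - a := by linarith
  have hy : 0 ≤ a + c - b := by linarith
  have hz : 0 ≤ a + b - c := by linarith
  rw [abs_mul, abs_of_nonneg (by positivity)]
  have e1 : (b + c - a) ^ 2 ≤ (a + b + c) ^ 2 := by gcongr; linarith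
  have e2 : (a + c - b) ^ 3 ≤ (2 * a) ^ 3 := by gcongr; linarith
  have e3 : (a + b - c) ^ 3 ≤ (2 * a) ^ 3 := by gcongr; linarith
  have e4 : a + c - b ≤ a + b + c := by linarith
  have e5 : a + b - c ≤ a + b + c := by linarith
  calc (b + c - a) ^ 2 * ((a + c - b) * (a + b - c)) ^ 4 * |phi1 a b c| * (a + b + c)
      = (b + c - a) ^ 2 * ((a + c - b) ^ 3 * (a + b - c) ^ 3) * ((a + c - b) * (a + b - c))
        * |phi1 a b c| * (a + b + c) := by ring
    _ ≤ (a + b + c) ^ 2 * ((2 * a) ^ 3 * (2 * a) ^ 3) * ((a + b + c) * (a + b + c))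
        * (C * (a + b + c) ^ 6) * (a + b + c) := by
        gcongr
        exact hC a b c ha hb hc
    _ = 64 * C * a ^ 6 * (a + b + c) ^ (10 + 1) := by ring

theorem v1_small₂ {C : ℝ} (hC0 : 0 ≤ C)
    (hC : ∀ a b c, 0 ≤ a → 0 ≤ b → 0 ≤ c → |phi1 a b c| ≤ C * (a + b + c) ^ 6)
    {a b c : ℝ} (h : tri a b c) (hba : b ≤ a) (hbc : b ≤ c) (hb0 : 0 < b) :
    |v1 a b c| * (a + b + c) ≤ 4 ^ 10 * (64 * C) * b := by
  obtain ⟨ha, hb, hc, h1, h2, h3⟩ := h
  have hs : 0 < a + b + c := by linarith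
  have e : v1 a b c = ((b + c - a) ^ 2 * ((a + c - b) * (a + b - c)) ^ 4 * phi1 a b c)
      / ((a + b + c) ^ 1 * (b * a * c) ^ 5) := by
    unfold v1; rw [pow_one, mul_comm b a]
  rw [e]
  refine quot_bd 1 hb0 hs (by linarith) (by linarith) (by positivity) ?_
  have hx : 0 ≤ b + c - a := by linarith
  have hy : 0 ≤ a + c - b := by linarith
  have hz : 0 ≤ a + b - c := by linarith
  rw [abs_mul, abs_of_nonneg (by positivity)]
  have e1 : (b + c - a) ^ 2 ≤ (2 * b) ^ 2 := by gcongr; linarith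
  have e2 : (a + c - b) ^ 4 ≤ (a + b + c) ^ 4 := by gcongr; linarith
  have e3 : (a + b - c) ^ 4 ≤ (2 * b) ^ 4 := by gcongr; linarith
  calc (b + c - a) ^ 2 * ((a + c - b) * (a + b - c)) ^ 4 * |phi1 a b c| * (a + b + c)
      = (b + c - a) ^ 2 * ((a + c - b) ^ 4 * (a + b - c) ^ 4)
        * |phi1 a b c| * (a + b + c) := by ring
    _ ≤ (2 * b) ^ 2 * ((a + b + c) ^ 4 * (2 * b) ^ 4)
        * (C * (a + b + c) ^ 6) * (a + b + c) := by
        gcongr
        exact hC a b c ha hb hc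
    _ = 64 * C * b ^ 6 * (a + b + c) ^ (10 + 1) := by ring

theorem phi0_cont : Continuous fun z : ℝ × ℝ × ℝ => phi0 z.1 z.2.1 z.2.2 := by
  unfold phi0
  fun_prop

theorem phi1_cont : Continuous fun z : ℝ × ℝ × ℝ => phi1 z.1 z.2.1 z.2.2 := by
  unfold phi1
  fun_prop

theorem phi0_hom (r a b c : ℝ) : phi0 (r * a) (r * b) (r * c) = r ^ 6 * phi0 a b c := by
  unfold phi0; ring

theorem phi1_hom (r a b c : ℝ) : phi1 (r * a) (r * b) (r * c) = r ^ 6 * phi1 a b c := by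
  unfold phi1; ring

/-- Functions which are small for the triangles with a small side. -/
def Sml (K : ℝ) (v : ℝ → ℝ → ℝ → ℝ) : Prop :=
  ∀ a b c, tri a b c → |v a b c| * (a + b + c) ≤ K * a ∧ |v a b c| * (a + b + c) ≤ K * b ∧
    |v a b c| * (a + b + c) ≤ K * c

theorem tri_pos {a b c : ℝ} (h : tri a b c) (hm : a * b * c ≠ 0) : 0 < a ∧ 0 < b ∧ 0 < c := by
  obtain ⟨ha, hb, hc, -⟩ := h
  refine ⟨lt_of_le_of_ne ha fun h => hm ?_, lt_of_le_of_ne hb fun h => hm ?_,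
    lt_of_le_of_ne hc fun h => hm ?_⟩ <;> rw [← h] <;> ring

theorem sml_aux {A K x a b c : ℝ} (h0 : 0 ≤ K) (hA : A ≤ K * x) (h1 : x ≤ a) (h2 : x ≤ b) (h3 : x ≤ c) :
    A ≤ K * a ∧ A ≤ K * b ∧ A ≤ K * c :=
  ⟨hA.trans (by gcongr), hA.trans (by gcongr), hA.trans (by gcongr)⟩

theorem v0_sml : ∃ K, 0 ≤ K ∧ Sml K v0 := by
  obtain ⟨C, hC0, hC⟩ := hom_bd 6 (by norm_num) phi0_cont phi0_hom
  refine ⟨4 ^ 10 * (64 * C), by positivity, fun a b c h => ?_⟩
  have hK : 0 ≤ 4 ^ 10 * (64 * C) := by positivity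
  have h' := h
  obtain ⟨ha, hb, hc, h1, h2, h3⟩ := h'
  by_cases hm : a * b * c = 0
  · have : v0 a b c = 0 := by
      unfold v0; rw [hm]; simp
    rw [this, abs_zero, zero_mul]
    exact ⟨by positivity, by positivity, by positivity⟩
  · obtain ⟨pa, pb, pc⟩ := tri_pos h hm
    have hb' : tri b a c := (tri_swap a b c).2 h
    have hc' : tri c a b := (tri_swap a c b).2 ((tri_swap' a b c).2 h)
    have eb : v0 a b c = v0 b a c := (v0_swap a b c).symm
    have ec : v0 a b c = v0 c a b := by rw [v0_swap a c b, v0_swap']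
    have sb : a + b + c = b + a + c := by ring
    have sc : a + b + c = c + a + b := by ring
    rcases le_total a b with hab | hab
    · rcases le_total a c with hac | hac
      · exact sml_aux hK (v0_small hC0 hC h hab hac pa) le_rfl hab hac
      · have := v0_small hC0 hC hc' hac (hac.trans hab) pc
        rw [← ec, ← sc] at this
        exact sml_aux hK this hac (hac.trans hab) le_rfl
    · rcases le_total b c with hbc | hbc
      · have := v0_small hC0 hC hb' hab hbc pb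
        rw [← eb, ← sb] at this
        exact sml_aux hK this hab le_rfl hbc
      · have := v0_small hC0 hC hc' (hbc.trans hab) hbc pc
        rw [← ec, ← sc] at this
        exact sml_aux hK this (hbc.trans hab) hbc le_rfl

theorem v1_sml : ∃ K, 0 ≤ K ∧ Sml K v1 := by
  obtain ⟨C, hC0, hC⟩ := hom_bd 6 (by norm_num) phi1_cont phi1_hom
  refine ⟨4 ^ 10 * (64 * C), by positivity, fun a b c h => ?_⟩
  have hK : 0 ≤ 4 ^ 10 * (64 * C) := by positivity
  have h' := h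
  obtain ⟨ha, hb, hc, h1, h2, h3⟩ := h'
  by_cases hm : a * b * c = 0
  · have : v1 a b c = 0 := by
      unfold v1; rw [hm]; simp
    rw [this, abs_zero, zero_mul]
    exact ⟨by positivity, by positivity, by positivity⟩
  · obtain ⟨pa, pb, pc⟩ := tri_pos h hm
    have hc' : tri a c b := (tri_swap' a b c).2 h
    have ec : v1 a b c = v1 a c b := (v1_swap' a b c).symm
    have sc : a + b + c = a + c + b := by ring
    rcases le_total a b with hab | hab
    · rcases le_total a c with hac | hac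
      · exact sml_aux hK (v1_small₁ hC0 hC h hab hac pa) le_rfl hab hac
      · have := v1_small₂ hC0 hC hc' hac (hac.trans hab) pc
        rw [← ec, ← sc] at this
        exact sml_aux hK this hac (hac.trans hab) le_rfl
    · rcases le_total b c with hbc | hbc
      · exact sml_aux hK (v1_small₂ hC0 hC h hab hbc pb) hab le_rfl hbc
      · have := v1_small₂ hC0 hC hc' (hbc.trans hab) hbc pc
        rw [← ec, ← sc] at this
        exact sml_aux hK this (hbc.trans hab) hbc le_rfl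

theorem sml_swap {K : ℝ} {v : ℝ → ℝ → ℝ → ℝ} (h : Sml K v) : Sml K fun a b c => v b a c := by
  intro a b c ht
  have := h b a c ((tri_swap a b c).2 ht)
  rw [show b + a + c = a + b + c by ring] at this
  exact ⟨this.2.1, this.1, this.2.2⟩

theorem sml_rot {K : ℝ} {v : ℝ → ℝ → ℝ → ℝ} (h : Sml K v) : Sml K fun a b c => v c a b := by
  intro a b c ht
  have := h c a b ((tri_swap a c b).2 ((tri_swap' a b c).2 ht))
  rw [show c + a + b = a + b + c by ring] at this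
  exact ⟨this.2.1, this.2.2, this.1⟩

theorem wg_sml : ∃ K, 0 ≤ K ∧ ∀ s₁ s₂ s₃, Sml K (wg s₁ s₂ s₃) := by
  obtain ⟨K₀, h0, hK₀⟩ := v0_sml
  obtain ⟨K₁, h1, hK₁⟩ := v1_sml
  have m0 : ∀ {v : ℝ → ℝ → ℝ → ℝ} {K : ℝ}, Sml K v → K ≤ K₀ + K₁ → Sml (K₀ + K₁) v := by
    intro v K hv hKK a b c ht
    obtain ⟨p1, p2, p3⟩ := hv a b c ht
    obtain ⟨ha, hb, hc, -⟩ := ht
    exact ⟨p1.trans (by gcongr), p2.trans (by gcongr), p3.trans (by gcongr)⟩
  have i0 := m0 hK₀ (by linarith)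
  have i1 := m0 hK₁ (by linarith)
  have i2 := m0 (sml_swap hK₁) (by linarith)
  have i3 := m0 (sml_rot hK₁) (by linarith)
  refine ⟨K₀ + K₁, by positivity, fun s₁ s₂ s₃ => ?_⟩
  cases s₁ <;> cases s₂ <;> cases s₃
  · exact i0
  · exact i3
  · exact i2
  · exact i1
  · exact i1
  · exact i2
  · exact i3
  · exact i0

/-- The normalization of the weights. -/
theorem exists_eps' : ∃ ε : ℝ, 0 < ε ∧ (∀ s₁ s₂ s₃ a b c, |wt ε s₁ s₂ s₃ a b c| ≤ 1) ∧ Dec 1 (wt ε) := by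
  obtain ⟨K, hK0, hK⟩ := wg_sml
  have key : ∀ s₁ s₂ s₃ a b c, tri a b c → |wt (K + 1)⁻¹ s₁ s₂ s₃ a b c| * (a + b + c) ≤ a ∧
      |wt (K + 1)⁻¹ s₁ s₂ s₃ a b c| * (a + b + c) ≤ b ∧
      |wt (K + 1)⁻¹ s₁ s₂ s₃ a b c| * (a + b + c) ≤ c := by
    intro s₁ s₂ s₃ a b c ht
    obtain ⟨p1, p2, p3⟩ := hK s₁ s₂ s₃ a b c ht
    have hi : 0 < (K + 1)⁻¹ := by positivity
    have e : |wt (K + 1)⁻¹ s₁ s₂ s₃ a b c| = (K + 1)⁻¹ * |wg s₁ s₂ s₃ a b c| := by
      unfold wt
      rw [if_pos ht, abs_mul, abs_of_pos hi]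
    obtain ⟨ha, hb, hc, -⟩ := ht
    have aux : ∀ x, 0 ≤ x → |wg s₁ s₂ s₃ a b c| * (a + b + c) ≤ K * x →
        (K + 1)⁻¹ * |wg s₁ s₂ s₃ a b c| * (a + b + c) ≤ x := by
      intro x hx h
      rw [mul_assoc, inv_mul_le_iff₀ (by positivity)]
      linarith [h]
    rw [e]
    exact ⟨aux a ha p1, aux b hb p2, aux c hc p3⟩
  refine ⟨(K + 1)⁻¹, by positivity, fun s₁ s₂ s₃ a b c => ?_, zero_le_one, ?_⟩
  · by_cases ht : tri a b c
    · obtain ⟨p1, p2, p3⟩ := key s₁ s₂ s₃ a b c ht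
      have ht' := ht
      obtain ⟨ha, hb, hc, -⟩ := ht'
      rcases (show 0 ≤ a + b + c by positivity).eq_or_lt with h0 | h0
      · have ha0 : a = 0 := by linarith
        have : wt (K + 1)⁻¹ s₁ s₂ s₃ a b c = 0 := by
          unfold wt
          rw [if_pos ht, ha0]
          cases s₁ <;> cases s₂ <;> cases s₃ <;> simp [wg, v0, v1]
        rw [this, abs_zero]
        exact zero_le_one
      · have : |wt (K + 1)⁻¹ s₁ s₂ s₃ a b c| * (a + b + c) ≤ 1 * (a + b + c) := by linarith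
        exact le_of_mul_le_mul_right this h0
    · unfold wt
      rw [if_neg ht, abs_zero]
      exact zero_le_one
  · intro s₁ s₂ s₃ a b c ha hb hc h1 h2 h3
    obtain ⟨p1, p2, p3⟩ := key s₁ s₂ s₃ a b c ⟨ha, hb, hc, h1, h2, h3⟩
    have h0 := abs_nonneg (wt (K + 1)⁻¹ s₁ s₂ s₃ a b c)
    have e : |wt (K + 1)⁻¹ s₁ s₂ s₃ a b c| * a ≤ |wt (K + 1)⁻¹ s₁ s₂ s₃ a b c| * (a + b + c) := by
      gcongr
      linarith
    rw [one_mul]
    exact le_min (e.trans p2) (e.trans p3)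

/-- The weights matter for the triangles only. -/
theorem hw_wt (ε : ℝ) : hw (wt ε) = hw fun s₁ s₂ s₃ a b c => ε * wg s₁ s₂ s₃ a b c := by
  funext p q a b
  have ht : tri ‖p‖ ‖q‖ ‖p + q‖ := by
    refine ⟨norm_nonneg _, norm_nonneg _, norm_nonneg _, ?_, ?_, norm_add_le _ _⟩
    · have := norm_sub_le (p + q) q
      rw [add_sub_cancel_right] at this
      linarith
    · have := norm_sub_le (p + q) p
      rw [add_sub_cancel_left] at this
      linarith
  unfold hw wt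
  simp only [if_pos ht]

end H14NS
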